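import Pool.Agent.H514.GL.Defs

/-!
GL-10. Changing the range of the primes.

PROOF. Let `R = Rh H`, `A = ∑ |θ i|`. `|dt θ (yv p t)| ≤ A` and it is `0` unless `p ∣ u v (u + v)` (GL-3: hypotheses `h1`,
`h2`). For large `H`: `w < zz H ≤ yy H` (`zz ≤ R ^ (1/8)`, `yy = ⌊TT ^ (1/4)⌋ ≥ ⌊R ^ (1/8)⌋`, because `TT ≥ 2 √R`). So
`|Vv 4 (yy H) θ t - Vv w (zz H) θ t| ≤ A (w + #{p prime : zz < p ≤ yy, p ∣ u v (u + v)})`. For a prime `p ≤ √R`,
`#{t ∈ Rg R : p ∣ u v (u + v)} ≤ 3 √R (√R / p + 1) ≤ 6 R / p` (`1 ≤ u, v ≤ √R`; for fixed `u` at most `√R / p + 1` values `v`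
with `p ∣ u + v`). So the sum over `t` is at most `A (w R + 6 R ∑_{zz < p ≤ yy} 1 / p)` and by Mertens (`mert` in
`H514/IS`: `|∑_{p ≤ y} 1 / p - log log y| ≤ C`, `y ≥ 2`) the last sum is `≤ log log (yy H) - log log (zz H) + 2 C
≤ ll H + C' - log log (zz H)` (`yy ≤ H`), which is `o(√(ll H))` by the hypothesis `hz` (GL-7).
-/

set_option autoImplicit false

open scoped Classical

namespace Pool.Agent.H514.GL

open Finset Filter Pool.Agent.H514.IS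

namespace GL10

/-- the residue class of `-u` modulo `p` in `[1, m]` -/
lemma cnt1 (m p u : ℕ) (hp : 0 < p) :
    ((Icc 1 m).filter (fun v => p ∣ u + v)).card ≤ m / p + 1 := by
  have h : ((Icc 1 m).filter (fun v => p ∣ u + v)).card ≤ (range (m / p + 1)).card := by
    apply card_le_card_of_injOn (fun v => v / p)
    · intro v hv
      have hv1 := mem_filter.1 (mem_coe.1 hv)
      have hv2 := (mem_Icc.1 hv1.1).2
      exact mem_coe.2 (mem_range.2 (Nat.lt_succ_of_le (Nat.div_le_div_right hv2)))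
    · intro v hv v' hv' hvv
      have hv1 := (mem_filter.1 (mem_coe.1 hv)).2
      have hv2 := (mem_filter.1 (mem_coe.1 hv')).2
      have h1 : u + v ≡ u + v' [MOD p] :=
        ((Nat.modEq_zero_iff_dvd.2 hv1).trans (Nat.modEq_zero_iff_dvd.2 hv2).symm)
      have h2 : v ≡ v' [MOD p] := Nat.ModEq.add_left_cancel' u h1
      have h3 : v % p = v' % p := h2
      have h4 : v / p = v' / p := hvv
      rw [← Nat.div_add_mod v p, ← Nat.div_add_mod v' p, h3, h4]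
  rwa [card_range] at h

lemma Rg_sub (R : ℕ) : Rg R ⊆ (Icc 1 (Nat.sqrt R)) ×ˢ (Icc 1 (Nat.sqrt R)) := by
  intro t ht
  rw [Rg, mem_filter, mem_product, mem_Icc, mem_Icc] at ht
  rw [mem_product, mem_Icc, mem_Icc]
  refine ⟨⟨ht.1.1.1, ?_⟩, ht.1.2.1, ?_⟩
  · rw [Nat.le_sqrt]
    nlinarith [ht.2, Nat.zero_le (t.1 * t.2), Nat.zero_le (t.2 ^ 2)]
  · rw [Nat.le_sqrt]
    nlinarith [ht.2, Nat.zero_le (t.1 * t.2), Nat.zero_le (t.1 ^ 2)]

lemma Rg_card (R : ℕ) : (Rg R).card ≤ R := by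
  have h := card_le_card (Rg_sub R)
  rw [card_product, Nat.card_Icc] at h
  have h2 : Nat.sqrt R + 1 - 1 = Nat.sqrt R := by omega
  rw [h2] at h
  exact h.trans (Nat.sqrt_le R)

lemma cnt2 (R p : ℕ) (hp : p.Prime) :
    ((Rg R).filter (fun t => p ∣ t.1 * t.2 * (t.1 + t.2))).card ≤
      3 * (Nat.sqrt R * (Nat.sqrt R / p + 1)) := by
  set m := Nat.sqrt R with hm
  have hI : (Icc 1 m).card = m := by
    rw [Nat.card_Icc]; omega
  have h0 : ((Icc 1 m).filter (fun v => p ∣ v)).card ≤ m / p + 1 := by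
    have := cnt1 m p 0 hp.pos
    simpa only [Nat.zero_add] using this
  have hsub : (Rg R).filter (fun t => p ∣ t.1 * t.2 * (t.1 + t.2)) ⊆
      (((Icc 1 m).filter (fun v => p ∣ v)) ×ˢ (Icc 1 m)) ∪
        (((Icc 1 m) ×ˢ ((Icc 1 m).filter (fun v => p ∣ v))) ∪
          (Icc 1 m).biUnion (fun u => ((Icc 1 m).filter (fun v => p ∣ u + v)).image
            (fun v => (u, v)))) := by
    intro t ht
    rw [mem_filter] at ht
    have h1 := Rg_sub R ht.1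
    rw [← hm, mem_product] at h1
    rcases (Nat.Prime.dvd_mul hp).1 ht.2 with h2 | h2
    · rcases (Nat.Prime.dvd_mul hp).1 h2 with h3 | h3
      · exact mem_union_left _ (mem_product.2 ⟨mem_filter.2 ⟨h1.1, h3⟩, h1.2⟩)
      · exact mem_union_right _ (mem_union_left _
          (mem_product.2 ⟨h1.1, mem_filter.2 ⟨h1.2, h3⟩⟩))
    · refine mem_union_right _ (mem_union_right _ ?_)
      rw [mem_biUnion]
      exact ⟨t.1, h1.1, mem_image.2 ⟨t.2, mem_filter.2 ⟨h1.2, h2⟩, rfl⟩⟩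
  have hA : (((Icc 1 m).filter (fun v => p ∣ v)) ×ˢ (Icc 1 m)).card ≤ m * (m / p + 1) := by
    rw [card_product, hI, mul_comm]
    exact Nat.mul_le_mul_left _ h0
  have hB : ((Icc 1 m) ×ˢ ((Icc 1 m).filter (fun v => p ∣ v))).card ≤ m * (m / p + 1) := by
    rw [card_product, hI]
    exact Nat.mul_le_mul_left _ h0
  have hC : ((Icc 1 m).biUnion (fun u => ((Icc 1 m).filter (fun v => p ∣ u + v)).image
            (fun v => (u, v)))).card ≤ m * (m / p + 1) := by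
    have h3 := card_biUnion_le_card_mul (Icc 1 m) (fun u => ((Icc 1 m).filter
      (fun v => p ∣ u + v)).image (fun v => (u, v))) (m / p + 1)
      (fun u _ => card_image_le.trans (cnt1 m p u hp.pos))
    rwa [hI] at h3
  have h4 := card_le_card hsub
  have h5 := card_union_le (((Icc 1 m).filter (fun v => p ∣ v)) ×ˢ (Icc 1 m))
        (((Icc 1 m) ×ˢ ((Icc 1 m).filter (fun v => p ∣ v))) ∪
          (Icc 1 m).biUnion (fun u => ((Icc 1 m).filter (fun v => p ∣ u + v)).image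
            (fun v => (u, v))))
  have h6 := card_union_le ((Icc 1 m) ×ˢ ((Icc 1 m).filter (fun v => p ∣ v)))
          ((Icc 1 m).biUnion (fun u => ((Icc 1 m).filter (fun v => p ∣ u + v)).image
            (fun v => (u, v))))
  omega

lemma cnt3 (R p : ℕ) (hp : p.Prime) (hpm : p ≤ Nat.sqrt R) :
    (((Rg R).filter (fun t => p ∣ t.1 * t.2 * (t.1 + t.2))).card : ℝ) ≤ 6 * R * (1 / (p : ℝ)) := by
  have h1 : (((Rg R).filter (fun t => p ∣ t.1 * t.2 * (t.1 + t.2))).card : ℝ) ≤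
      3 * ((Nat.sqrt R : ℝ) * (((Nat.sqrt R / p : ℕ) : ℝ) + 1)) := by
    exact_mod_cast cnt2 R p hp
  have hp0 : (0 : ℝ) < p := by exact_mod_cast hp.pos
  have h2 : ((Nat.sqrt R / p : ℕ) : ℝ) ≤ (Nat.sqrt R : ℝ) / p := Nat.cast_div_le
  have h3 : (1 : ℝ) ≤ (Nat.sqrt R : ℝ) / p := by
    rw [le_div_iff₀ hp0, one_mul]
    exact_mod_cast hpm
  have h4 : (Nat.sqrt R : ℝ) * Nat.sqrt R ≤ R := by exact_mod_cast Nat.sqrt_le R
  have h5 : (0 : ℝ) ≤ Nat.sqrt R := Nat.cast_nonneg _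
  calc _ ≤ 3 * ((Nat.sqrt R : ℝ) * (((Nat.sqrt R / p : ℕ) : ℝ) + 1)) := h1
    _ ≤ 3 * ((Nat.sqrt R : ℝ) * ((Nat.sqrt R : ℝ) / p + (Nat.sqrt R : ℝ) / p)) := by
        apply mul_le_mul_of_nonneg_left _ (by norm_num)
        apply mul_le_mul_of_nonneg_left _ h5
        linarith
    _ = 6 * ((Nat.sqrt R : ℝ) * Nat.sqrt R) * (1 / (p : ℝ)) := by ring
    _ ≤ 6 * R * (1 / (p : ℝ)) := by
        apply mul_le_mul_of_nonneg_right _ (by positivity)
        linarith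

lemma dt_abs (θ : Fin 3 → ℝ) (x : Fin 3 → ℝ) (hx : ∀ i, |x i| ≤ 1) : |dt θ x| ≤ ∑ i, |θ i| := by
  unfold dt
  refine (abs_sum_le_sum_abs _ _).trans (sum_le_sum fun i _ => ?_)
  rw [abs_mul]
  calc |θ i| * |x i| ≤ |θ i| * 1 := mul_le_mul_of_nonneg_left (hx i) (abs_nonneg _)
    _ = |θ i| := mul_one _

lemma dt_zero (θ : Fin 3 → ℝ) : dt θ 0 = 0 := by
  unfold dt
  simp

/-- the difference of the two additive functions at a point -/
lemma pt (h1 : ∀ (p : ℕ) (t : ℕ × ℕ) (i : Fin 3), |yv p t i| ≤ 1)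
    (h2 : ∀ {p : ℕ}, p.Prime → p ≠ 2 → ∀ {t : ℕ × ℕ}, ¬ p ∣ t.1 * t.2 * (t.1 + t.2) → yv p t = 0)
    (θ : Fin 3 → ℝ) {w z y : ℕ} (hw : 4 ≤ w) (hz : w < z) (hy : z ≤ y) (t : ℕ × ℕ) :
    |Vv 4 y θ t - Vv w z θ t| ≤ (∑ i, |θ i|) * w +
      (∑ i, |θ i|) * ∑ p ∈ Pw z y, (if p ∣ t.1 * t.2 * (t.1 + t.2) then (1 : ℝ) else 0) := by
  have hd : Vv 4 y θ t = (∑ p ∈ Pw 4 w, dt θ (yv p t)) + Vv w z θ t +
      ∑ p ∈ Pw z y, dt θ (yv p t) := by
    unfold Vv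
    have e1 : Pw 4 y = (Pw 4 w ∪ Pw w z) ∪ Pw z y := by
      ext p
      simp only [mem_union, mem_Pw]
      constructor
      · rintro ⟨⟨a, b⟩, c⟩
        rcases le_or_gt p w with h | h
        · exact Or.inl (Or.inl ⟨⟨a, h⟩, c⟩)
        · rcases le_or_gt p z with h' | h'
          · exact Or.inl (Or.inr ⟨⟨h, h'⟩, c⟩)
          · exact Or.inr ⟨⟨h', b⟩, c⟩
      · rintro ((⟨⟨a, b⟩, c⟩ | ⟨⟨a, b⟩, c⟩) | ⟨⟨a, b⟩, c⟩)
        · exact ⟨⟨a, by omega⟩, c⟩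
        · exact ⟨⟨by omega, by omega⟩, c⟩
        · exact ⟨⟨by omega, b⟩, c⟩
    have e2 : Disjoint (Pw 4 w) (Pw w z) := by
      rw [Finset.disjoint_left]
      intro p hp hp'
      rw [mem_Pw] at hp hp'
      omega
    have e3 : Disjoint (Pw 4 w ∪ Pw w z) (Pw z y) := by
      rw [Finset.disjoint_left]
      intro p hp hp'
      rw [mem_union, mem_Pw, mem_Pw] at hp
      rw [mem_Pw] at hp'
      omega
    rw [e1, sum_union e3, sum_union e2]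
  have hsub : Vv 4 y θ t - Vv w z θ t = (∑ p ∈ Pw 4 w, dt θ (yv p t)) +
      ∑ p ∈ Pw z y, dt θ (yv p t) := by
    rw [hd]; ring
  rw [hsub]
  have hA : 0 ≤ ∑ i, |θ i| := sum_nonneg fun i _ => abs_nonneg _
  refine (abs_add_le _ _).trans (add_le_add ?_ ?_)
  · have hc : (Pw 4 w).card ≤ w := by
      refine (card_le_card (filter_subset _ _)).trans ?_
      rw [Nat.card_Ioc]
      omega
    have hc' : ((Pw 4 w).card : ℝ) ≤ w := by exact_mod_cast hc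
    calc |∑ p ∈ Pw 4 w, dt θ (yv p t)| ≤ ∑ p ∈ Pw 4 w, |dt θ (yv p t)| :=
          abs_sum_le_sum_abs _ _
      _ ≤ ∑ p ∈ Pw 4 w, (∑ i, |θ i|) := sum_le_sum fun p _ => dt_abs θ _ (h1 p t)
      _ = (∑ i, |θ i|) * (Pw 4 w).card := by rw [sum_const, nsmul_eq_mul, mul_comm]
      _ ≤ (∑ i, |θ i|) * w := mul_le_mul_of_nonneg_left hc' hA
  · rw [mul_sum]
    refine (abs_sum_le_sum_abs _ _).trans (sum_le_sum fun p hp => ?_)
    rw [mem_Pw] at hp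
    split_ifs with h
    · rw [mul_one]
      exact dt_abs θ _ (h1 p t)
    · rw [h2 hp.2 (by omega) h, dt_zero, abs_zero, mul_zero]

/-- the sum over the region -/
lemma sumR (h1 : ∀ (p : ℕ) (t : ℕ × ℕ) (i : Fin 3), |yv p t i| ≤ 1)
    (h2 : ∀ {p : ℕ}, p.Prime → p ≠ 2 → ∀ {t : ℕ × ℕ}, ¬ p ∣ t.1 * t.2 * (t.1 + t.2) → yv p t = 0)
    (θ : Fin 3 → ℝ) {w z y R : ℕ} (hw : 4 ≤ w) (hz : w < z) (hy : z ≤ y) (hyR : y ≤ Nat.sqrt R) :
    ∑ t ∈ Rg R, |Vv 4 y θ t - Vv w z θ t| ≤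
      (∑ i, |θ i|) * (w + 6 * ∑ p ∈ Pw z y, (1 : ℝ) / p) * R := by
  have hA : 0 ≤ ∑ i, |θ i| := sum_nonneg fun i _ => abs_nonneg _
  have hR : ((Rg R).card : ℝ) ≤ R := by exact_mod_cast Rg_card R
  calc ∑ t ∈ Rg R, |Vv 4 y θ t - Vv w z θ t| ≤ ∑ t ∈ Rg R, ((∑ i, |θ i|) * w +
      (∑ i, |θ i|) * ∑ p ∈ Pw z y, (if p ∣ t.1 * t.2 * (t.1 + t.2) then (1 : ℝ) else 0)) :=
        sum_le_sum fun t _ => pt h1 h2 θ hw hz hy t
    _ = (∑ i, |θ i|) * (w * (Rg R).card) + (∑ i, |θ i|) * ∑ p ∈ Pw z y,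
        (((Rg R).filter (fun t => p ∣ t.1 * t.2 * (t.1 + t.2))).card : ℝ) := by
        rw [sum_add_distrib, sum_const, nsmul_eq_mul, ← mul_sum, sum_comm]
        congr 1
        · ring
        · congr 1
          refine sum_congr rfl fun p _ => ?_
          rw [sum_boole]
    _ ≤ (∑ i, |θ i|) * (w * R) + (∑ i, |θ i|) * ∑ p ∈ Pw z y, (6 * R * (1 / (p : ℝ))) := by
        refine add_le_add (mul_le_mul_of_nonneg_left
          (mul_le_mul_of_nonneg_left hR (Nat.cast_nonneg _)) hA)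
          (mul_le_mul_of_nonneg_left (sum_le_sum fun p hp => ?_) hA)
        rw [mem_Pw] at hp
        exact cnt3 R p hp.2 (hp.1.2.trans hyR)
    _ = (∑ i, |θ i|) * (w + 6 * ∑ p ∈ Pw z y, (1 : ℝ) / p) * R := by
        rw [← mul_sum]; ring

/-- the sum of the reciprocals of the primes in `(z, y]` -/
lemma sum_zy {C : ℝ} (hC : ∀ N : ℕ, 2 ≤ N →
    |(∑ p ∈ (Icc 1 N).filter Nat.Prime, (1 : ℝ) / p) - Real.log (Real.log N)| ≤ C) {z y : ℕ}
    (hz : 2 ≤ z) (hy : z ≤ y) : ∑ p ∈ Pw z y, (1 : ℝ) / p ≤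
      Real.log (Real.log y) - Real.log (Real.log z) + 2 * C := by
  have a1 := abs_le.1 (hC z hz)
  have a2 := abs_le.1 (hC y (hz.trans hy))
  have e1 : (Icc 1 y).filter Nat.Prime = ((Icc 1 z).filter Nat.Prime) ∪ Pw z y := by
    ext p
    simp only [mem_union, mem_Pw, mem_filter, mem_Icc]
    constructor
    · rintro ⟨⟨a, b⟩, c⟩
      rcases le_or_gt p z with h | h
      · exact Or.inl ⟨⟨a, h⟩, c⟩
      · exact Or.inr ⟨⟨h, b⟩, c⟩
    · rintro (⟨⟨a, b⟩, c⟩ | ⟨⟨a, b⟩, c⟩)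
      · exact ⟨⟨a, by omega⟩, c⟩
      · exact ⟨⟨c.one_lt.le, b⟩, c⟩
  have e2 : Disjoint ((Icc 1 z).filter Nat.Prime) (Pw z y) := by
    rw [Finset.disjoint_left]
    intro p hp hp'
    rw [mem_filter, mem_Icc] at hp
    rw [mem_Pw] at hp'
    omega
  rw [e1, sum_union e2] at a2
  linarith [a1.1, a2.2]

lemma zz_le_yy (H : ℕ) (hR : 1 ≤ Rh H) : zz H ≤ yy H := by
  have hR1 : (1 : ℝ) ≤ ((Rh H : ℕ) : ℝ) := by exact_mod_cast hR
  have hk : (0 : ℝ) ≤ (kk H : ℝ) := Nat.cast_nonneg _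
  have h1 : ((zz H : ℕ) : ℝ) ≤ ((Rh H : ℕ) : ℝ) ^ (1 / 8 : ℝ) := by
    have h2 : ((zz H : ℕ) : ℝ) ≤ ((Rh H : ℕ) : ℝ) ^ (1 / (8 * ((kk H : ℝ) + 1))) :=
      Nat.floor_le (by positivity)
    refine h2.trans (Real.rpow_le_rpow_of_exponent_le hR1 ?_)
    apply one_div_le_one_div_of_le (by norm_num)
    linarith
  have h3 : ((zz H : ℕ) : ℝ) ^ 8 ≤ Rh H := by
    calc ((zz H : ℕ) : ℝ) ^ 8 ≤ (((Rh H : ℕ) : ℝ) ^ (1 / 8 : ℝ)) ^ 8 :=
          pow_le_pow_left₀ (Nat.cast_nonneg _) h1 8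
      _ = Rh H := by
          rw [← Real.rpow_natCast, ← Real.rpow_mul (by linarith)]
          norm_num
  have h4 : (zz H) ^ 8 ≤ Rh H := by exact_mod_cast h3
  have h5 : (zz H) ^ 4 ≤ Nat.sqrt (Rh H) := by
    rw [Nat.le_sqrt]
    calc zz H ^ 4 * zz H ^ 4 = zz H ^ 8 := by ring
      _ ≤ Rh H := h4
  rw [yy, Nat.le_sqrt, Nat.le_sqrt, TT]
  calc zz H * zz H * (zz H * zz H) = zz H ^ 4 := by ring
    _ ≤ Nat.sqrt (Rh H) := h5
    _ ≤ 2 * (Nat.sqrt (Rh H) + 1) := by omega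

lemma yy_le_sqrt (H : ℕ) (hR : 1 ≤ Rh H) : yy H ≤ Nat.sqrt (Rh H) := by
  have hm : 1 ≤ Nat.sqrt (Rh H) := Nat.le_sqrt.2 (by simpa using hR)
  set m := Nat.sqrt (Rh H) with hmdef
  by_contra hcon
  push Not at hcon
  have h1 : yy H * yy H ≤ Nat.sqrt (TT H) := by
    rw [yy]; exact Nat.sqrt_le _
  have h2 : (yy H * yy H) * (yy H * yy H) ≤ TT H := (Nat.mul_le_mul h1 h1).trans (Nat.sqrt_le _)
  rw [TT, ← hmdef] at h2
  have h3 : m + 1 ≤ yy H := hcon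
  have h4 : 2 ≤ yy H := by omega
  have h5 : 4 ≤ yy H * yy H := Nat.mul_le_mul h4 h4
  have h6 : 4 * (yy H * yy H) ≤ (yy H * yy H) * (yy H * yy H) := Nat.mul_le_mul_right _ h5
  nlinarith

lemma Rh_le (H : ℕ) : 4 * (Rh H) ^ 3 ≤ 27 * H := by
  have h := Nat.findGreatest_spec (P := fun n => 4 * n ^ 3 ≤ 27 * H) (m := 0) (n := 27 * H)
    (Nat.zero_le _) (by simp)
  exact h

lemma yy_le (H : ℕ) (hR : 4 ≤ Rh H) : yy H ≤ H := by
  have h1 := yy_le_sqrt H (by omega)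
  have h2 : 2 ≤ Nat.sqrt (Rh H) := Nat.le_sqrt.2 (by omega)
  have h3 := Rh_le H
  have h4 := Nat.sqrt_le (Rh H)
  set m := Nat.sqrt (Rh H) with hmdef
  have h5 : m ≤ Rh H := le_trans (by nlinarith) h4
  have h6 : 16 ≤ Rh H ^ 2 := by nlinarith
  have h7 : 16 * Rh H ≤ Rh H ^ 3 := by
    calc 16 * Rh H ≤ Rh H ^ 2 * Rh H := Nat.mul_le_mul_right _ h6
      _ = Rh H ^ 3 := by ring
  omega

end GL10

theorem diff (h1 : ∀ (p : ℕ) (t : ℕ × ℕ) (i : Fin 3), |yv p t i| ≤ 1)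
    (h2 : ∀ {p : ℕ}, p.Prime → p ≠ 2 → ∀ {t : ℕ × ℕ}, ¬ p ∣ t.1 * t.2 * (t.1 + t.2) → yv p t = 0)
    (hR : Tendsto Rh atTop atTop) (hl : Tendsto ll atTop atTop) (hzt : Tendsto zz atTop atTop)
    (hz : Tendsto (fun H => (Real.log (Real.log (zz H)) - ll H) / Real.sqrt (ll H)) atTop (nhds 0))
    (θ : Fin 3 → ℝ) {w : ℕ} (hw : 4 ≤ w) :
    Tendsto (fun H => (∑ t ∈ Rg (Rh H), |Vv 4 (yy H) θ t - Vv w (zz H) θ t|) /
      (Real.sqrt (ll H) * Rh H)) atTop (nhds 0) := by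
  obtain ⟨C, hC0, hC⟩ := mert
  have hA : 0 ≤ ∑ i, |θ i| := sum_nonneg fun i _ => abs_nonneg _
  have hsq : Tendsto (fun H => (Real.sqrt (ll H))⁻¹) atTop (nhds 0) :=
    tendsto_inv_atTop_zero.comp (Real.tendsto_sqrt_atTop.comp hl)
  have hg : Tendsto (fun H => ((∑ i, |θ i|) * (w + 12 * C)) * (Real.sqrt (ll H))⁻¹ -
      (6 * (∑ i, |θ i|)) * ((Real.log (Real.log (zz H)) - ll H) / Real.sqrt (ll H))) atTop
      (nhds 0) := by
    have h3 := (hsq.const_mul ((∑ i, |θ i|) * (w + 12 * C))).sub (hz.const_mul (6 * (∑ i, |θ i|)))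
    simpa only [mul_zero, sub_zero] using h3
  refine squeeze_zero' ?_ ?_ hg
  · refine Eventually.of_forall fun H => ?_
    exact div_nonneg (sum_nonneg fun t _ => abs_nonneg _)
      (mul_nonneg (Real.sqrt_nonneg _) (Nat.cast_nonneg _))
  · filter_upwards [hzt.eventually_gt_atTop w, hR.eventually_ge_atTop 4,
      hl.eventually_ge_atTop 1] with H hzH hRH hlH
    have hzy := GL10.zz_le_yy H (by omega)
    have hyR := GL10.yy_le_sqrt H (by omega)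
    have hyH := GL10.yy_le H hRH
    have h3 := GL10.sumR h1 h2 θ hw hzH hzy hyR
    have h4 := GL10.sum_zy hC (show 2 ≤ zz H by omega) hzy
    have h5 : Real.log (Real.log (yy H)) ≤ ll H := by
      rw [ll]
      have hy4 : (4 : ℝ) ≤ yy H := by exact_mod_cast (show 4 ≤ yy H by omega)
      apply Real.log_le_log (Real.log_pos (by linarith))
      apply Real.log_le_log (by linarith)
      exact_mod_cast hyH
    have hs : 0 < Real.sqrt (ll H) := Real.sqrt_pos.2 (by linarith)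
    have hRr : (0 : ℝ) < Rh H := by exact_mod_cast (show 0 < Rh H by omega)
    rw [div_le_iff₀ (mul_pos hs hRr)]
    refine h3.trans ?_
    have h6 : (((∑ i, |θ i|) * (w + 12 * C)) * (Real.sqrt (ll H))⁻¹ -
        (6 * (∑ i, |θ i|)) * ((Real.log (Real.log (zz H)) - ll H) / Real.sqrt (ll H))) *
        (Real.sqrt (ll H) * Rh H) = (∑ i, |θ i|) * (w + 12 * C -
          6 * (Real.log (Real.log (zz H)) - ll H)) * Rh H := by
      field_simp
    rw [h6]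
    apply mul_le_mul_of_nonneg_right _ hRr.le
    apply mul_le_mul_of_nonneg_left _ hA
    linarith

end Pool.Agent.H514.GL
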