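import Pool.Agent.H514.GL.Defs2

/-!
GL-6. The limit of the local factors.

PROOF. Write `x = 1 / √L`, `f(y) = exp(i x θ·y) - 1 = i x θ·y - x² (θ·y)² / 2 + O(|x|³ |θ·y|³)` (for all real
`x θ·y`; e.g. `Complex.norm_exp_sub_sum_le_norm_mul_exp` for small arguments, or
`norm_exp_mul_I_sub_...`). With `s = ∑ θ_i`: `θ·(1 - e_i) = s - θ_i`, `θ·(1 - 2 e_i) = s - 2 θ_i`, so
`∑_i (f(1 - e_i) + f(1 - 2 e_i)) = 3 i s x - (5 / 2) |θ|² x² + O(x³)`, as
`∑_i ((s - θ_i) + (s - 2 θ_i)) = 6 s - 3 s = 3 s` and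
`∑_i ((s - θ_i)² + (s - 2 θ_i)²) = 6 s² - 6 s² + 5 |θ|² = 5 |θ|²`. Hence
`ml θ x p = (1 / (2 p)) (3 i s x - (5 / 2) |θ|² x² + O(x³)) + O(x / p²)`. As `x → 0`, `∑_{p ∈ Pw w z} 1 / p = log log z + O(1)`
(`mert`, `sum_Pw` in `IS/TK2.lean`, `IS/Tu*.lean`), `∑ 1 / p² = O(1)`:
`∑_p ml = (3 / 2) i s x (log log z) - (5 / 4) |θ|² x² log log z + O(x + x³ log log z)`, and
`∑_p |ml|² = O(x²)`, so `∏ (1 + ml) = exp(∑ ml + O(x²))` (`|ml| ≤ 1/2` for large `H`; use
`log (1 + w) = w + O(|w|²)`, or compare the products directly: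
`|∏ (1 + a_p) - ∏ exp(a_p)| ≤ ...`). With `x² L = 1`, `(log log z - L) / √L → 0`:
`(3 / 2) i s x log log z - (3 / 2) i s √L → 0` and `x² log log z → 1`. So the limit is `exp(- (5 / 4) |θ|²)`.
-/

set_option autoImplicit false

open scoped Classical

namespace Pool.Agent.H514.GL

open Finset Filter Pool.Agent.H514.IS

namespace GL6aux

/-- the first order bound -/
lemma fx1 (θ : Fin 3 → ℝ) {x : ℝ} (hx : 0 ≤ x) (y : Fin 3 → ℝ) :
    ‖fx θ x y‖ ≤ x * |dt θ y| := by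
  rw [fx]
  refine (Real.norm_exp_I_mul_ofReal_sub_one_le).trans ?_
  rw [Real.norm_eq_abs, abs_mul, abs_of_nonneg hx]

/-- the third order bound -/
lemma fx3 (θ : Fin 3 → ℝ) {x : ℝ} (hx : 0 ≤ x) (hx1 : x ≤ 1) (y : Fin 3 → ℝ) :
    ‖fx θ x y - (Complex.I * ((x * dt θ y : ℝ) : ℂ) - (((x * dt θ y) ^ 2 / 2 : ℝ) : ℂ))‖ ≤
      x ^ 3 * (|dt θ y| ^ 3 * Real.exp |dt θ y|) := by
  have h := Complex.norm_exp_sub_sum_le_norm_mul_exp (Complex.I * ((x * dt θ y : ℝ) : ℂ)) 3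
  have h1 : ‖Complex.I * ((x * dt θ y : ℝ) : ℂ)‖ = x * |dt θ y| := by
    rw [norm_mul, Complex.norm_I, one_mul, Complex.norm_real, Real.norm_eq_abs, abs_mul,
      abs_of_nonneg hx]
  rw [h1] at h
  have h2 : Complex.exp (Complex.I * ((x * dt θ y : ℝ) : ℂ)) -
      ∑ m ∈ range 3, (Complex.I * ((x * dt θ y : ℝ) : ℂ)) ^ m / (m.factorial : ℂ) =
      fx θ x y - (Complex.I * ((x * dt θ y : ℝ) : ℂ) - (((x * dt θ y) ^ 2 / 2 : ℝ) : ℂ)) := by
    have hI : (Complex.I * ((x * dt θ y : ℝ) : ℂ)) ^ 2 = -((x * dt θ y : ℝ) : ℂ) ^ 2 := by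
      rw [mul_pow, Complex.I_sq]
      ring
    rw [fx, Finset.sum_range_succ, Finset.sum_range_succ, Finset.sum_range_one, hI]
    simp only [Nat.factorial, pow_zero, pow_one]
    push_cast
    ring
  rw [h2] at h
  refine h.trans ?_
  rw [mul_pow, mul_assoc]
  refine mul_le_mul_of_nonneg_left ?_ (by positivity)
  refine mul_le_mul_of_nonneg_left ?_ (by positivity)
  apply Real.exp_le_exp.2
  calc x * |dt θ y| ≤ 1 * |dt θ y| := mul_le_mul_of_nonneg_right hx1 (abs_nonneg _)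
    _ = |dt θ y| := one_mul _

/-- the main coefficient -/
noncomputable def Q (θ : Fin 3 → ℝ) (x : ℝ) : ℂ :=
  ∑ i : Fin 3, (fx θ x (fun j => if j = i then 0 else 1) +
        fx θ x (fun j => if j = i then -1 else 1))

/-- the secondary coefficient -/
noncomputable def R (θ : Fin 3 → ℝ) (x : ℝ) : ℂ := fx θ x (fun _ => 1)

lemma ml_eq (θ : Fin 3 → ℝ) (x : ℝ) {p : ℕ} (hp : 0 < p) :
    ml θ x p = Q θ x / 2 * ((1 / (p : ℝ) : ℝ) : ℂ) +
      (R θ x - Q θ x / 2) * ((1 / (p : ℝ) ^ 2 : ℝ) : ℂ) := by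
  have h : (p : ℂ) ≠ 0 := by exact_mod_cast hp.ne'
  rw [ml, ← Q, ← R]
  push_cast
  field_simp
  ring

lemma Q1 (θ : Fin 3 → ℝ) : ∃ K : ℝ, 0 ≤ K ∧ ∀ x : ℝ, 0 ≤ x → ‖Q θ x‖ ≤ K * x := by
  refine ⟨∑ i : Fin 3, (|dt θ (fun j => if j = i then 0 else 1)| +
    |dt θ (fun j => if j = i then -1 else 1)|), by positivity, fun x hx => ?_⟩
  rw [Q, Finset.sum_mul]
  refine (norm_sum_le _ _).trans (Finset.sum_le_sum fun i _ => ?_)
  refine (norm_add_le _ _).trans ?_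
  have h1 := fx1 θ hx (fun j => if j = i then 0 else 1)
  have h2 := fx1 θ hx (fun j => if j = i then -1 else 1)
  linarith

lemma R1 (θ : Fin 3 → ℝ) : ∃ K : ℝ, 0 ≤ K ∧ ∀ x : ℝ, 0 ≤ x → ‖R θ x‖ ≤ K * x := by
  refine ⟨|dt θ (fun _ => 1)|, abs_nonneg _, fun x hx => ?_⟩
  have h1 := fx1 θ hx (fun _ => 1)
  rw [R]
  linarith

lemma Q3 (θ : Fin 3 → ℝ) : ∃ K : ℝ, 0 ≤ K ∧ ∀ x : ℝ, 0 ≤ x → x ≤ 1 →
    ‖Q θ x - (3 * Complex.I * ((∑ i, θ i : ℝ) : ℂ) * (x : ℂ) -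
      5 / 2 * ((∑ i, θ i ^ 2 : ℝ) : ℂ) * (x : ℂ) ^ 2)‖ ≤ K * x ^ 3 := by
  refine ⟨∑ i : Fin 3, (|dt θ (fun j => if j = i then 0 else 1)| ^ 3 *
      Real.exp |dt θ (fun j => if j = i then 0 else 1)| +
    |dt θ (fun j => if j = i then -1 else 1)| ^ 3 *
      Real.exp |dt θ (fun j => if j = i then -1 else 1)|), by positivity, fun x hx hx1 => ?_⟩
  have h0 : (3 * Complex.I * ((∑ i, θ i : ℝ) : ℂ) * (x : ℂ) -
      5 / 2 * ((∑ i, θ i ^ 2 : ℝ) : ℂ) * (x : ℂ) ^ 2) =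
      ∑ i : Fin 3, ((Complex.I * ((x * dt θ (fun j => if j = i then 0 else 1) : ℝ) : ℂ) -
        (((x * dt θ (fun j => if j = i then 0 else 1)) ^ 2 / 2 : ℝ) : ℂ)) +
        (Complex.I * ((x * dt θ (fun j => if j = i then -1 else 1) : ℝ) : ℂ) -
        (((x * dt θ (fun j => if j = i then -1 else 1)) ^ 2 / 2 : ℝ) : ℂ))) := by
    simp only [dt, Fin.sum_univ_three, Fin.isValue, Fin.reduceEq, if_true, if_false]
    push_cast
    ring
  rw [h0, Q, ← Finset.sum_sub_distrib, Finset.sum_mul]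
  refine (norm_sum_le _ _).trans (Finset.sum_le_sum fun i _ => ?_)
  have h1 := fx3 θ hx hx1 (fun j => if j = i then 0 else 1)
  have h2 := fx3 θ hx hx1 (fun j => if j = i then -1 else 1)
  rw [add_sub_add_comm]
  refine (norm_add_le _ _).trans ?_
  linarith

/-- the sum of the inverse squares -/
lemma inv_sq : ∃ Z : ℝ, 0 ≤ Z ∧ ∀ w y : ℕ, ∑ p ∈ Pw w y, (1 : ℝ) / (p : ℝ) ^ 2 ≤ Z := by
  have hs : Summable fun n : ℕ => (1 : ℝ) / (n : ℝ) ^ 2 :=
    Real.summable_one_div_nat_pow.2 one_lt_two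
  refine ⟨∑' n : ℕ, (1 : ℝ) / (n : ℝ) ^ 2, tsum_nonneg fun n => by positivity, fun w y => ?_⟩
  exact hs.sum_le_tsum _ fun n _ => by positivity

end GL6aux

open GL6aux in
theorem prod_lim (θ : Fin 3 → ℝ) (w : ℕ) (z : ℕ → ℕ) (L : ℕ → ℝ) (hL : Tendsto L atTop atTop)
    (hz2 : ∀ᶠ H in atTop, 2 ≤ z H)
    (hz : Tendsto (fun H => (Real.log (Real.log (z H)) - L H) / Real.sqrt (L H)) atTop (nhds 0)) :
    Tendsto (fun H => (∏ p ∈ Pw w (z H), (1 + ml θ (1 / Real.sqrt (L H)) p)) *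
      Complex.exp (Complex.I * ((-(3 / 2 * (∑ i, θ i) * Real.sqrt (L H)) : ℝ) : ℂ))) atTop
      (nhds (Complex.exp ((-(5 / 4 * ∑ i, θ i ^ 2) : ℝ) : ℂ))) := by
  obtain ⟨C, hC0, hC⟩ := mert
  obtain ⟨KQ, hKQ0, hKQ⟩ := Q1 θ
  obtain ⟨KR, hKR0, hKR⟩ := R1 θ
  obtain ⟨K3, hK30, hK3⟩ := Q3 θ
  obtain ⟨Z, hZ0, hZ⟩ := inv_sq
  -- the scale
  have hsq : Tendsto (fun H => Real.sqrt (L H)) atTop atTop :=
    Real.tendsto_sqrt_atTop.comp hL
  have hx : Tendsto (fun H => 1 / Real.sqrt (L H)) atTop (nhds 0) := by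
    simp only [one_div]
    exact tendsto_inv_atTop_zero.comp hsq
  have hx0 : ∀ H, 0 ≤ 1 / Real.sqrt (L H) := fun H => by positivity
  set x : ℕ → ℝ := fun H => 1 / Real.sqrt (L H) with hxdef
  set S : ℕ → ℝ := fun H => ∑ p ∈ Pw w (z H), (1 : ℝ) / p with hSdef
  set S2 : ℕ → ℝ := fun H => ∑ p ∈ Pw w (z H), (1 : ℝ) / (p : ℝ) ^ 2 with hS2def
  have hS2b : ∀ H, 0 ≤ S2 H ∧ S2 H ≤ Z := fun H => ⟨by positivity, hZ w (z H)⟩
  -- the sum over the primes
  have hS1 : Tendsto (fun H => x H * S H - Real.sqrt (L H)) atTop (nhds 0) := by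
    have h1 : ∀ᶠ H in atTop, x H * S H - Real.sqrt (L H) =
        x H * (S H - Real.log (Real.log (z H))) +
          (Real.log (Real.log (z H)) - L H) / Real.sqrt (L H) := by
      refine Eventually.of_forall fun H => ?_
      have h2 : L H / Real.sqrt (L H) = Real.sqrt (L H) := Real.div_sqrt
      rw [sub_div, h2]
      simp only [hxdef]
      ring
    have h3 : Tendsto (fun H => x H * (S H - Real.log (Real.log (z H)))) atTop (nhds 0) := by
      have h4 : Tendsto (fun H => x H * (C + w)) atTop (nhds 0) := by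
        have := hx.mul_const (C + w)
        rwa [zero_mul] at this
      refine squeeze_zero_norm' ?_ h4
      filter_upwards [hz2] with H hH
      obtain ⟨h5, h6⟩ := sum_Pw hC (w := w) hH
      rw [Real.norm_eq_abs, abs_mul, abs_of_nonneg (hx0 H)]
      refine mul_le_mul_of_nonneg_left ?_ (hx0 H)
      rw [abs_le]
      have hw : (0 : ℝ) ≤ w := Nat.cast_nonneg w
      constructor
      · simp only [hSdef]; linarith
      · simp only [hSdef]; linarith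
    refine (Tendsto.congr' (h1.mono fun H hH => hH.symm) ?_)
    have h7 := h3.add hz
    rwa [add_zero] at h7
  have hS2' : Tendsto (fun H => x H ^ 2 * S H) atTop (nhds 1) := by
    have h1 : ∀ᶠ H in atTop, x H * (x H * S H - Real.sqrt (L H)) + 1 = x H ^ 2 * S H := by
      filter_upwards [hsq.eventually_gt_atTop 0] with H hH
      have h2 : x H * Real.sqrt (L H) = 1 := by
        simp only [hxdef]
        field_simp
      linear_combination -h2
    have h3 := (hx.mul hS1).add_const (1 : ℝ)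
    rw [mul_zero, zero_add] at h3
    exact h3.congr' h1
  have hx1 : ∀ᶠ H in atTop, x H ≤ 1 := hx.eventually_le_const one_pos
  -- the bound of one term
  set K : ℝ := KR + KQ with hKdef
  have hK0 : 0 ≤ K := by positivity
  have hml : ∀ H, ∀ p ∈ Pw w (z H), ‖ml θ (x H) p‖ ≤ K * x H * (1 / p) := by
    intro H p hp
    rw [mem_Pw] at hp
    have hp0 : 0 < p := hp.2.pos
    have hp1 : (1 : ℝ) ≤ p := by exact_mod_cast hp0
    rw [ml_eq θ (x H) hp0]
    refine (norm_add_le _ _).trans ?_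
    rw [norm_mul, norm_mul, Complex.norm_real, Complex.norm_real, Real.norm_eq_abs,
      Real.norm_eq_abs, abs_of_nonneg (by positivity), abs_of_nonneg (by positivity)]
    have h1 : ‖Q θ (x H) / 2‖ ≤ KQ * x H / 2 := by
      rw [norm_div]
      have := hKQ (x H) (hx0 H)
      have h2 : ‖(2 : ℂ)‖ = 2 := by simp
      rw [h2]
      linarith
    have h3 : ‖R θ (x H) - Q θ (x H) / 2‖ ≤ KR * x H + KQ * x H / 2 :=
      (norm_sub_le _ _).trans (add_le_add (hKR _ (hx0 H)) h1)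
    have h4 : 1 / (p : ℝ) ^ 2 ≤ 1 / p := by
      rw [pow_two]
      apply one_div_le_one_div_of_le (by positivity)
      nlinarith
    have h5 : 0 ≤ KR * x H + KQ * x H / 2 := by
      have := hx0 H
      positivity
    calc ‖Q θ (x H) / 2‖ * (1 / (p : ℝ)) + ‖R θ (x H) - Q θ (x H) / 2‖ * (1 / (p : ℝ) ^ 2)
        ≤ (KQ * x H / 2) * (1 / (p : ℝ)) + (KR * x H + KQ * x H / 2) * (1 / p) := by
          gcongr
      _ = K * x H * (1 / p) := by rw [hKdef]; ring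
  have hKx : Tendsto (fun H => K * x H) atTop (nhds 0) := by
    have := hx.const_mul K
    rwa [mul_zero] at this
  have hsmall : ∀ᶠ H in atTop, K * x H ≤ 1 / 2 := hKx.eventually_le_const (by norm_num)
  -- the exponent
  set E : ℕ → ℂ := fun H => (∑ p ∈ Pw w (z H), Complex.log (1 + ml θ (x H) p)) +
    Complex.I * ((-(3 / 2 * (∑ i, θ i) * Real.sqrt (L H)) : ℝ) : ℂ) with hEdef
  have hlog : Tendsto (fun H => (∑ p ∈ Pw w (z H), Complex.log (1 + ml θ (x H) p)) -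
      ∑ p ∈ Pw w (z H), ml θ (x H) p) atTop (nhds 0) := by
    have h4 : Tendsto (fun H => (K * x H) ^ 2 * Z) atTop (nhds 0) := by
      have := (hKx.pow 2).mul_const Z
      rwa [zero_pow two_ne_zero, zero_mul] at this
    refine squeeze_zero_norm' ?_ h4
    filter_upwards [hsmall] with H hH
    rw [← Finset.sum_sub_distrib]
    refine (norm_sum_le _ _).trans ?_
    have h5 : (K * x H) ^ 2 * S2 H ≤ (K * x H) ^ 2 * Z :=
      mul_le_mul_of_nonneg_left (hS2b H).2 (by positivity)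
    refine le_trans ?_ h5
    simp only [hS2def]
    rw [Finset.mul_sum]
    refine Finset.sum_le_sum fun p hp => ?_
    have h6 := hml H p hp
    rw [mem_Pw] at hp
    have hp1 : (1 : ℝ) ≤ p := by exact_mod_cast hp.2.pos
    have h7 : 1 / (p : ℝ) ≤ 1 := by
      rw [div_le_one (by linarith)]
      exact hp1
    have h8 : ‖ml θ (x H) p‖ ≤ 1 / 2 := by
      refine h6.trans ?_
      have h9 : 0 ≤ K * x H := mul_nonneg hK0 (hx0 H)
      calc K * x H * (1 / p) ≤ K * x H * 1 := mul_le_mul_of_nonneg_left h7 h9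
        _ ≤ 1 / 2 := by linarith
    have h10 := Complex.norm_log_one_add_sub_self_le (z := ml θ (x H) p) (by linarith)
    have h11 : (1 - ‖ml θ (x H) p‖)⁻¹ ≤ 2 := by
      rw [inv_le_comm₀ (by linarith) (by norm_num)]
      linarith
    calc ‖Complex.log (1 + ml θ (x H) p) - ml θ (x H) p‖
        ≤ ‖ml θ (x H) p‖ ^ 2 * (1 - ‖ml θ (x H) p‖)⁻¹ / 2 := h10
      _ ≤ ‖ml θ (x H) p‖ ^ 2 * 2 / 2 := by gcongr
      _ = ‖ml θ (x H) p‖ ^ 2 := by ring
      _ ≤ (K * x H * (1 / p)) ^ 2 := by gcongr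
      _ = (K * x H) ^ 2 * (1 / (p : ℝ) ^ 2) := by ring
  have hsum : ∀ H, ∑ p ∈ Pw w (z H), ml θ (x H) p =
      Q θ (x H) / 2 * ((S H : ℝ) : ℂ) + (R θ (x H) - Q θ (x H) / 2) * ((S2 H : ℝ) : ℂ) := by
    intro H
    simp only [hSdef, hS2def]
    rw [Complex.ofReal_sum, Complex.ofReal_sum, Finset.mul_sum, Finset.mul_sum,
      ← Finset.sum_add_distrib]
    refine Finset.sum_congr rfl fun p hp => ?_
    rw [mem_Pw] at hp
    exact ml_eq θ (x H) hp.2.pos
  -- the error terms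
  have hT1 : Tendsto (fun H => (R θ (x H) - Q θ (x H) / 2) * ((S2 H : ℝ) : ℂ)) atTop
      (nhds 0) := by
    have h4 : Tendsto (fun H => K * x H * Z) atTop (nhds 0) := by
      have := hKx.mul_const Z
      rwa [zero_mul] at this
    refine squeeze_zero_norm' (Eventually.of_forall fun H => ?_) h4
    rw [norm_mul, Complex.norm_real, Real.norm_eq_abs, abs_of_nonneg (hS2b H).1]
    have h1 : ‖R θ (x H) - Q θ (x H) / 2‖ ≤ K * x H := by
      refine (norm_sub_le _ _).trans ?_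
      rw [norm_div]
      have h2 : ‖(2 : ℂ)‖ = 2 := by simp
      rw [h2, hKdef]
      have h3 := hKQ (x H) (hx0 H)
      have h5 := hKR (x H) (hx0 H)
      have h6 : 0 ≤ KQ * x H := mul_nonneg hKQ0 (hx0 H)
      linarith
    exact mul_le_mul h1 (hS2b H).2 (hS2b H).1 (mul_nonneg hK0 (hx0 H))
  have hT2 : Tendsto (fun H => (Q θ (x H) - (3 * Complex.I * ((∑ i, θ i : ℝ) : ℂ) * (x H : ℂ) -
      5 / 2 * ((∑ i, θ i ^ 2 : ℝ) : ℂ) * (x H : ℂ) ^ 2)) / 2 * ((S H : ℝ) : ℂ)) atTop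
      (nhds 0) := by
    have h4 : Tendsto (fun H => K3 * x H * (x H ^ 2 * S H)) atTop (nhds 0) := by
      have := (hx.const_mul K3).mul hS2'
      rwa [mul_zero, zero_mul] at this
    refine squeeze_zero_norm' ?_ h4
    filter_upwards [hx1] with H hH
    have hS0 : 0 ≤ S H := by positivity
    rw [norm_mul, norm_div, Complex.norm_real, Real.norm_eq_abs, abs_of_nonneg hS0]
    have h2 : ‖(2 : ℂ)‖ = 2 := by simp
    rw [h2]
    have h3 := hK3 (x H) (hx0 H) hH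
    have h5 : 0 ≤ K3 * x H ^ 3 := mul_nonneg hK30 (pow_nonneg (hx0 H) 3)
    calc _ ≤ K3 * x H ^ 3 / 2 * S H := by gcongr
      _ ≤ K3 * x H ^ 3 * S H := mul_le_mul_of_nonneg_right (by linarith) hS0
      _ = K3 * x H * (x H ^ 2 * S H) := by ring
  have hT3 : Tendsto (fun H => 3 / 2 * Complex.I * ((∑ i, θ i : ℝ) : ℂ) *
      ((x H * S H - Real.sqrt (L H) : ℝ) : ℂ)) atTop (nhds 0) := by
    have h1 := (Complex.continuous_ofReal.tendsto 0).comp hS1
    have h2 := h1.const_mul (3 / 2 * Complex.I * ((∑ i, θ i : ℝ) : ℂ))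
    rw [Complex.ofReal_zero, mul_zero] at h2
    exact h2
  have hT4 : Tendsto (fun H => -(5 / 4 * ((∑ i, θ i ^ 2 : ℝ) : ℂ)) *
      ((x H ^ 2 * S H : ℝ) : ℂ)) atTop (nhds (((-(5 / 4 * ∑ i, θ i ^ 2) : ℝ) : ℂ))) := by
    have h1 := (Complex.continuous_ofReal.tendsto 1).comp hS2'
    have h2 := h1.const_mul (-(5 / 4 * ((∑ i, θ i ^ 2 : ℝ) : ℂ)))
    rw [Complex.ofReal_one, mul_one] at h2
    have h3 : ((-(5 / 4 * ∑ i, θ i ^ 2) : ℝ) : ℂ) = -(5 / 4 * ((∑ i, θ i ^ 2 : ℝ) : ℂ)) := by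
      push_cast
      ring
    rw [h3]
    exact h2
  have hE : Tendsto E atTop (nhds (((-(5 / 4 * ∑ i, θ i ^ 2) : ℝ) : ℂ))) := by
    have h1 := (((hlog.add hT1).add hT2).add hT3).add hT4
    rw [add_zero, add_zero, add_zero, zero_add] at h1
    refine h1.congr fun H => ?_
    rw [hsum H]
    simp only [hEdef]
    push_cast
    ring
  have hexp := (Complex.continuous_exp.tendsto _).comp hE
  refine hexp.congr' ?_
  filter_upwards [hsmall] with H hH
  simp only [Function.comp_apply, hEdef]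
  rw [Complex.exp_add, Complex.exp_sum]
  congr 1
  refine Finset.prod_congr rfl fun p hp => ?_
  apply Complex.exp_log
  have h6 := hml H p hp
  rw [mem_Pw] at hp
  have hp1 : (1 : ℝ) ≤ p := by exact_mod_cast hp.2.pos
  have h7 : 1 / (p : ℝ) ≤ 1 := by
    rw [div_le_one (by linarith)]
    exact hp1
  have h8 : ‖ml θ (x H) p‖ ≤ 1 / 2 := by
    refine h6.trans ?_
    have h9 : 0 ≤ K * x H := mul_nonneg hK0 (hx0 H)
    calc K * x H * (1 / p) ≤ K * x H * 1 := mul_le_mul_of_nonneg_left h7 h9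
      _ ≤ 1 / 2 := by linarith
  intro h0
  have h9 : ml θ (x H) p = -1 := by linear_combination h0
  rw [h9, norm_neg, norm_one] at h8
  norm_num at h8

end Pool.Agent.H514.GL
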