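import Pool.Agent.H514.GL.Defs

/-!
GL-1. Lattice points of the region `Rg R` in residue classes.

The points of two residue classes modulo `m` are compared by a translation: since the region is
closed downwards, the points `(u, v)` of the class `(a, b)` with `u, v > m` are mapped injectively to
points of the class `(a', b')` by `(u - r, v - s)`, `0 ≤ r, s < m`; there are at most
`√R / m + 1` points of the class with `u ≤ m`, and as many with `v ≤ m`. Average over all `(a', b')`.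
-/

set_option autoImplicit false

namespace Pool.Agent.H514.GL

open Finset Filter

theorem mem_Rg {R : ℕ} {t : ℕ × ℕ} : t ∈ Rg R ↔
    1 ≤ t.1 ∧ 1 ≤ t.2 ∧ t.1 ^ 2 + t.1 * t.2 + t.2 ^ 2 ≤ R := by
  unfold Rg
  rw [mem_filter, mem_product, mem_Icc, mem_Icc]
  constructor
  · rintro ⟨⟨⟨h1, -⟩, h2, -⟩, h3⟩
    exact ⟨h1, h2, h3⟩
  · rintro ⟨h1, h2, h3⟩
    refine ⟨⟨⟨h1, ?_⟩, h2, ?_⟩, h3⟩
    · nlinarith [Nat.zero_le (t.1 * t.2), Nat.zero_le (t.2 ^ 2)]
    · nlinarith [Nat.zero_le (t.1 * t.2), Nat.zero_le (t.1 ^ 2)]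

theorem Rg_sqrt {R : ℕ} {t : ℕ × ℕ} (h : t ∈ Rg R) : t.1 ≤ Nat.sqrt R ∧ t.2 ≤ Nat.sqrt R := by
  obtain ⟨h1, h2, h3⟩ := mem_Rg.1 h
  rw [Nat.le_sqrt', Nat.le_sqrt']
  constructor
  · have := Nat.zero_le (t.1 * t.2)
    omega
  · have := Nat.zero_le (t.1 * t.2)
    omega

theorem Rg_low {R : ℕ} {t s : ℕ × ℕ} (h : t ∈ Rg R) (h1 : 1 ≤ s.1) (h2 : 1 ≤ s.2)
    (h3 : s.1 ≤ t.1) (h4 : s.2 ≤ t.2) : s ∈ Rg R := by
  obtain ⟨_, _, g3⟩ := mem_Rg.1 h
  refine mem_Rg.2 ⟨h1, h2, le_trans ?_ g3⟩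
  have e1 := Nat.pow_le_pow_left h3 2
  have e2 := Nat.pow_le_pow_left h4 2
  have e3 := Nat.mul_le_mul h3 h4
  omega

theorem mem_Rc {R m a b : ℕ} {t : ℕ × ℕ} : t ∈ Rc R m a b ↔
    t ∈ Rg R ∧ t.1 ≡ a [MOD m] ∧ t.2 ≡ b [MOD m] := by
  unfold Rc
  rw [mem_filter]

/-- two positive numbers at most `m` in the same residue class -/
theorem eq_of_small {m x y a : ℕ} (hx : 1 ≤ x) (hy : 1 ≤ y) (hxm : x ≤ m) (hym : y ≤ m)
    (h1 : x ≡ a [MOD m]) (h2 : y ≡ a [MOD m]) : x = y := by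
  have h : x ≡ y [MOD m] := h1.trans h2.symm
  rcases le_total x y with hle | hle
  · have h3 := (Nat.modEq_iff_dvd' hle).1 h
    have h4 := Nat.eq_zero_of_dvd_of_lt h3 (by omega)
    omega
  · have h3 := (Nat.modEq_iff_dvd' hle).1 h.symm
    have h4 := Nat.eq_zero_of_dvd_of_lt h3 (by omega)
    omega

theorem eq_of_div {m x y a : ℕ} (h1 : x ≡ a [MOD m]) (h2 : y ≡ a [MOD m])
    (h : x / m = y / m) : x = y := by
  have h3 : x % m = y % m := h1.trans h2.symm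
  rw [← Nat.div_add_mod x m, ← Nat.div_add_mod y m, h, h3]

theorem shift_exists {m : ℕ} (hm : 1 ≤ m) (a a' : ℕ) : ∃ r, r < m ∧ a' + r ≡ a [MOD m] := by
  refine ⟨(a + (m - 1) * a') % m, Nat.mod_lt _ hm, ?_⟩
  have h1 : a' + (a + (m - 1) * a') = a + m * a' := by
    obtain ⟨k, rfl⟩ : ∃ k, m = k + 1 := ⟨m - 1, by omega⟩
    rw [Nat.add_sub_cancel]
    ring
  have h2 : a' + (a + (m - 1) * a') % m ≡ a' + (a + (m - 1) * a') [MOD m] :=
    Nat.ModEq.add_left _ (Nat.mod_modEq _ _)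
  refine h2.trans ?_
  rw [h1]
  have h3 : a + m * a' ≡ a + 0 [MOD m] :=
    Nat.ModEq.add_left _ ((Nat.modEq_zero_iff_dvd).2 ⟨a', rfl⟩)
  rw [add_zero] at h3
  exact h3

theorem comp {R m : ℕ} (hm : 1 ≤ m) (a b a' b' : ℕ) :
    (Rc R m a b).card ≤ (Rc R m a' b').card + 2 * (Nat.sqrt R / m + 1) := by
  classical
  obtain ⟨r, hr, hra⟩ := shift_exists hm a a'
  obtain ⟨s, hs, hsb⟩ := shift_exists hm b b'
  have h1 : ((Rc R m a b).filter (fun t => t.1 ≤ m)).card ≤ Nat.sqrt R / m + 1 := by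
    rw [← card_range (Nat.sqrt R / m + 1)]
    refine card_le_card_of_injOn (fun t => t.2 / m) ?_ ?_
    · intro t ht
      obtain ⟨ht1, -⟩ := mem_filter.1 (mem_coe.1 ht)
      exact mem_coe.2 (mem_range.2 (Nat.lt_succ_of_le
        (Nat.div_le_div_right (c := m) (Rg_sqrt (mem_Rc.1 ht1).1).2)))
    · intro t ht t' ht' h
      obtain ⟨ht1, ht2⟩ := mem_filter.1 (mem_coe.1 ht)
      obtain ⟨ht1', ht2'⟩ := mem_filter.1 (mem_coe.1 ht')
      obtain ⟨g1, g2, g3⟩ := mem_Rc.1 ht1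
      obtain ⟨g1', g2', g3'⟩ := mem_Rc.1 ht1'
      exact Prod.ext (eq_of_small (mem_Rg.1 g1).1 (mem_Rg.1 g1').1 ht2 ht2' g2 g2')
        (eq_of_div g3 g3' h)
  have h2 : ((Rc R m a b).filter (fun t => t.2 ≤ m)).card ≤ Nat.sqrt R / m + 1 := by
    rw [← card_range (Nat.sqrt R / m + 1)]
    refine card_le_card_of_injOn (fun t => t.1 / m) ?_ ?_
    · intro t ht
      obtain ⟨ht1, -⟩ := mem_filter.1 (mem_coe.1 ht)
      exact mem_coe.2 (mem_range.2 (Nat.lt_succ_of_le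
        (Nat.div_le_div_right (c := m) (Rg_sqrt (mem_Rc.1 ht1).1).1)))
    · intro t ht t' ht' h
      obtain ⟨ht1, ht2⟩ := mem_filter.1 (mem_coe.1 ht)
      obtain ⟨ht1', ht2'⟩ := mem_filter.1 (mem_coe.1 ht')
      obtain ⟨g1, g2, g3⟩ := mem_Rc.1 ht1
      obtain ⟨g1', g2', g3'⟩ := mem_Rc.1 ht1'
      exact Prod.ext (eq_of_div g2 g2' h)
        (eq_of_small (mem_Rg.1 g1).2.1 (mem_Rg.1 g1').2.1 ht2 ht2' g3 g3')
  have h3 : ((Rc R m a b).filter (fun t => m < t.1 ∧ m < t.2)).card ≤ (Rc R m a' b').card := by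
    refine card_le_card_of_injOn (fun t => (t.1 - r, t.2 - s)) ?_ ?_
    · intro t ht
      obtain ⟨ht1, ht2, ht3⟩ := mem_filter.1 (mem_coe.1 ht)
      obtain ⟨g1, g2, g3⟩ := mem_Rc.1 ht1
      refine mem_coe.2 (mem_Rc.2 ⟨Rg_low g1 ?_ ?_ ?_ ?_, ?_, ?_⟩)
      · show 1 ≤ t.1 - r
        omega
      · show 1 ≤ t.2 - s
        omega
      · show t.1 - r ≤ t.1
        omega
      · show t.2 - s ≤ t.2
        omega
      · show t.1 - r ≡ a' [MOD m]
        refine Nat.ModEq.add_right_cancel' r ?_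
        rw [Nat.sub_add_cancel (by omega)]
        exact g2.trans hra.symm
      · show t.2 - s ≡ b' [MOD m]
        refine Nat.ModEq.add_right_cancel' s ?_
        rw [Nat.sub_add_cancel (by omega)]
        exact g3.trans hsb.symm
    · intro t ht t' ht' h
      obtain ⟨_, ht2, ht3⟩ := mem_filter.1 (mem_coe.1 ht)
      obtain ⟨_, ht2', ht3'⟩ := mem_filter.1 (mem_coe.1 ht')
      obtain ⟨e1, e2⟩ := Prod.mk.inj h
      exact Prod.ext (by omega) (by omega)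
  have h4 : Rc R m a b ⊆ ((Rc R m a b).filter (fun t => m < t.1 ∧ m < t.2)) ∪
      (((Rc R m a b).filter (fun t => t.1 ≤ m)) ∪ ((Rc R m a b).filter (fun t => t.2 ≤ m))) := by
    intro t ht
    rw [mem_union, mem_union, mem_filter, mem_filter, mem_filter]
    by_cases k1 : t.1 ≤ m
    · exact Or.inr (Or.inl ⟨ht, k1⟩)
    · by_cases k2 : t.2 ≤ m
      · exact Or.inr (Or.inr ⟨ht, k2⟩)
      · exact Or.inl ⟨ht, by omega, by omega⟩
  have h5 := card_le_card h4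
  have h6 := card_union_le ((Rc R m a b).filter (fun t => m < t.1 ∧ m < t.2))
    (((Rc R m a b).filter (fun t => t.1 ≤ m)) ∪ ((Rc R m a b).filter (fun t => t.2 ≤ m)))
  have h7 := card_union_le ((Rc R m a b).filter (fun t => t.1 ≤ m))
    ((Rc R m a b).filter (fun t => t.2 ≤ m))
  omega

theorem total {R m : ℕ} (hm : 1 ≤ m) :
    (Rg R).card = ∑ x ∈ range m ×ˢ range m, (Rc R m x.1 x.2).card := by
  classical
  rw [card_eq_sum_card_fiberwise (f := fun t : ℕ × ℕ => (t.1 % m, t.2 % m))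
    (t := range m ×ˢ range m)]
  · refine sum_congr rfl fun x hx => ?_
    rw [mem_product, mem_range, mem_range] at hx
    congr 1
    unfold Rc
    refine filter_congr fun t _ => ?_
    rw [Prod.ext_iff]
    unfold Nat.ModEq
    rw [Nat.mod_eq_of_lt hx.1, Nat.mod_eq_of_lt hx.2]
  · intro t _
    exact mem_coe.2 (mem_product.2 ⟨mem_range.2 (Nat.mod_lt _ hm), mem_range.2 (Nat.mod_lt _ hm)⟩)

theorem lat : ∃ C : ℝ, 0 ≤ C ∧ ∀ R m a b : ℕ, 1 ≤ R → 1 ≤ m →
    |((Rc R m a b).card : ℝ) - (Rg R).card / (m : ℝ) ^ 2| ≤ C * (Real.sqrt R / m + 1) := by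
  refine ⟨2, by norm_num, fun R m a b _ hm => ?_⟩
  have hm0 : (0 : ℝ) < m := by exact_mod_cast hm
  have hE : (2 : ℝ) * ((Nat.sqrt R / m : ℕ) + 1) ≤ 2 * (Real.sqrt R / m + 1) := by
    have h1 : ((Nat.sqrt R / m : ℕ) : ℝ) ≤ (Nat.sqrt R : ℝ) / m := Nat.cast_div_le
    have h2 : (Nat.sqrt R : ℝ) / m ≤ Real.sqrt R / m :=
      div_le_div_of_nonneg_right Real.nat_sqrt_le_real_sqrt hm0.le
    linarith
  set E : ℕ := 2 * (Nat.sqrt R / m + 1) with hEdef
  have hE' : (E : ℝ) ≤ 2 * (Real.sqrt R / m + 1) := by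
    rw [hEdef]
    push_cast
    exact hE
  have h1 : m ^ 2 * (Rc R m a b).card ≤ (Rg R).card + m ^ 2 * E := by
    rw [total hm]
    calc m ^ 2 * (Rc R m a b).card = ∑ _x ∈ range m ×ˢ range m, (Rc R m a b).card := by
          rw [sum_const, card_product, card_range, smul_eq_mul]
          ring
      _ ≤ ∑ x ∈ range m ×ˢ range m, ((Rc R m x.1 x.2).card + E) :=
          sum_le_sum fun x _ => comp hm a b x.1 x.2
      _ = _ := by
          rw [sum_add_distrib, sum_const, card_product, card_range, smul_eq_mul]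
          ring
  have h2 : (Rg R).card ≤ m ^ 2 * (Rc R m a b).card + m ^ 2 * E := by
    rw [total hm]
    calc ∑ x ∈ range m ×ˢ range m, (Rc R m x.1 x.2).card
        ≤ ∑ _x ∈ range m ×ˢ range m, ((Rc R m a b).card + E) :=
          sum_le_sum fun x _ => comp hm x.1 x.2 a b
      _ = _ := by
          rw [sum_add_distrib, sum_const, sum_const, card_product, card_range, smul_eq_mul,
            smul_eq_mul]
          ring
  have h1' : (m : ℝ) ^ 2 * (Rc R m a b).card ≤ (Rg R).card + (m : ℝ) ^ 2 * E := by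
    exact_mod_cast h1
  have h2' : ((Rg R).card : ℝ) ≤ (m : ℝ) ^ 2 * (Rc R m a b).card + (m : ℝ) ^ 2 * E := by
    exact_mod_cast h2
  have hm2 : (0 : ℝ) < (m : ℝ) ^ 2 := by positivity
  have hdiv : ((Rg R).card : ℝ) = (m : ℝ) ^ 2 * ((Rg R).card / (m : ℝ) ^ 2) := by
    field_simp
  rw [hdiv] at h1' h2'
  refine le_trans ?_ hE'
  rw [abs_le]
  constructor
  · have := le_of_mul_le_mul_left (a := (m : ℝ) ^ 2) (b := (Rg R).card / (m : ℝ) ^ 2)
      (c := (Rc R m a b).card + E) (by rw [mul_add]; exact h2') hm2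
    linarith
  · have := le_of_mul_le_mul_left (a := (m : ℝ) ^ 2) (b := ((Rc R m a b).card : ℝ))
      (c := (Rg R).card / (m : ℝ) ^ 2 + E) (by rw [mul_add]; exact h1') hm2
    linarith

/-- the size of the region (compare with the squares `[1, √(R / 3)]²` and `[1, √R]²`) -/
theorem rg_card : ∃ c C : ℝ, 0 < c ∧ ∀ R : ℕ, 3 ≤ R →
    c * R ≤ (Rg R).card ∧ ((Rg R).card : ℝ) ≤ C * R := by
  refine ⟨1 / 12, 1, by norm_num, fun R hR => ⟨?_, ?_⟩⟩
  · set k := Nat.sqrt (R / 3) with hk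
    have hk1 : 1 ≤ k := by
      rw [hk, Nat.le_sqrt']
      omega
    have hk2 : k ^ 2 ≤ R / 3 := Nat.sqrt_le' _
    have hk3 : R / 3 < (k + 1) ^ 2 := Nat.lt_succ_sqrt' _
    have hsub : (Icc 1 k) ×ˢ (Icc 1 k) ⊆ Rg R := by
      intro t ht
      rw [mem_product, mem_Icc, mem_Icc] at ht
      obtain ⟨⟨t1, t2⟩, t3, t4⟩ := ht
      refine mem_Rg.2 ⟨t1, t3, ?_⟩
      have e1 := Nat.pow_le_pow_left t2 2
      have e2 := Nat.pow_le_pow_left t4 2
      have e3 := Nat.mul_le_mul t2 t4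
      rw [← pow_two] at e3
      omega
    have hcard := card_le_card hsub
    rw [card_product, Nat.card_Icc, Nat.add_sub_cancel] at hcard
    have h4 : R ≤ 12 * (k * k) := by
      have : (k + 1) ^ 2 ≤ 4 * (k * k) := by nlinarith
      omega
    have h5 : R ≤ 12 * (Rg R).card := h4.trans (Nat.mul_le_mul_left _ hcard)
    have h6 : (R : ℝ) ≤ 12 * (Rg R).card := by exact_mod_cast h5
    linarith
  · have hsub : Rg R ⊆ (Icc 1 (Nat.sqrt R)) ×ˢ (Icc 1 (Nat.sqrt R)) := by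
      intro t ht
      obtain ⟨h1, h2⟩ := Rg_sqrt ht
      obtain ⟨g1, g2, _⟩ := mem_Rg.1 ht
      rw [mem_product, mem_Icc, mem_Icc]
      exact ⟨⟨g1, h1⟩, g2, h2⟩
    have hcard := card_le_card hsub
    rw [card_product, Nat.card_Icc, Nat.add_sub_cancel] at hcard
    have h5 : (Rg R).card ≤ R := hcard.trans (Nat.sqrt_le R)
    rw [one_mul]
    exact_mod_cast h5

end Pool.Agent.H514.GL
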