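import Pool.Agent.H514.GL.Defs

/-!
GL-3. The distribution of the vector `yv p t` for `t` modulo `p`.
-/

set_option autoImplicit false

namespace Pool.Agent.H514.GL

open Finset Pool.Agent.H514.IS

/-- the pairs modulo `p` -/
def gl3sh (p : ℕ) (i : Fin 3) (r : ZMod p × ZMod p) : ZMod p × ZMod p :=
  if i = 0 then (r.1, r.1 + r.2) else if i = 1 then (-r.1, r.2) else (-(r.1 + r.2), -r.2)

/-- the vector modulo `p` -/
noncomputable def gl3Y (p : ℕ) [Fact p.Prime] (r : ZMod p × ZMod p) : Fin 3 → ℝ :=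
  fun i => Xp p (gl3sh p i r)

theorem gl3_eq (p : ℕ) [Fact p.Prime] (t : ℕ × ℕ) :
    yv p t = gl3Y p ((t.1 : ZMod p), (t.2 : ZMod p)) := by
  funext i
  unfold yv gl3Y
  rw [ph_eq]
  congr 1
  fin_cases i <;> simp [sh, gl3sh]

theorem yv_mod {p : ℕ} (hp : p.Prime) (h2 : p ≠ 2) {s t : ℕ × ℕ} (h1 : s.1 ≡ t.1 [MOD p])
    (h3 : s.2 ≡ t.2 [MOD p]) : yv p s = yv p t := by
  have : Fact p.Prime := ⟨hp⟩
  rw [gl3_eq, gl3_eq, (ZMod.natCast_eq_natCast_iff _ _ _).2 h1,
    (ZMod.natCast_eq_natCast_iff _ _ _).2 h3]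

theorem yv_abs (p : ℕ) (t : ℕ × ℕ) (i : Fin 3) : |yv p t i| ≤ 1 := by
  unfold yv ph
  split_ifs <;> norm_num

/-- the value for nonzero classes -/
noncomputable def gl3g (p : ℕ) [Fact p.Prime] (f : (Fin 3 → ℝ) → ℂ) (i : Fin 3) (a : ZMod p) : ℂ :=
  if quadraticChar (ZMod p) a = 1 then f (fun j => if j = i then -1 else 1)
  else f (fun j => if j = i then 0 else 1)

theorem gl3_zero (p : ℕ) [Fact p.Prime] (u v : ZMod p) (hu : u ≠ 0) (hv : v ≠ 0)
    (huv : u + v ≠ 0) : gl3Y p (u, v) = 0 := by
  funext i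
  unfold gl3Y Xp gl3sh
  fin_cases i
  · have h1 : ¬ (u = u + v) := by intro h; apply hv; linear_combination -h
    simp [hu, hv, huv, h1]
  · have h1 : ¬ (-u = v) := by intro h; apply huv; linear_combination -h
    simp [hu, hv, h1]
  · have h1 : ¬ (-(u + v) = -v) := by intro h; apply hu; linear_combination -h
    have h2 : ¬ (-v + -u = 0) := by intro h; apply huv; linear_combination -h
    have h3 : ¬ (-(u + v) = 0) := by intro h; apply huv; linear_combination -h
    simp only [Fin.reduceFinMk, Fin.isValue, Fin.reduceEq, if_false, h3, h1, neg_eq_zero, hv,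
      or_self, false_and, Pi.zero_apply, sub_self]

theorem yv_zero {p : ℕ} (hp : p.Prime) (h2 : p ≠ 2) {t : ℕ × ℕ}
    (h : ¬ p ∣ t.1 * t.2 * (t.1 + t.2)) : yv p t = 0 := by
  have : Fact p.Prime := ⟨hp⟩
  rw [gl3_eq]
  rw [hp.dvd_mul, hp.dvd_mul, not_or, not_or] at h
  apply gl3_zero
  · intro h3; exact h.1.1 ((ZMod.natCast_eq_zero_iff _ _).1 h3)
  · intro h3; exact h.1.2 ((ZMod.natCast_eq_zero_iff _ _).1 h3)
  · intro h3
    refine h.2 ((ZMod.natCast_eq_zero_iff _ _).1 ?_)
    push_cast
    exact h3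

/-- the decomposition -/
theorem gl3_dec (p : ℕ) [Fact p.Prime] (h2 : p ≠ 2) (f : (Fin 3 → ℝ) → ℂ) (hf : f 0 = 0)
    (u v : ZMod p) :
    f (gl3Y p (u, v)) = (if u = 0 then (if v = 0 then f (fun _ => 1) else 0) else 0) +
      (if u = 0 then (if v = 0 then 0 else gl3g p f 2 (-v)) else 0) +
      (if v = 0 then (if u = 0 then 0 else gl3g p f 0 u) else 0) +
      (if v = -u then (if u = 0 then 0 else gl3g p f 1 (-u)) else 0) := by
  by_cases hu : u = 0
  · subst hu
    by_cases hv : v = 0
    · subst hv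
      rw [if_pos rfl, if_pos rfl, if_pos rfl, if_pos rfl, if_pos rfl, if_pos rfl,
        if_pos neg_zero.symm, if_pos rfl]
      rw [add_zero, add_zero, add_zero]
      congr 1
      funext i
      unfold gl3Y Xp gl3sh
      fin_cases i <;> simp
    · have h3 : ¬ (v = -0) := by rw [neg_zero]; exact hv
      rw [if_pos rfl, if_neg hv, if_pos rfl, if_neg hv, if_neg hv, if_neg h3, zero_add, add_zero,
        add_zero]
      unfold gl3g
      split_ifs with h4
      · congr 1
        funext i
        unfold gl3Y Xp gl3sh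
        fin_cases i <;> simp [hv, h4]
      · rw [quadraticChar_apply] at h4
        congr 1
        funext i
        unfold gl3Y Xp gl3sh
        fin_cases i <;> simp [hv, h4]
  · by_cases hv : v = 0
    · subst hv
      have h3 : ¬ ((0 : ZMod p) = -u) := by
        intro h; apply hu; linear_combination h
      have h5 : ¬ (-u = 0) := by rw [neg_eq_zero]; exact hu
      rw [if_neg hu, if_neg hu, if_pos rfl, if_neg hu, if_neg h3, zero_add, zero_add, add_zero]
      unfold gl3g
      split_ifs with h4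
      · congr 1
        funext i
        unfold gl3Y Xp gl3sh
        fin_cases i <;> simp [hu, h4]
      · rw [quadraticChar_apply] at h4
        congr 1
        funext i
        unfold gl3Y Xp gl3sh
        fin_cases i <;> simp [hu, h4]
    · by_cases huv : v = -u
      · subst huv
        rw [if_neg hu, if_neg hu, if_neg hv, if_pos rfl, if_neg hu, zero_add, zero_add, zero_add]
        have h6 : ¬ (u = 0) := hu
        unfold gl3g
        split_ifs with h4
        · congr 1
          funext i
          unfold gl3Y Xp gl3sh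
          fin_cases i <;> simp [hu, h4]
        · rw [quadraticChar_apply] at h4
          congr 1
          funext i
          unfold gl3Y Xp gl3sh
          fin_cases i <;> simp [hu, h4]
      · rw [if_neg hu, if_neg hu, if_neg hv, if_neg huv, gl3_zero p u v hu hv ?_, hf]
        · ring
        · intro h; apply huv; linear_combination h

theorem gl3_sum (p : ℕ) [Fact p.Prime] (h2 : p ≠ 2) (f : (Fin 3 → ℝ) → ℂ) (i : Fin 3) :
    ∑ a : ZMod p, (if a = 0 then 0 else gl3g p f i a) =
      (((p : ℂ) - 1) / 2) * (f (fun j => if j = i then 0 else 1) +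
        f (fun j => if j = i then -1 else 1)) := by
  set Y := f (fun j => if j = i then 0 else 1) with hY
  set X := f (fun j => if j = i then -1 else 1) with hX
  have h1 : ∀ a : ZMod p, (if a = 0 then 0 else gl3g p f i a) =
      (X + Y) / 2 * (1 - if a = 0 then 1 else 0) +
        (X - Y) / 2 * ((quadraticChar (ZMod p) a : ℤ) : ℂ) := by
    intro a
    by_cases ha : a = 0
    · subst ha
      rw [MulChar.map_zero, if_pos rfl, if_pos rfl]
      push_cast
      ring
    · rw [if_neg ha, if_neg ha]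
      unfold gl3g
      rw [← hX, ← hY]
      rcases quadraticChar_dichotomy ha with h | h
      · rw [h, if_pos rfl]
        push_cast
        ring
      · rw [h, if_neg (by norm_num)]
        push_cast
        ring
  have h3 := quadraticChar_sum_zero (F := ZMod p) (by rw [ZMod.ringChar_zmod_n]; exact h2)
  rw [Finset.sum_congr rfl fun a _ => h1 a, Finset.sum_add_distrib, ← Finset.mul_sum,
    ← Finset.mul_sum, ← Int.cast_sum, h3, Finset.sum_sub_distrib,
    Finset.sum_ite_eq' univ (0 : ZMod p), if_pos (mem_univ _), Finset.sum_const, card_univ,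
    ZMod.card, nsmul_eq_mul, mul_one, Int.cast_zero, mul_zero, add_zero]
  ring

theorem gl3_sum_neg (p : ℕ) [Fact p.Prime] (h2 : p ≠ 2) (f : (Fin 3 → ℝ) → ℂ) (i : Fin 3) :
    ∑ a : ZMod p, (if a = 0 then 0 else gl3g p f i (-a)) =
      (((p : ℂ) - 1) / 2) * (f (fun j => if j = i then 0 else 1) +
        f (fun j => if j = i then -1 else 1)) := by
  rw [← gl3_sum p h2 f i, ← Equiv.sum_comp (Equiv.neg (ZMod p))]
  refine Finset.sum_congr rfl fun a _ => ?_
  simp [neg_eq_zero]

theorem gl3_range (p : ℕ) [Fact p.Prime] (F : ZMod p → ℂ) :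
    ∑ a ∈ range p, F (a : ZMod p) = ∑ x : ZMod p, F x := by
  refine Finset.sum_nbij' (fun a : ℕ => (a : ZMod p)) ZMod.val (fun a _ => mem_univ _)
    (fun x _ => mem_range.2 (ZMod.val_lt x)) (fun a ha => ?_) (fun x _ => ?_) (fun a _ => rfl)
  · exact ZMod.val_cast_of_lt (mem_range.1 ha)
  · exact ZMod.natCast_zmod_val x

/-- the sum over the residue classes -/
theorem yv_sum {p : ℕ} (hp : p.Prime) (h2 : p ≠ 2) (f : (Fin 3 → ℝ) → ℂ) (hf : f 0 = 0) :
    ∑ s ∈ range p ×ˢ range p, f (yv p s) =
      (((p : ℂ) - 1) / 2) * ∑ i : Fin 3, (f (fun j => if j = i then 0 else 1) +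
        f (fun j => if j = i then -1 else 1)) + f (fun _ => 1) := by
  have : Fact p.Prime := ⟨hp⟩
  rw [Finset.sum_product]
  have e1 : ∀ a ∈ range p, ∑ b ∈ range p, f (yv p (a, b)) =
      ∑ v : ZMod p, f (gl3Y p ((a : ZMod p), v)) := by
    intro a _
    rw [← gl3_range p fun v => f (gl3Y p ((a : ZMod p), v))]
    refine Finset.sum_congr rfl fun b _ => ?_
    rw [gl3_eq]
  rw [Finset.sum_congr rfl e1, gl3_range p fun u => ∑ v : ZMod p, f (gl3Y p (u, v))]
  have e2 : ∀ u : ZMod p, ∑ v : ZMod p, f (gl3Y p (u, v)) =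
      (if u = 0 then f (fun _ => 1) else 0) +
      (if u = 0 then ∑ v : ZMod p, (if v = 0 then 0 else gl3g p f 2 (-v)) else 0) +
      (if u = 0 then 0 else gl3g p f 0 u) + (if u = 0 then 0 else gl3g p f 1 (-u)) := by
    intro u
    rw [Finset.sum_congr rfl fun v _ => gl3_dec p h2 f hf u v, Finset.sum_add_distrib,
      Finset.sum_add_distrib, Finset.sum_add_distrib]
    congr 1
    · congr 1
      · congr 1
        · by_cases hu : u = 0
          · simp [hu]
          · simp [hu]
        · by_cases hu : u = 0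
          · simp [hu]
          · simp [hu]
      · rw [Finset.sum_ite_eq' univ (0 : ZMod p), if_pos (mem_univ _)]
    · rw [Finset.sum_ite_eq' univ (-u), if_pos (mem_univ _)]
  rw [Finset.sum_congr rfl fun u _ => e2 u, Finset.sum_add_distrib, Finset.sum_add_distrib,
    Finset.sum_add_distrib, Finset.sum_ite_eq' univ (0 : ZMod p), if_pos (mem_univ _),
    Finset.sum_ite_eq' univ (0 : ZMod p), if_pos (mem_univ _), gl3_sum p h2, gl3_sum_neg p h2,
    gl3_sum_neg p h2, Fin.sum_univ_three]
  ring

end Pool.Agent.H514.GL
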