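import Pool.Agent.H514.GL.Fin
import Pool.Agent.H514.GL.Latt
import Pool.Agent.H514.GL.Av
import Pool.Agent.H514.GL.Fac
import Pool.Agent.H514.GL.Dif
import Pool.Agent.H514.GL.Loc

/-! Project GL: the joint law, final form. -/

set_option autoImplicit false

open scoped Classical

namespace Pool.Agent.H514.GL

open Finset Filter Pool.Agent.H514.IS Pool.Agent.W307.RT Pool.Agent.H514 MeasureTheory
  ProbabilityTheory

theorem hy_ex : ∃ C C0 c0 : ℝ, Hy C C0 c0 := by
  obtain ⟨C, hC⟩ := lat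
  obtain ⟨c0, C0, hc0, h⟩ := rg_card
  have hL : Lat C := hC
  have hup : ∀ R : ℕ, 1 ≤ R → ((Rg R).card : ℝ) ≤ max C0 4 * R := by
    intro R hR
    rcases Nat.lt_or_ge R 3 with h3 | h3
    · have h4 : (Rg R).card ≤ R * R := by
        unfold Rg
        refine (card_filter_le _ _).trans ?_
        rw [card_product, Nat.card_Icc]
        simp
      have h5 : R * R ≤ 4 * R := Nat.mul_le_mul_right _ (by omega)
      have h6 : ((Rg R).card : ℝ) ≤ 4 * R := by exact_mod_cast h4.trans h5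
      exact h6.trans (mul_le_mul_of_nonneg_right (le_max_right _ _) (Nat.cast_nonneg _))
    · exact (h R h3).2.trans (mul_le_mul_of_nonneg_right (le_max_left _ _) (Nat.cast_nonneg _))
  refine ⟨C, max C0 4, c0, ?_⟩
  exact
    { hc := hc0
      hC := hC.1
      hC0 := le_max_of_le_right (by norm_num)
      up := hup
      low := fun R hR => (h R hR).1
      mnle := fun hp _ _ h => mn_le hp h
      avg := fun hR hW _ hD _ _ hg => avg hL hR hW hD hg
      avgabs := fun hR hW _ hD hDR _ _ hg => avg_abs hL hup hR hW hD hDR hg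
      ymod := fun hp h2 _ _ h1 h3 => yv_mod hp h2 h1 h3
      yzero := fun hp h2 _ h => yv_zero hp h2 h
      yabs := yv_abs
      ysum := fun hp h2 f hf => yv_sum hp h2 f hf
      plim := prod_lim }

/-- the joint law -/
theorem joint_law (e : ℤ × ℤ → Fin 3 → ℤ) (he : ∀ H, ∀ c ∈ Cv 2 H, Rts3 c (e c))
    (x : Fin 3 → ℝ) :
    Tendsto (fun H : ℕ => (((Cv 2 H).filter (fun c => ∀ i,
      lg (Quo c.1 (e c i)) ≤ 3 / 2 * Real.log (Real.log H) +
        x i * Real.sqrt (5 / 2 * Real.log (Real.log H)))).card : ℝ) / (Cv 2 H).card) atTop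
      (nhds (∏ i, (gaussianReal 0 1 (Set.Iic (x i))).toReal)) := by
  obtain ⟨C, C0, c0, hy⟩ := hy_ex
  exact fin_law hy (fun θ w hw => diff yv_abs (fun hp h2 _ h => yv_zero hp h2 h) rh_tend ll_tend
    zz_tend zz_ll θ hw) e he x

/-- the roots exist -/
theorem rts_ex {H : ℕ} {c : ℤ × ℤ} (hc : c ∈ Cv 2 H) : ∃ e : Fin 3 → ℤ, Rts3 c e := by
  obtain ⟨G, hG⟩ := bij
  obtain ⟨f, h1, -, -⟩ := (hG H).2 c hc
  exact ⟨f, h1⟩

end Pool.Agent.H514.GL
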