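import Pool.Agent.H514.GL.Defs
import Pool.Agent.H514.ParTwo
import Pool.Agent.H514.LowTwo

/-!
GL-8. The coordinates `(u, v)` for the curves with three rational points of order two.

`Cv 2 H` (library, `Pool.Graph.R_seed8.W307.RT.Defs`) is the set of the pairs `c = (A, B)` with `|A|, |B| ≤ H`,
`4 A³ + 27 B² ≠ 0`, `4 |A|³ ≤ H`, `27 B² ≤ H`, no prime `p` with `p⁴ ∣ A`, `p⁶ ∣ B`, and full 2-torsion `HasT 2 (Sh A B)`.

PROOF. Let `e₀ < e₁ < e₂` be the roots, `u = e₁ - e₀ > 0`, `v = e₂ - e₁ > 0`; as `e₀ + e₁ + e₂ = 0`: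
`3 e₀ = -(2 u + v)`, `3 e₁ = u - v`, `3 e₂ = u + 2 v`, so `u ≡ v (mod 3)`, `A = -(u² + u v + v²) / 3`,
`B = - e₀ e₁ e₂`; `(u, v)` determines `c`; conversely every pair with `u ≡ v (mod 3)` comes from integers `e_i`.
Height: `4 |A|³ = 4 (u² + u v + v²)³ / 27 ≤ H` iff `4 n³ ≤ 27 H`, `n = u² + u v + v²`, iff `n ≤ Rh H`; and
`4 |A|³ - 27 B² = (u v (u + v))² > 0`, so `27 B² ≤ H` follows, and `|A|, |B| ≤ H` follow.
Minimality: for a prime `p`: `p⁴ ∣ A` and `p⁶ ∣ B` iff `p² ∣ e_i` for all `i`. For `p ≠ 3`: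
`p² ∣ e_i` for all `i` iff `p² ∣ u` and `p² ∣ v`. For `p = 3`: `9 ∣ e_i` for all `i` iff
`9 ∣ e₀`, `9 ∣ u` (`e₁ = e₀ + u`, `e₂ = - e₀ - e₁`) iff `27 ∣ 2 u + v`, `9 ∣ u`. So the conditions are exactly `Lo (u, v)`.
-/

set_option autoImplicit false

open scoped Classical

namespace Pool.Agent.H514.GL

open Finset Pool.Agent.W307.RT

/-- `e₀ < e₁ < e₂` are the roots of `x³ + c.1 x + c.2` -/
def Rts3 (c : ℤ × ℤ) (e : Fin 3 → ℤ) : Prop :=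
  e 0 < e 1 ∧ e 1 < e 2 ∧ ∀ i, (e i) ^ 3 + c.1 * e i + c.2 = 0

namespace GL8

/-- sorting three different integers -/
theorem sort3 (x y z : ℤ) (P : ℤ → Prop) (hx : P x) (hy : P y) (hz : P z) (hxy : x ≠ y)
    (hxz : x ≠ z) (hyz : y ≠ z) : ∃ e : Fin 3 → ℤ, e 0 < e 1 ∧ e 1 < e 2 ∧ ∀ i, P (e i) := by
  have mk : ∀ a b c : ℤ, a < b → b < c → P a → P b → P c →
      ∃ e : Fin 3 → ℤ, e 0 < e 1 ∧ e 1 < e 2 ∧ ∀ i, P (e i) := by
    intro a b c h1 h2 ha hb hc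
    refine ⟨![a, b, c], h1, h2, fun i => ?_⟩
    fin_cases i
    · exact ha
    · exact hb
    · exact hc
  rcases lt_or_gt_of_ne hxy with h1 | h1
  · rcases lt_or_gt_of_ne hyz with h2 | h2
    · exact mk x y z h1 h2 hx hy hz
    · rcases lt_or_gt_of_ne hxz with h3 | h3
      · exact mk x z y h3 h2 hx hz hy
      · exact mk z x y h3 h1 hz hx hy
  · rcases lt_or_gt_of_ne hyz with h2 | h2
    · rcases lt_or_gt_of_ne hxz with h3 | h3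
      · exact mk y x z h1 h3 hy hx hz
      · exact mk y z x h2 h3 hy hz hx
    · exact mk z y x h2 h1 hz hy hx

theorem exists_rts {c : ℤ × ℤ} (hD : 4 * c.1 ^ 3 + 27 * c.2 ^ 2 ≠ 0)
    (hT : HasT 2 (Sh c.1 c.2)) : ∃ e, Rts3 c e := by
  obtain ⟨ab, e1, e2, -, n1, n2, n3, hA, hB⟩ := core2 hD hT
  change c.1 = _ at hA
  change c.2 = _ at hB
  refine sort3 e1 e2 (-e1 - e2) (fun x => x ^ 3 + c.1 * x + c.2 = 0) ?_ ?_ ?_ n1 ?_ ?_
  · show e1 ^ 3 + c.1 * e1 + c.2 = 0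
    rw [hA, hB]; ring
  · show e2 ^ 3 + c.1 * e2 + c.2 = 0
    rw [hA, hB]; ring
  · show (-e1 - e2) ^ 3 + c.1 * (-e1 - e2) + c.2 = 0
    rw [hA, hB]; ring
  · intro h
    apply n2
    linarith
  · intro h
    apply n3
    linarith

/-- Vieta -/
theorem vieta {c : ℤ × ℤ} {e : Fin 3 → ℤ} (h : Rts3 c e) : e 0 + e 1 + e 2 = 0 ∧
    c.1 = -(e 0 ^ 2 + e 0 * e 1 + e 1 ^ 2) ∧ c.2 = e 0 * e 1 * (e 0 + e 1) := by
  obtain ⟨h1, h2, h3⟩ := h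
  have r0 := h3 0
  have r1 := h3 1
  have r2 := h3 2
  have s1 : e 0 ^ 2 + e 0 * e 1 + e 1 ^ 2 + c.1 = 0 := by
    have : (e 0 - e 1) * (e 0 ^ 2 + e 0 * e 1 + e 1 ^ 2 + c.1) = 0 := by
      linear_combination r0 - r1
    exact (mul_eq_zero.mp this).resolve_left (sub_ne_zero.mpr h1.ne)
  have s2 : e 1 ^ 2 + e 1 * e 2 + e 2 ^ 2 + c.1 = 0 := by
    have : (e 1 - e 2) * (e 1 ^ 2 + e 1 * e 2 + e 2 ^ 2 + c.1) = 0 := by
      linear_combination r1 - r2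
    exact (mul_eq_zero.mp this).resolve_left (sub_ne_zero.mpr h2.ne)
  have s3 : e 0 + e 1 + e 2 = 0 := by
    have : (e 0 - e 2) * (e 0 + e 1 + e 2) = 0 := by
      linear_combination s1 - s2
    exact (mul_eq_zero.mp this).resolve_left (sub_ne_zero.mpr (h1.trans h2).ne)
  have hA : c.1 = -(e 0 ^ 2 + e 0 * e 1 + e 1 ^ 2) := by linarith
  refine ⟨s3, hA, ?_⟩
  rw [hA] at r0
  linear_combination r0

theorem rts_of {e : Fin 3 → ℤ} (h1 : e 0 < e 1) (h2 : e 1 < e 2) (h3 : e 0 + e 1 + e 2 = 0) :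
    Rts3 (-(e 0 ^ 2 + e 0 * e 1 + e 1 ^ 2), e 0 * e 1 * (e 0 + e 1)) e := by
  refine ⟨h1, h2, fun i => ?_⟩
  have h4 : e 2 = -e 0 - e 1 := by linarith
  fin_cases i
  · show e 0 ^ 3 + -(e 0 ^ 2 + e 0 * e 1 + e 1 ^ 2) * e 0 + e 0 * e 1 * (e 0 + e 1) = 0
    ring
  · show e 1 ^ 3 + -(e 0 ^ 2 + e 0 * e 1 + e 1 ^ 2) * e 1 + e 0 * e 1 * (e 0 + e 1) = 0
    ring
  · show e 2 ^ 3 + -(e 0 ^ 2 + e 0 * e 1 + e 1 ^ 2) * e 2 + e 0 * e 1 * (e 0 + e 1) = 0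
    rw [h4]
    ring

theorem root_mem {c : ℤ × ℤ} {e : Fin 3 → ℤ} (h : Rts3 c e) {x : ℤ}
    (hx : x ^ 3 + c.1 * x + c.2 = 0) : x = e 0 ∨ x = e 1 ∨ x = e 2 := by
  obtain ⟨s, hA, hB⟩ := vieta h
  have h4 : e 2 = -e 0 - e 1 := by linarith
  have h5 : (x - e 0) * ((x - e 1) * (x - e 2)) = 0 := by
    rw [h4]
    rw [hA, hB] at hx
    linear_combination hx
  rcases mul_eq_zero.mp h5 with h6 | h6
  · exact Or.inl (by linarith)
  · rcases mul_eq_zero.mp h6 with h7 | h7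
    · exact Or.inr (Or.inl (by linarith))
    · exact Or.inr (Or.inr (by linarith))

theorem rts_unique {c : ℤ × ℤ} {e e' : Fin 3 → ℤ} (h : Rts3 c e) (h' : Rts3 c e') : e = e' := by
  have a0 := root_mem h (h'.2.2 0)
  have a1 := root_mem h (h'.2.2 1)
  have a2 := root_mem h (h'.2.2 2)
  obtain ⟨h1, h2, -⟩ := h
  obtain ⟨k1, k2, -⟩ := h'
  have b0 : e 0 = e' 0 := by omega
  have b1 : e 1 = e' 1 := by omega
  have b2 : e 2 = e' 2 := by omega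
  funext i
  fin_cases i
  · exact b0
  · exact b1
  · exact b2

/-- divisibility of the coefficients -/
theorem dvd_iff {x y : ℤ} {p : ℕ} (hp : p.Prime) :
    ((p : ℤ) ^ 4 ∣ -(x ^ 2 + x * y + y ^ 2) ∧ (p : ℤ) ^ 6 ∣ x * y * (x + y)) ↔
      ((p : ℤ) ^ 2 ∣ x ∧ (p : ℤ) ^ 2 ∣ y) := by
  have hpI : Prime (p : ℤ) := Nat.prime_iff_prime_int.1 hp
  have hp0 : (p : ℤ) ≠ 0 := hpI.ne_zero
  constructor
  · rintro ⟨⟨s, hs⟩, ⟨t, ht⟩⟩
    have key : ∀ e : ℤ, e ^ 3 + -(x ^ 2 + x * y + y ^ 2) * e + x * y * (x + y) = 0 →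
        (p : ℤ) ^ 2 ∣ e := by
      intro e he
      rw [hs, ht] at he
      have h1 : (p : ℤ) ∣ e := by
        apply hpI.dvd_of_dvd_pow (n := 3)
        exact ⟨-((p : ℤ) ^ 3 * s * e + (p : ℤ) ^ 5 * t), by linear_combination he⟩
      obtain ⟨f, rfl⟩ := h1
      have h2 : (p : ℤ) ∣ f := by
        apply hpI.dvd_of_dvd_pow (n := 3)
        refine ⟨-((p : ℤ) * s * f + (p : ℤ) ^ 2 * t), ?_⟩
        have h3 : (p : ℤ) ^ 3 * f ^ 3 =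
            (p : ℤ) ^ 3 * ((p : ℤ) * -((p : ℤ) * s * f + (p : ℤ) ^ 2 * t)) := by
          linear_combination he
        exact mul_left_cancel₀ (pow_ne_zero 3 hp0) h3
      obtain ⟨g, rfl⟩ := h2
      exact ⟨g, by ring⟩
    exact ⟨key x (by ring), key y (by ring)⟩
  · rintro ⟨⟨s, rfl⟩, ⟨t, rfl⟩⟩
    exact ⟨⟨-(s ^ 2 + s * t + t ^ 2), by ring⟩, ⟨s * t * (s + t), by ring⟩⟩

/-- the bound of the height -/
theorem le_Rh {n H : ℕ} : n ≤ Rh H ↔ 4 * n ^ 3 ≤ 27 * H := by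
  unfold Rh
  constructor
  · intro h
    have h1 : 4 * (Nat.findGreatest (fun n => 4 * n ^ 3 ≤ 27 * H) (27 * H)) ^ 3 ≤ 27 * H :=
      Nat.findGreatest_spec (P := fun n => 4 * n ^ 3 ≤ 27 * H) (m := 0) (Nat.zero_le _)
        (by simp)
    have h2 := Nat.pow_le_pow_left h 3
    omega
  · intro h
    apply Nat.le_findGreatest
    · rcases Nat.eq_zero_or_pos n with h0 | h0
      · omega
      · have h1 : n ≤ n ^ 3 := Nat.le_self_pow (by norm_num) n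
        omega
    · exact h

theorem dvd_iff_three {x y : ℤ} {u v : ℕ} (hx : 3 * x = -(2 * (u : ℤ) + v))
    (hy : y = x + u) : ((3 : ℤ) ^ 2 ∣ x ∧ (3 : ℤ) ^ 2 ∣ y) ↔ (27 ∣ 2 * u + v ∧ 9 ∣ u) := by
  constructor
  · rintro ⟨h1, h2⟩
    omega
  · rintro ⟨h1, h2⟩
    omega

theorem dvd_iff_ne {x y : ℤ} {u v p : ℕ} (hp : p.Prime) (hp3 : p ≠ 3)
    (hx : 3 * x = -(2 * (u : ℤ) + v)) (hy : y = x + u) :
    ((p : ℤ) ^ 2 ∣ x ∧ (p : ℤ) ^ 2 ∣ y) ↔ (p ^ 2 ∣ u ∧ p ^ 2 ∣ v) := by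
  have hu : (p ^ 2 ∣ u) ↔ ((p : ℤ) ^ 2 ∣ (u : ℤ)) := by
    rw [← Int.natCast_dvd_natCast]
    push_cast
    rfl
  have hv : (p ^ 2 ∣ v) ↔ ((p : ℤ) ^ 2 ∣ (v : ℤ)) := by
    rw [← Int.natCast_dvd_natCast]
    push_cast
    rfl
  rw [hu, hv]
  constructor
  · rintro ⟨h1, h2⟩
    have h3 : (p : ℤ) ^ 2 ∣ (u : ℤ) := by
      have : (u : ℤ) = y - x := by rw [hy]; ring
      rw [this]
      exact dvd_sub h2 h1
    refine ⟨h3, ?_⟩
    have : (v : ℤ) = (-3) * x + (-2) * u := by linarith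
    rw [this]
    exact dvd_add (Dvd.dvd.mul_left h1 _) (Dvd.dvd.mul_left h3 _)
  · rintro ⟨h1, h2⟩
    have hc : IsCoprime ((p : ℤ) ^ 2) 3 := by
      apply IsCoprime.pow_left
      have : IsCoprime (p : ℤ) ((3 : ℕ) : ℤ) :=
        Nat.isCoprime_iff_coprime.2 ((Nat.coprime_primes hp Nat.prime_three).2 hp3)
      exact_mod_cast this
    have h3 : (p : ℤ) ^ 2 ∣ 3 * x := by
      rw [hx, dvd_neg]
      exact dvd_add (Dvd.dvd.mul_left h1 _) h2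
    have h4 : (p : ℤ) ^ 2 ∣ x := hc.dvd_of_dvd_mul_left h3
    refine ⟨h4, ?_⟩
    rw [hy]
    exact dvd_add h4 h1

/-- the main equivalence -/
theorem mem_iff {c : ℤ × ℤ} {e : Fin 3 → ℤ} (h : Rts3 c e) {u v : ℕ}
    (hu : e 1 - e 0 = (u : ℤ)) (hv : e 2 - e 1 = (v : ℤ)) (H : ℕ) :
    c ∈ Cv 2 H ↔ (u, v) ∈ Fu H := by
  obtain ⟨s, hA, hB⟩ := vieta h
  have h01 := h.1
  have h12 := h.2.1
  have hu0 : 1 ≤ u := by omega
  have hv0 : 1 ≤ v := by omega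
  have hx : 3 * e 0 = -(2 * (u : ℤ) + v) := by linarith
  have hy : e 1 = e 0 + u := by linarith
  set x := e 0 with hxd
  set y := e 1 with hyd
  have hQ0 : 0 ≤ x ^ 2 + x * y + y ^ 2 := by nlinarith [sq_nonneg (x + y), sq_nonneg (x - y)]
  have hQn : 3 * (x ^ 2 + x * y + y ^ 2) = ((u ^ 2 + u * v + v ^ 2 : ℕ) : ℤ) := by
    push_cast
    have hv' : (v : ℤ) = -3 * x - 2 * u := by linarith
    rw [hy, hv']
    ring
  have hAabs : |c.1| = x ^ 2 + x * y + y ^ 2 := by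
    rw [hA, abs_neg, abs_of_nonneg hQ0]
  have hht : 4 * |c.1| ^ 3 ≤ (H : ℤ) ↔ u ^ 2 + u * v + v ^ 2 ≤ Rh H := by
    rw [le_Rh, hAabs]
    have h1 : (4 * (u ^ 2 + u * v + v ^ 2) ^ 3 ≤ 27 * H) ↔
        4 * ((u ^ 2 + u * v + v ^ 2 : ℕ) : ℤ) ^ 3 ≤ 27 * (H : ℤ) := by
      rw [← Int.ofNat_le]
      push_cast
      rfl
    rw [h1, ← hQn]
    have h2 : 4 * (3 * (x ^ 2 + x * y + y ^ 2)) ^ 3 = 27 * (4 * (x ^ 2 + x * y + y ^ 2) ^ 3) := by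
      ring
    rw [h2]
    constructor
    · intro h
      linarith
    · intro h
      linarith
  have hdisc : 4 * c.1 ^ 3 + 27 * c.2 ^ 2 = -((u : ℤ) * v * (u + v)) ^ 2 := by
    have hv' : (v : ℤ) = -3 * x - 2 * u := by linarith
    rw [hA, hB, hv', hy]
    ring
  have hupos : (0 : ℤ) < u := by exact_mod_cast hu0
  have hvpos : (0 : ℤ) < v := by exact_mod_cast hv0
  have hne : 4 * c.1 ^ 3 + 27 * c.2 ^ 2 ≠ 0 := by
    rw [hdisc]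
    have h1 : (u : ℤ) * v * (u + v) ≠ 0 := by positivity
    exact neg_ne_zero.2 (pow_ne_zero 2 h1)
  have hmod : u ≡ v [MOD 3] := by
    unfold Nat.ModEq
    omega
  have hT : HasT 2 (Sh c.1 c.2) := by
    refine hasT2 (a := (x : ℚ)) (b := (y : ℚ)) ?_ ?_ ?_ ?_ ?_
    · rw [hA]; push_cast; ring
    · rw [hB]; push_cast; ring
    · have : x ≠ y := by omega
      exact_mod_cast this
    · have : 2 * x + y ≠ 0 := by omega
      exact_mod_cast this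
    · have : x + 2 * y ≠ 0 := by omega
      exact_mod_cast this
  have hmin : (∀ p : ℕ, p.Prime → ¬ ((p : ℤ) ^ 4 ∣ c.1 ∧ (p : ℤ) ^ 6 ∣ c.2)) ↔
      (¬ (27 ∣ 2 * u + v ∧ 9 ∣ u) ∧ ∀ p : ℕ, p.Prime → p ≠ 3 → ¬ (p ^ 2 ∣ u ∧ p ^ 2 ∣ v)) := by
    have h3 : ∀ p : ℕ, p.Prime → (((p : ℤ) ^ 4 ∣ c.1 ∧ (p : ℤ) ^ 6 ∣ c.2) ↔
        ((p : ℤ) ^ 2 ∣ x ∧ (p : ℤ) ^ 2 ∣ y)) := by
      intro p hp
      rw [hA, hB]
      exact dvd_iff hp
    constructor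
    · intro hall
      refine ⟨?_, fun p hp hp3 => ?_⟩
      · rw [← dvd_iff_three hx hy]
        have h4 := hall 3 Nat.prime_three
        rw [h3 3 Nat.prime_three] at h4
        exact_mod_cast h4
      · rw [← dvd_iff_ne hp hp3 hx hy, ← h3 p hp]
        exact hall p hp
    · rintro ⟨k1, k2⟩ p hp
      rw [h3 p hp]
      by_cases hp3 : p = 3
      · subst hp3
        rw [← dvd_iff_three hx hy] at k1
        exact_mod_cast k1
      · rw [dvd_iff_ne hp hp3 hx hy]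
        exact k2 p hp hp3
  unfold Cv Fu Rg Lo
  simp only [mem_filter, mem_product, mem_Icc]
  constructor
  · rintro ⟨-, -, k1, -, k2, -⟩
    have k3 := hht.1 k1
    have k4 : u ≤ u ^ 2 := Nat.le_self_pow (by norm_num) u
    have k5 : v ≤ v ^ 2 := Nat.le_self_pow (by norm_num) v
    have k6 : 0 ≤ u * v := Nat.zero_le _
    obtain ⟨k7, k8⟩ := hmin.1 k2
    exact ⟨⟨⟨⟨hu0, by omega⟩, hv0, by omega⟩, k3⟩, hmod, k7, k8⟩
  · rintro ⟨⟨-, k3⟩, -, k7, k8⟩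
    have k1 := hht.2 k3
    have k2 := hmin.2 ⟨k7, k8⟩
    have hB2 : 27 * c.2 ^ 2 ≤ (H : ℤ) := by
      have h5 : 0 ≤ ((u : ℤ) * v * (u + v)) ^ 2 := sq_nonneg _
      have h6 : |c.1| ^ 3 = -c.1 ^ 3 := by
        rw [hAabs, hA]
        ring
      rw [h6] at k1
      linarith
    have b1 : |c.1| ≤ H := by
      have h1 := Pool.Agent.W29.RT.abs_le_cube c.1
      have h2 : 0 ≤ |c.1| := abs_nonneg _
      linarith
    have b2 : |c.2| ≤ H := by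
      have h1 := Pool.Agent.W29.RT.abs_le_sq c.2
      have h2 : 0 ≤ c.2 ^ 2 := sq_nonneg _
      linarith
    exact ⟨⟨abs_le.1 b1, abs_le.1 b2⟩, hne, k1, hB2, k2, hT⟩

/-- the coordinates -/
noncomputable def G (c : ℤ × ℤ) : ℕ × ℕ :=
  if h : ∃ e, Rts3 c e then ((h.choose 1 - h.choose 0).toNat, (h.choose 2 - h.choose 1).toNat)
  else (0, 0)

theorem G_spec {c : ℤ × ℤ} {e : Fin 3 → ℤ} (h : Rts3 c e) :
    e 1 - e 0 = ((G c).1 : ℤ) ∧ e 2 - e 1 = ((G c).2 : ℤ) := by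
  have h' : ∃ e, Rts3 c e := ⟨e, h⟩
  have h1 : G c = ((e 1 - e 0).toNat, (e 2 - e 1).toNat) := by
    unfold G
    rw [dif_pos h', rts_unique h'.choose_spec h]
  obtain ⟨h2, h3, -⟩ := h
  rw [h1]
  constructor
  · show e 1 - e 0 = ((e 1 - e 0).toNat : ℤ)
    omega
  · show e 2 - e 1 = ((e 2 - e 1).toNat : ℤ)
    omega

theorem rts_Cv {c : ℤ × ℤ} {H : ℕ} (hc : c ∈ Cv 2 H) : ∃ e, Rts3 c e := by
  unfold Cv at hc
  simp only [mem_filter] at hc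
  obtain ⟨-, hD, -, -, -, hT⟩ := hc
  exact exists_rts hD hT

end GL8

open GL8 in
theorem bij : ∃ G : ℤ × ℤ → ℕ × ℕ, ∀ H : ℕ,
    Set.BijOn G (Cv 2 H : Set (ℤ × ℤ)) (Fu H : Set (ℕ × ℕ)) ∧
    ∀ c ∈ Cv 2 H, ∃ e : Fin 3 → ℤ, Rts3 c e ∧ e 1 - e 0 = ((G c).1 : ℤ) ∧
      e 2 - e 1 = ((G c).2 : ℤ) := by
  refine ⟨GL8.G, fun H => ⟨⟨?_, ?_, ?_⟩, ?_⟩⟩
  · intro c hc
    rw [Finset.mem_coe] at hc ⊢
    obtain ⟨e, he⟩ := rts_Cv hc
    obtain ⟨h1, h2⟩ := G_spec he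
    exact (mem_iff he h1 h2 H).1 hc
  · intro c hc c' hc' hcc
    rw [Finset.mem_coe] at hc hc'
    obtain ⟨e, he⟩ := rts_Cv hc
    obtain ⟨e', he'⟩ := rts_Cv hc'
    obtain ⟨h1, h2⟩ := G_spec he
    obtain ⟨h1', h2'⟩ := G_spec he'
    rw [← hcc] at h1' h2'
    obtain ⟨s, hA, hB⟩ := vieta he
    obtain ⟨s', hA', hB'⟩ := vieta he'
    have e0 : e 0 = e' 0 := by linarith
    have e1 : e 1 = e' 1 := by linarith
    refine Prod.ext ?_ ?_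
    · rw [hA, hA', e0, e1]
    · rw [hB, hB', e0, e1]
  · rintro ⟨u, v⟩ ht
    rw [Finset.mem_coe] at ht
    have ht' := ht
    unfold Fu Rg Lo at ht'
    simp only [mem_filter, mem_product, mem_Icc] at ht'
    obtain ⟨⟨⟨⟨hu, -⟩, hv, -⟩, -⟩, hmod, -, -⟩ := ht'
    unfold Nat.ModEq at hmod
    obtain ⟨x, hx⟩ : ∃ x : ℤ, 3 * x = -(2 * (u : ℤ) + v) := by
      refine ⟨-((2 * (u : ℤ) + v) / 3), ?_⟩
      omega
    set e : Fin 3 → ℤ := ![x, x + u, x + u + v] with he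
    have h01 : e 0 < e 1 := by
      show x < x + u
      omega
    have h12 : e 1 < e 2 := by
      show x + u < x + u + v
      omega
    have hs : e 0 + e 1 + e 2 = 0 := by
      show x + (x + u) + (x + u + v) = 0
      linarith
    have hr := rts_of h01 h12 hs
    have hdu : e 1 - e 0 = (u : ℤ) := by
      show x + u - x = (u : ℤ)
      ring
    have hdv : e 2 - e 1 = (v : ℤ) := by
      show x + u + v - (x + u) = (v : ℤ)
      ring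
    refine ⟨_, (Finset.mem_coe.2 ((mem_iff hr hdu hdv H).2 ht)), ?_⟩
    obtain ⟨k1, k2⟩ := G_spec hr
    refine Prod.ext ?_ ?_
    · have : (((GL8.G (-(e 0 ^ 2 + e 0 * e 1 + e 1 ^ 2), e 0 * e 1 * (e 0 + e 1))).1 : ℕ) : ℤ) =
          (u : ℤ) := by rw [← k1, hdu]
      exact_mod_cast this
    · have : (((GL8.G (-(e 0 ^ 2 + e 0 * e 1 + e 1 ^ 2), e 0 * e 1 * (e 0 + e 1))).2 : ℕ) : ℤ) =
          (v : ℤ) := by rw [← k2, hdv]
      exact_mod_cast this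
  · intro c hc
    obtain ⟨e, he⟩ := rts_Cv hc
    exact ⟨e, he, G_spec he⟩

end Pool.Agent.H514.GL
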