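import Pool.Agent.H514.GL.Defs

/-! Project GL: local functions and their mean values. -/

set_option autoImplicit false

namespace Pool.Agent.H514.GL

open Finset

/-- the statement of GL-1 -/
def Lat (C : ℝ) : Prop := 0 ≤ C ∧ ∀ R m a b : ℕ, 1 ≤ R → 1 ≤ m →
    |((Rc R m a b).card : ℝ) - (Rg R).card / (m : ℝ) ^ 2| ≤ C * (Real.sqrt R / m + 1)

/-- a local function modulo `p` -/
structure Lf (p : ℕ) (g : ℕ × ℕ → ℂ) (η : ℝ) : Prop where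
  mod : ∀ s t : ℕ × ℕ, s.1 ≡ t.1 [MOD p] → s.2 ≡ t.2 [MOD p] → g s = g t
  zero : ∀ t : ℕ × ℕ, ¬ p ∣ t.1 * t.2 * (t.1 + t.2) → g t = 0
  bound : ∀ t : ℕ × ℕ, ‖g t‖ ≤ η

/-- the mean value modulo `p` -/
noncomputable def mn (p : ℕ) (g : ℕ × ℕ → ℂ) : ℂ :=
  (∑ s ∈ range p ×ˢ range p, g s) / (p : ℂ) ^ 2

/-- the function `exp (i x θ·y) - 1` -/
noncomputable def fx (θ : Fin 3 → ℝ) (x : ℝ) (y : Fin 3 → ℝ) : ℂ :=
  Complex.exp (Complex.I * ((x * dt θ y : ℝ) : ℂ)) - 1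

/-- the local mean value -/
noncomputable def ml (θ : Fin 3 → ℝ) (x : ℝ) (p : ℕ) : ℂ :=
  ((((p : ℂ) - 1) / 2) * ∑ i : Fin 3, (fx θ x (fun j => if j = i then 0 else 1) +
        fx θ x (fun j => if j = i then -1 else 1)) + fx θ x (fun _ => 1)) / (p : ℂ) ^ 2

end Pool.Agent.H514.GL
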