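import Mathlib

/-!
GL-2. Truncated expansion of a product of complex numbers of modulus at most one.
-/

set_option autoImplicit false

namespace Pool.Agent.H514.GL

open Finset

namespace GL2

theorem filt_le {M : Type} [AddCommMonoid M] (P : Finset ℕ) (K : ℕ) (F : Finset ℕ → M) :
    ∑ D ∈ P.powerset.filter (fun D => D.card ≤ K), F D =
      ∑ D ∈ P.powerset, if D.card ≤ K then F D else 0 := by
  rw [sum_filter]

theorem filt_eq {M : Type} [AddCommMonoid M] (P : Finset ℕ) (K : ℕ) (F : Finset ℕ → M) :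
    ∑ D ∈ P.powersetCard K, F D = ∑ D ∈ P.powerset, if D.card = K then F D else 0 := by
  rw [powersetCard_eq_filter, sum_filter]

theorem le_insert {P : Finset ℕ} {a : ℕ} (ha : a ∉ P) (g : ℕ → ℂ) (K : ℕ) :
    ∑ D ∈ (insert a P).powerset.filter (fun D => D.card ≤ K + 1), ∏ p ∈ D, g p =
      ∑ D ∈ P.powerset.filter (fun D => D.card ≤ K + 1), ∏ p ∈ D, g p +
        g a * ∑ D ∈ P.powerset.filter (fun D => D.card ≤ K), ∏ p ∈ D, g p := by
  rw [filt_le, filt_le, filt_le, sum_powerset_insert ha, mul_sum]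
  refine congrArg₂ (· + ·) rfl (sum_congr rfl fun D hD => ?_)
  have haD : a ∉ D := fun h => ha (mem_powerset.1 hD h)
  rw [card_insert_of_notMem haD, prod_insert haD]
  by_cases h : D.card ≤ K
  · rw [if_pos h, if_pos (by omega)]
  · rw [if_neg h, if_neg (by omega), mul_zero]

theorem le_insert0 {P : Finset ℕ} {a : ℕ} (ha : a ∉ P) (g : ℕ → ℂ) :
    ∑ D ∈ (insert a P).powerset.filter (fun D => D.card ≤ 0), ∏ p ∈ D, g p =
      ∑ D ∈ P.powerset.filter (fun D => D.card ≤ 0), ∏ p ∈ D, g p := by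
  rw [filt_le, filt_le, sum_powerset_insert ha]
  rw [show (∑ D ∈ P.powerset, if (insert a D).card ≤ 0 then ∏ p ∈ insert a D, g p else 0) = 0
    from sum_eq_zero fun D hD => ?_, add_zero]
  have haD : a ∉ D := fun h => ha (mem_powerset.1 hD h)
  rw [card_insert_of_notMem haD, if_neg (by omega)]

theorem eq_insert {P : Finset ℕ} {a : ℕ} (ha : a ∉ P) (x : ℕ → ℝ) (k : ℕ) :
    ∑ D ∈ (insert a P).powersetCard (k + 1), ∏ p ∈ D, x p =
      ∑ D ∈ P.powersetCard (k + 1), ∏ p ∈ D, x p +
        x a * ∑ D ∈ P.powersetCard k, ∏ p ∈ D, x p := by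
  rw [filt_eq, filt_eq, filt_eq, sum_powerset_insert ha, mul_sum]
  refine congrArg₂ (· + ·) rfl (sum_congr rfl fun D hD => ?_)
  have haD : a ∉ D := fun h => ha (mem_powerset.1 hD h)
  rw [card_insert_of_notMem haD, prod_insert haD]
  by_cases h : D.card = k
  · rw [if_pos h, if_pos (by omega)]
  · rw [if_neg h, if_neg (by omega), mul_zero]

theorem bern {S x : ℝ} (hS : 0 ≤ S) (hx : 0 ≤ x) (n : ℕ) :
    S ^ (n + 1) + (n + 1) * x * S ^ n ≤ (S + x) ^ (n + 1) := by
  induction n with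
  | zero => simp
  | succ n ih =>
    have h1 : (S + x) * (S ^ (n + 1) + (n + 1) * x * S ^ n) ≤ (S + x) * (S + x) ^ (n + 1) :=
      mul_le_mul_of_nonneg_left ih (by positivity)
    have h2 : 0 ≤ ((n : ℝ) + 1) * x ^ 2 * S ^ n := by positivity
    have h3 : (S + x) * (S + x) ^ (n + 1) = (S + x) ^ (n + 1 + 1) := by ring
    have h4 : (S + x) * (S ^ (n + 1) + (n + 1) * x * S ^ n) =
        S ^ (n + 1 + 1) + (((n + 1 : ℕ) : ℝ) + 1) * x * S ^ (n + 1) +
          ((n : ℝ) + 1) * x ^ 2 * S ^ n := by push_cast; ring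
    linarith

end GL2

open GL2

theorem expand (P : Finset ℕ) (g : ℕ → ℂ) (h : ∀ p ∈ P, ‖1 + g p‖ ≤ 1) (K : ℕ) :
    ‖∏ p ∈ P, (1 + g p) - ∑ D ∈ P.powerset.filter (fun D => D.card ≤ K), ∏ p ∈ D, g p‖ ≤
      ∑ D ∈ P.powersetCard (K + 1), ∏ p ∈ D, ‖g p‖ := by
  induction P using Finset.induction_on generalizing K with
  | empty =>
    have h1 : ∑ D ∈ (∅ : Finset ℕ).powerset.filter (fun D => D.card ≤ K), ∏ p ∈ D, g p = 1 := by
      rw [filt_le, powerset_empty, sum_singleton, card_empty, if_pos (Nat.zero_le _), prod_empty]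
    rw [h1, prod_empty, sub_self, norm_zero]
    exact sum_nonneg fun D _ => prod_nonneg fun p _ => norm_nonneg _
  | insert a P ha ih =>
    have hP : ∀ p ∈ P, ‖1 + g p‖ ≤ 1 := fun p hp => h p (mem_insert_of_mem hp)
    rw [prod_insert ha, eq_insert ha (fun p => ‖g p‖)]
    rcases K with _ | K
    · rw [le_insert0 ha]
      have h1 : (1 + g a) * ∏ p ∈ P, (1 + g p) -
          ∑ D ∈ P.powerset.filter (fun D => D.card ≤ 0), ∏ p ∈ D, g p =
          (∏ p ∈ P, (1 + g p) - ∑ D ∈ P.powerset.filter (fun D => D.card ≤ 0), ∏ p ∈ D, g p) +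
            g a * ∏ p ∈ P, (1 + g p) := by ring
      rw [h1]
      refine (norm_add_le _ _).trans (add_le_add (ih hP 0) ?_)
      rw [norm_mul, powersetCard_zero, sum_singleton, prod_empty]
      refine mul_le_mul_of_nonneg_left ?_ (norm_nonneg _)
      rw [norm_prod]
      exact prod_le_one (fun p _ => norm_nonneg _) hP
    · rw [le_insert ha]
      have h1 : (1 + g a) * ∏ p ∈ P, (1 + g p) -
          (∑ D ∈ P.powerset.filter (fun D => D.card ≤ K + 1), ∏ p ∈ D, g p +
            g a * ∑ D ∈ P.powerset.filter (fun D => D.card ≤ K), ∏ p ∈ D, g p) =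
          (∏ p ∈ P, (1 + g p) -
            ∑ D ∈ P.powerset.filter (fun D => D.card ≤ K + 1), ∏ p ∈ D, g p) +
          g a * (∏ p ∈ P, (1 + g p) -
            ∑ D ∈ P.powerset.filter (fun D => D.card ≤ K), ∏ p ∈ D, g p) := by ring
      rw [h1]
      refine (norm_add_le _ _).trans (add_le_add (ih hP (K + 1)) ?_)
      rw [norm_mul]
      exact mul_le_mul_of_nonneg_left (ih hP K) (norm_nonneg _)

/-- the elementary symmetric function: `e_k(x) ≤ (∑ x)^k / k!` -/
theorem esymm_le (P : Finset ℕ) (x : ℕ → ℝ) (h : ∀ p ∈ P, 0 ≤ x p) (k : ℕ) :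
    ∑ D ∈ P.powersetCard k, ∏ p ∈ D, x p ≤ (∑ p ∈ P, x p) ^ k / k.factorial := by
  induction P using Finset.induction_on generalizing k with
  | empty =>
    rcases k with _ | k
    · simp
    · rw [powersetCard_eq_empty.2 (by simp), sum_empty, sum_empty]
      simp
  | insert a P ha ih =>
    have hP : ∀ p ∈ P, 0 ≤ x p := fun p hp => h p (mem_insert_of_mem hp)
    have hxa : 0 ≤ x a := h a (mem_insert_self _ _)
    have hS : 0 ≤ ∑ p ∈ P, x p := sum_nonneg hP
    rcases k with _ | k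
    · simp
    · rw [eq_insert ha, sum_insert ha, add_comm (x a)]
      set S := ∑ p ∈ P, x p with hSdef
      have hk : (0 : ℝ) < (k.factorial : ℝ) := by exact_mod_cast k.factorial_pos
      have hk1 : (0 : ℝ) < ((k + 1).factorial : ℝ) := by exact_mod_cast (k + 1).factorial_pos
      have h1 := ih hP (k + 1)
      have h2 : x a * ∑ D ∈ P.powersetCard k, ∏ p ∈ D, x p ≤ x a * (S ^ k / k.factorial) :=
        mul_le_mul_of_nonneg_left (ih hP k) hxa
      have h3 := bern hS hxa k
      have h4 : x a * (S ^ k / k.factorial) = (k + 1) * x a * S ^ k / (k + 1).factorial := by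
        rw [Nat.factorial_succ]
        push_cast
        field_simp
      rw [h4] at h2
      calc _ ≤ S ^ (k + 1) / (k + 1).factorial + (k + 1) * x a * S ^ k / (k + 1).factorial :=
            add_le_add h1 h2
        _ = (S ^ (k + 1) + (k + 1) * x a * S ^ k) / (k + 1).factorial := by rw [add_div]
        _ ≤ _ := div_le_div_of_nonneg_right h3 hk1.le

end Pool.Agent.H514.GL
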