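import Pool.Agent.H514.GL.Defs

/-!
GL-7. The parameters `Rh H`, `ll H = log log H`, `kk H = ⌊ll H⌋`, `zz H = ⌊(Rh H) ^ (1 / (8 (kk H + 1)))⌋`.

PROOFS. `rh_iff`: `Nat.findGreatest` and monotonicity (`4 n³ ≤ 27 H` implies `n ≤ 27 H`). `rh_bd`: the largest `n` with
`4 n³ ≤ 27 H` satisfies `4 (n + 1)³ > 27 H`, so `n + 1 > H^(1/3)`, and `n³ ≤ 27 H / 4`, `n ≤ 3 H^(1/3)`.
`ll_rh`: so `log (Rh H) = (1 / 3) log H + O(1)`.
`zz_pow`: clear (`x = Rh ^ (1 / (8 (k + 1)))`, `⌊x⌋ ^ (k + 1) ≤ x ^ (k + 1) = Rh ^ (1 / 8)`).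
`zz_tend`: `log x = log (Rh H) / (8 (kk H + 1)) ≥ c log H / (1 + log log H) → ∞`.
`zz_ll`: `log log ⌊x⌋ = log (log x + O(1)) = log log Rh - log (8 (kk + 1)) + o(1) = ll H - O(log (2 + ll H))`, divided
by `√(ll H)` this tends to `0`.
`err1`: `S ≤ A √L`, `K + 1 > L`, so `S ^ (K + 1) / (K + 1)! ≤ (e A √L / (K + 1)) ^ (K + 1) ≤ (e A / √L) ^ (K + 1) → 0`
(`n! ≥ (n / e) ^ n`; alternatively for `n ≥ 1` and any `B > 0`, `x ^ n / n! ≤ ...`).
`err2`: `3 ^ kk (zz + 1) ^ kk ≤ 3 ^ kk 2 ^ kk zz ^ kk ≤ 6 ^ kk Rh ^ (1 / 8) ≤ (log H) ^ 2 Rh ^ (1 / 8)` for `zz ≥ 1`, and this is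
`o(√Rh)`.
-/

set_option autoImplicit false

namespace Pool.Agent.H514.GL

open Finset Filter

theorem rh_iff {n H : ℕ} : n ≤ Rh H ↔ 4 * n ^ 3 ≤ 27 * H := by
  constructor
  · intro h
    have h1 : 4 * (Rh H) ^ 3 ≤ 27 * H :=
      Nat.findGreatest_spec (P := fun n => 4 * n ^ 3 ≤ 27 * H) (m := 0) (Nat.zero_le _)
        (by simp)
    have h2 : n ^ 3 ≤ (Rh H) ^ 3 := Nat.pow_le_pow_left h 3
    omega
  · intro h
    refine Nat.le_findGreatest ?_ h
    have h3 : n ≤ n ^ 3 := Nat.le_self_pow (by norm_num) n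
    omega

theorem rh_le (H : ℕ) : Rh H ≤ H := by
  by_contra hc
  have h1 : H + 1 ≤ Rh H := by omega
  have h2 := rh_iff.1 h1
  rcases Nat.eq_zero_or_pos H with h0 | h0
  · subst h0
    norm_num at h2
  · have h3 : H ≤ H ^ 3 := Nat.le_self_pow (by norm_num) H
    have h4 : H ≤ H ^ 2 := Nat.le_self_pow (by norm_num) H
    have h5 : 4 * (H + 1) ^ 3 = 4 * H ^ 3 + 12 * H ^ 2 + 12 * H + 4 := by ring
    omega

theorem rh_tend : Tendsto Rh atTop atTop := by
  refine tendsto_atTop.2 fun b => ?_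
  filter_upwards [eventually_ge_atTop (4 * b ^ 3)] with H hH
  exact rh_iff.2 (by omega)

theorem ll_tend : Tendsto ll atTop atTop :=
  Real.tendsto_log_atTop.comp (Real.tendsto_log_atTop.comp tendsto_natCast_atTop_atTop)

theorem rh_bd0 (H : ℕ) (hH : 8 ≤ H) :
    1 / 2 * (H : ℝ) ^ (1 / 3 : ℝ) ≤ Rh H ∧ (Rh H : ℝ) ≤ 3 * (H : ℝ) ^ (1 / 3 : ℝ) := by
  have hH0 : (0 : ℝ) ≤ (H : ℝ) := Nat.cast_nonneg H
  set x : ℝ := (H : ℝ) ^ (1 / 3 : ℝ) with hx
  have hx0 : 0 ≤ x := Real.rpow_nonneg hH0 _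
  have hx3 : x ^ 3 = (H : ℝ) := by
    rw [hx, ← Real.rpow_natCast, ← Real.rpow_mul hH0]
    norm_num
  have h8 : (8 : ℝ) ≤ (H : ℝ) := by exact_mod_cast hH
  have hx2 : 2 ≤ x := by
    by_contra hc
    push Not at hc
    have : x ^ 3 < 2 ^ 3 := pow_lt_pow_left₀ hc hx0 (by norm_num)
    rw [hx3] at this
    linarith
  constructor
  · have h1 : ¬ (Rh H + 1 ≤ Rh H) := by omega
    rw [rh_iff] at h1
    push Not at h1
    have h2 : (27 : ℝ) * (H : ℝ) < 4 * ((Rh H : ℝ) + 1) ^ 3 := by exact_mod_cast h1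
    have h3 : x < (Rh H : ℝ) + 1 := by
      refine lt_of_pow_lt_pow_left₀ 3 (by positivity) ?_
      rw [hx3]
      nlinarith
    linarith
  · have h1 : 4 * (Rh H) ^ 3 ≤ 27 * H := rh_iff.1 le_rfl
    have h2 : (4 : ℝ) * (Rh H : ℝ) ^ 3 ≤ 27 * (H : ℝ) := by exact_mod_cast h1
    refine le_of_pow_le_pow_left₀ (n := 3) (by norm_num) (by positivity) ?_
    have : (3 * x) ^ 3 = 27 * (H : ℝ) := by rw [mul_pow, hx3]; norm_num
    rw [this]
    have h3 : (0 : ℝ) ≤ (Rh H : ℝ) ^ 3 := by positivity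
    linarith

theorem rh_bd : ∃ c C : ℝ, 0 < c ∧ ∀ᶠ H : ℕ in atTop,
    c * (H : ℝ) ^ (1 / 3 : ℝ) ≤ Rh H ∧ (Rh H : ℝ) ≤ C * (H : ℝ) ^ (1 / 3 : ℝ) := by
  refine ⟨1 / 2, 3, by norm_num, ?_⟩
  filter_upwards [eventually_ge_atTop 8] with H hH
  exact rh_bd0 H hH

theorem rh_log (H : ℕ) (hH : 64 ≤ H) : 1 / 6 * Real.log H ≤ Real.log (Rh H) ∧
    Real.log (Rh H) ≤ Real.log H := by
  have h64 : (64 : ℝ) ≤ (H : ℝ) := by exact_mod_cast hH
  have hH0 : (0 : ℝ) < (H : ℝ) := by linarith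
  obtain ⟨h1, h2⟩ := rh_bd0 H (by omega)
  set y : ℝ := (H : ℝ) ^ (1 / 6 : ℝ) with hy
  have hy0 : 0 < y := Real.rpow_pos_of_pos hH0 _
  have hy6 : y ^ 6 = (H : ℝ) := by
    rw [hy, ← Real.rpow_natCast, ← Real.rpow_mul hH0.le]
    norm_num
  have hy2 : y ^ 2 = (H : ℝ) ^ (1 / 3 : ℝ) := by
    rw [hy, ← Real.rpow_natCast, ← Real.rpow_mul hH0.le]
    norm_num
  have hyy : 2 ≤ y := by
    by_contra hc
    push Not at hc
    have : y ^ 6 < 2 ^ 6 := pow_lt_pow_left₀ hc hy0.le (by norm_num)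
    rw [hy6] at this
    linarith
  have h3 : y ≤ (Rh H : ℝ) := by
    rw [← hy2] at h1
    nlinarith
  constructor
  · have h4 : Real.log y ≤ Real.log (Rh H) := Real.log_le_log hy0 h3
    rw [hy, Real.log_rpow hH0] at h4
    exact h4
  · refine Real.log_le_log (by linarith) ?_
    exact_mod_cast rh_le H

theorem log_ev (B : ℝ) : ∀ᶠ H : ℕ in atTop, B ≤ Real.log H :=
  (Real.tendsto_log_atTop.comp tendsto_natCast_atTop_atTop).eventually_ge_atTop B

theorem ll_rh : ∃ C : ℝ, ∀ᶠ H : ℕ in atTop, |Real.log (Real.log (Rh H)) - ll H| ≤ C := by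
  refine ⟨Real.log 6, ?_⟩
  filter_upwards [eventually_ge_atTop 64, log_ev 1] with H hH hl
  obtain ⟨h1, h2⟩ := rh_log H hH
  have hl0 : 0 < Real.log H := by linarith
  have h3 : Real.log (1 / 6 * Real.log H) ≤ Real.log (Real.log (Rh H)) :=
    Real.log_le_log (by positivity) h1
  have h4 : Real.log (Real.log (Rh H)) ≤ Real.log (Real.log H) :=
    Real.log_le_log (by linarith) h2
  rw [Real.log_mul (by norm_num) hl0.ne', one_div, Real.log_inv] at h3
  have h6 : 0 ≤ Real.log 6 := Real.log_nonneg (by norm_num)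
  rw [abs_le]
  unfold ll
  constructor <;> linarith

theorem zz_pow (H : ℕ) (hH : 1 ≤ Rh H) : ((zz H : ℝ)) ^ (kk H + 1) ≤ ((Rh H : ℕ) : ℝ) ^ (1 / 8 : ℝ) := by
  have h1 : (1 : ℝ) ≤ (Rh H : ℝ) := by exact_mod_cast hH
  have h0 : (0 : ℝ) ≤ (Rh H : ℝ) := by linarith
  have hk : (0 : ℝ) < (kk H : ℝ) + 1 := by positivity
  have h2 : (zz H : ℝ) ≤ ((Rh H : ℕ) : ℝ) ^ (1 / (8 * ((kk H : ℝ) + 1))) :=
    Nat.floor_le (Real.rpow_nonneg h0 _)
  calc ((zz H : ℝ)) ^ (kk H + 1)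
      ≤ (((Rh H : ℕ) : ℝ) ^ (1 / (8 * ((kk H : ℝ) + 1)))) ^ (kk H + 1) :=
        pow_le_pow_left₀ (by positivity) h2 _
    _ = ((Rh H : ℕ) : ℝ) ^ (1 / 8 : ℝ) := by
        rw [← Real.rpow_natCast, ← Real.rpow_mul h0]
        congr 1
        push_cast
        field_simp

/-- the logarithm of the argument of the floor in `zz` -/
noncomputable def uu (H : ℕ) : ℝ := Real.log (Rh H) / (8 * ((kk H : ℝ) + 1))

theorem zz_uu (H : ℕ) (hH : 1 ≤ Rh H) : zz H = ⌊Real.exp (uu H)⌋₊ := by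
  have h1 : (0 : ℝ) < (Rh H : ℝ) := by exact_mod_cast hH
  unfold zz uu
  rw [Real.rpow_def_of_pos h1]
  congr 2
  ring

theorem kk_le (H : ℕ) (h : 0 ≤ ll H) : (kk H : ℝ) ≤ ll H := Nat.floor_le h

theorem uu_ge : ∀ᶠ H : ℕ in atTop, 1 / 96 * Real.sqrt (Real.log H) ≤ uu H := by
  filter_upwards [eventually_ge_atTop 64, log_ev 1, ll_tend.eventually_ge_atTop 0] with H hH hl h0
  obtain ⟨h1, h2⟩ := rh_log H hH
  have hl0 : 0 < Real.log H := by linarith
  set s : ℝ := Real.sqrt (Real.log H) with hs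
  have hs1 : 1 ≤ s := Real.one_le_sqrt.2 hl
  have hss : s * s = Real.log H := Real.mul_self_sqrt hl0.le
  have h3 : ll H + 1 ≤ 2 * s := by
    have h4 : Real.log s ≤ s - 1 := Real.log_le_sub_one_of_pos (by linarith)
    have h5 : ll H = Real.log s + Real.log s := by
      unfold ll
      rw [← hss, Real.log_mul (by positivity) (by positivity)]
    linarith
  have h6 := kk_le H h0
  unfold uu
  rw [le_div_iff₀ (by positivity)]
  calc 1 / 96 * s * (8 * ((kk H : ℝ) + 1)) ≤ 1 / 96 * s * (8 * (2 * s)) := by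
        gcongr
        linarith
    _ = 1 / 6 * Real.log H := by rw [← hss]; ring
    _ ≤ _ := h1

theorem uu_tend : Tendsto uu atTop atTop := by
  refine tendsto_atTop_mono' _ uu_ge ?_
  refine Tendsto.const_mul_atTop (by norm_num) ?_
  exact Real.tendsto_sqrt_atTop.comp (Real.tendsto_log_atTop.comp tendsto_natCast_atTop_atTop)

theorem zz_tend : Tendsto zz atTop atTop := by
  have h1 : Tendsto (fun H => ⌊Real.exp (uu H)⌋₊) atTop atTop :=
    tendsto_nat_floor_atTop.comp (Real.tendsto_exp_atTop.comp uu_tend)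
  refine h1.congr' ?_
  filter_upwards [rh_tend.eventually_ge_atTop 1] with H hH
  exact (zz_uu H hH).symm

theorem log_zz : ∀ᶠ H : ℕ in atTop, 1 / 2 * uu H ≤ Real.log (zz H) ∧ Real.log (zz H) ≤ uu H := by
  filter_upwards [rh_tend.eventually_ge_atTop 1, uu_tend.eventually_ge_atTop 2] with H hH hu
  rw [zz_uu H hH]
  set e : ℝ := Real.exp (uu H) with he
  have he3 : 3 ≤ e := by
    have := Real.add_one_le_exp (uu H)
    linarith
  have h1 : (⌊e⌋₊ : ℝ) ≤ e := Nat.floor_le (by linarith)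
  have h2 : e < (⌊e⌋₊ : ℝ) + 1 := Nat.lt_floor_add_one e
  have hpos : (0 : ℝ) < (⌊e⌋₊ : ℝ) := by linarith
  constructor
  · have h3 : e ≤ (⌊e⌋₊ : ℝ) ^ 2 := by nlinarith
    have h4 : Real.log e ≤ Real.log ((⌊e⌋₊ : ℝ) ^ 2) := Real.log_le_log (by linarith) h3
    rw [he, Real.log_exp, ← he, Real.log_pow] at h4
    push_cast at h4
    linarith
  · have h4 : Real.log (⌊e⌋₊ : ℝ) ≤ Real.log e := Real.log_le_log hpos h1
    rwa [he, Real.log_exp, ← he] at h4

theorem zz_ll : Tendsto (fun H => (Real.log (Real.log (zz H)) - ll H) / Real.sqrt (ll H)) atTop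
    (nhds 0) := by
  obtain ⟨C, hC⟩ := ll_rh
  have key : ∀ᶠ H : ℕ in atTop, ‖(Real.log (Real.log (zz H)) - ll H) / Real.sqrt (ll H)‖ ≤
      ((Real.log 2 + C + Real.log 8 + Real.log 2) + Real.log (ll H)) / Real.sqrt (ll H) := by
    filter_upwards [hC, log_zz, uu_tend.eventually_ge_atTop 2, ll_tend.eventually_ge_atTop 1,
      eventually_ge_atTop 64, log_ev 1] with H h1 h2 h3 h4 h5 h6
    have hs : 0 < Real.sqrt (ll H) := Real.sqrt_pos.2 (by linarith)
    rw [Real.norm_eq_abs, abs_div, abs_of_pos hs]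
    refine div_le_div_of_nonneg_right ?_ hs.le
    obtain ⟨r1, -⟩ := rh_log H h5
    have hR : 0 < Real.log (Rh H) := by linarith
    have hk : (0 : ℝ) < (kk H : ℝ) + 1 := by positivity
    have hu : Real.log (uu H) = Real.log (Real.log (Rh H)) - Real.log 8 -
        Real.log ((kk H : ℝ) + 1) := by
      unfold uu
      rw [Real.log_div hR.ne' (by positivity), Real.log_mul (by norm_num) hk.ne']
      ring
    have a1 : Real.log (1 / 2 * uu H) ≤ Real.log (Real.log (zz H)) :=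
      Real.log_le_log (by linarith) h2.1
    have a2 : Real.log (Real.log (zz H)) ≤ Real.log (uu H) :=
      Real.log_le_log (by linarith [h2.1]) h2.2
    rw [Real.log_mul (by norm_num) (by linarith), one_div, Real.log_inv] at a1
    have b1 : 0 ≤ Real.log ((kk H : ℝ) + 1) := Real.log_nonneg (by
      have : (0 : ℝ) ≤ (kk H : ℝ) := by positivity
      linarith)
    have b2 : Real.log ((kk H : ℝ) + 1) ≤ Real.log 2 + Real.log (ll H) := by
      rw [← Real.log_mul (by norm_num) (by linarith)]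
      refine Real.log_le_log hk ?_
      have := kk_le H (by linarith)
      linarith
    have b3 : 0 ≤ Real.log 2 := Real.log_nonneg (by norm_num)
    have b4 : 0 ≤ Real.log 8 := Real.log_nonneg (by norm_num)
    rw [abs_le] at h1 ⊢
    obtain ⟨c1, c2⟩ := h1
    constructor <;> linarith
  refine squeeze_zero_norm' key ?_
  have t1 : Tendsto (fun x : ℝ => ((Real.log 2 + C + Real.log 8 + Real.log 2) + Real.log x) /
      Real.sqrt x) atTop (nhds 0) := by
    have u1 : Tendsto (fun x : ℝ => Real.log x / Real.sqrt x) atTop (nhds 0) := by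
      have := (isLittleO_log_rpow_atTop (r := 1 / 2) (by norm_num)).tendsto_div_nhds_zero
      refine this.congr fun x => ?_
      rw [Real.sqrt_eq_rpow]
    have u2 : Tendsto (fun x : ℝ => (Real.log 2 + C + Real.log 8 + Real.log 2) / Real.sqrt x)
        atTop (nhds 0) := tendsto_const_nhds.div_atTop Real.tendsto_sqrt_atTop
    have u3 := u2.add u1
    rw [add_zero] at u3
    refine u3.congr fun x => ?_
    exact (add_div _ _ _).symm
  exact t1.comp ll_tend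

theorem kk_tend : Tendsto kk atTop atTop := tendsto_nat_floor_atTop.comp ll_tend

theorem err0 (A : ℝ) (hA : 0 ≤ A) :
    Tendsto (fun K : ℕ => (A * Real.sqrt K) ^ K / (K.factorial : ℝ)) atTop (nhds 0) := by
  have h1 : ∀ᶠ K : ℕ in atTop, 2 * (A * Real.exp 1) ≤ Real.sqrt K :=
    (Real.tendsto_sqrt_atTop.comp tendsto_natCast_atTop_atTop).eventually_ge_atTop _
  have h2 : Tendsto (fun K : ℕ => ((1 : ℝ) / 2) ^ K) atTop (nhds 0) :=
    tendsto_pow_atTop_nhds_zero_of_lt_one (by norm_num) (by norm_num)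
  refine squeeze_zero' (Eventually.of_forall fun K => by positivity) ?_ h2
  filter_upwards [h1, eventually_ge_atTop 1] with K hK hK1
  have hf : (0 : ℝ) < (K.factorial : ℝ) := by exact_mod_cast K.factorial_pos
  have hK0 : (0 : ℝ) < (K : ℝ) := by exact_mod_cast hK1
  have hs : 0 < Real.sqrt K := Real.sqrt_pos.2 hK0
  have hss : Real.sqrt K * Real.sqrt K = K := Real.mul_self_sqrt hK0.le
  have h3 : (K : ℝ) ^ K / (K.factorial : ℝ) ≤ Real.exp K :=
    Real.pow_div_factorial_le_exp (K : ℝ) hK0.le K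
  have h4 : Real.exp (K : ℝ) = Real.exp 1 ^ K := by
    rw [← Real.exp_nat_mul]; simp
  have h5 : (A * Real.sqrt K) ^ K / (K.factorial : ℝ) =
      (A / Real.sqrt K) ^ K * ((K : ℝ) ^ K / (K.factorial : ℝ)) := by
    rw [← mul_div_assoc, ← mul_pow]
    congr 2
    rw [div_mul_eq_mul_div, eq_div_iff hs.ne', mul_assoc, hss]
  rw [h5]
  calc (A / Real.sqrt K) ^ K * ((K : ℝ) ^ K / (K.factorial : ℝ))
      ≤ (A / Real.sqrt K) ^ K * Real.exp 1 ^ K := by
        rw [← h4]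
        exact mul_le_mul_of_nonneg_left h3 (by positivity)
    _ = (A * Real.exp 1 / Real.sqrt K) ^ K := by
        rw [← mul_pow]; congr 1; ring
    _ ≤ (1 / 2) ^ K := by
        refine pow_le_pow_left₀ (by positivity) ?_ _
        rw [div_le_iff₀ hs]
        linarith

theorem err1 {S : ℕ → ℝ} {A : ℝ} (hS0 : ∀ᶠ H in atTop, 0 ≤ S H)
    (hS : ∀ᶠ H in atTop, S H ≤ A * Real.sqrt (ll H)) :
    Tendsto (fun H => (S H) ^ (kk H + 1) / ((kk H + 1).factorial : ℝ)) atTop (nhds 0) := by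
  have h1 : Tendsto (fun H : ℕ => kk H + 1) atTop atTop :=
    tendsto_atTop_mono (fun H => Nat.le_succ _) kk_tend
  have h2 := (err0 |A| (abs_nonneg A)).comp h1
  refine squeeze_zero' ?_ ?_ h2
  · filter_upwards [hS0] with H h0
    positivity
  · filter_upwards [hS0, hS] with H h0 h3
    have hf : (0 : ℝ) < ((kk H + 1).factorial : ℝ) := by exact_mod_cast (kk H + 1).factorial_pos
    refine div_le_div_of_nonneg_right ?_ hf.le
    refine pow_le_pow_left₀ h0 ?_ _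
    refine h3.trans ?_
    refine (mul_le_mul_of_nonneg_right (le_abs_self A) (Real.sqrt_nonneg _)).trans ?_
    refine mul_le_mul_of_nonneg_left ?_ (abs_nonneg A)
    refine Real.sqrt_le_sqrt ?_
    have := (Nat.lt_floor_add_one (ll H)).le
    push_cast
    exact this

theorem err2 : Tendsto (fun H => (3 : ℝ) ^ kk H * ((zz H : ℝ) + 1) ^ kk H /
    Real.sqrt ((Rh H : ℕ) : ℝ)) atTop (nhds 0) := by
  have t1 : Tendsto (fun x : ℝ => 36 * (Real.log x ^ (2 : ℝ) / x ^ (3 / 8 : ℝ))) atTop (nhds 0) := by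
    have := (isLittleO_log_rpow_rpow_atTop (s := 3 / 8) 2 (by norm_num)).tendsto_div_nhds_zero
    simpa using this.const_mul 36
  have t2 : Tendsto (fun H : ℕ => ((Rh H : ℕ) : ℝ)) atTop atTop :=
    tendsto_natCast_atTop_atTop.comp rh_tend
  refine squeeze_zero' (Eventually.of_forall fun H => by positivity) ?_ (t1.comp t2)
  filter_upwards [rh_tend.eventually_ge_atTop 1, zz_tend.eventually_ge_atTop 1,
    ll_tend.eventually_ge_atTop 0, eventually_ge_atTop 64, log_ev 1] with H hR hz hl h64 h1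
  have hR1 : (1 : ℝ) ≤ (Rh H : ℝ) := by exact_mod_cast hR
  have hR0 : (0 : ℝ) < (Rh H : ℝ) := by linarith
  have hz1 : (1 : ℝ) ≤ (zz H : ℝ) := by exact_mod_cast hz
  obtain ⟨r1, -⟩ := rh_log H h64
  have hlog0 : 0 < Real.log H := by linarith
  have a1 : (3 : ℝ) ^ kk H * ((zz H : ℝ) + 1) ^ kk H ≤ 6 ^ kk H * (Rh H : ℝ) ^ (1 / 8 : ℝ) := by
    calc (3 : ℝ) ^ kk H * ((zz H : ℝ) + 1) ^ kk H
        ≤ 3 ^ kk H * (2 * (zz H : ℝ)) ^ kk H := by
          gcongr
          linarith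
      _ = 6 ^ kk H * (zz H : ℝ) ^ kk H := by
          rw [mul_pow, ← mul_assoc, ← mul_pow]; norm_num
      _ ≤ 6 ^ kk H * (zz H : ℝ) ^ (kk H + 1) := by
          refine mul_le_mul_of_nonneg_left ?_ (by positivity)
          exact pow_le_pow_right₀ hz1 (Nat.le_succ _)
      _ ≤ _ := by
          gcongr
          exact zz_pow H hR
  have a2 : (6 : ℝ) ^ kk H ≤ (Real.log H) ^ 2 := by
    have e2 : (6 : ℝ) ≤ Real.exp 2 := by
      have h3 : (2.7182818283 : ℝ) < Real.exp 1 := Real.exp_one_gt_d9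
      have h4 : Real.exp 2 = Real.exp 1 * Real.exp 1 := by
        rw [← Real.exp_add]; norm_num
      rw [h4]
      nlinarith
    calc (6 : ℝ) ^ kk H ≤ Real.exp 2 ^ kk H := pow_le_pow_left₀ (by norm_num) e2 _
      _ = Real.exp ((kk H : ℝ) * 2) := by rw [← Real.exp_nat_mul]
      _ ≤ Real.exp (ll H * 2) := by
          refine Real.exp_le_exp.2 ?_
          have := kk_le H hl
          linarith
      _ = (Real.log H) ^ 2 := by
          unfold ll
          rw [mul_two, Real.exp_add, Real.exp_log hlog0]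
          ring
  have a3 : (Real.log H) ^ 2 ≤ 36 * (Real.log (Rh H)) ^ 2 := by nlinarith
  have a4 : (Rh H : ℝ) ^ (1 / 8 : ℝ) / Real.sqrt ((Rh H : ℕ) : ℝ) = 1 / (Rh H : ℝ) ^ (3 / 8 : ℝ) := by
    rw [Real.sqrt_eq_rpow, ← Real.rpow_sub hR0, one_div ((Rh H : ℝ) ^ (3 / 8 : ℝ)),
      ← Real.rpow_neg hR0.le]
    norm_num
  have hsq : 0 < Real.sqrt ((Rh H : ℕ) : ℝ) := Real.sqrt_pos.2 hR0
  have hpw : 0 < (Rh H : ℝ) ^ (1 / 8 : ℝ) := Real.rpow_pos_of_pos hR0 _
  have hpw3 : 0 < (Rh H : ℝ) ^ (3 / 8 : ℝ) := Real.rpow_pos_of_pos hR0 _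
  calc (3 : ℝ) ^ kk H * ((zz H : ℝ) + 1) ^ kk H / Real.sqrt ((Rh H : ℕ) : ℝ)
      ≤ 6 ^ kk H * (Rh H : ℝ) ^ (1 / 8 : ℝ) / Real.sqrt ((Rh H : ℕ) : ℝ) :=
        div_le_div_of_nonneg_right a1 hsq.le
    _ = 6 ^ kk H * (1 / (Rh H : ℝ) ^ (3 / 8 : ℝ)) := by rw [mul_div_assoc, a4]
    _ ≤ (36 * (Real.log (Rh H)) ^ 2) * (1 / (Rh H : ℝ) ^ (3 / 8 : ℝ)) := by
        refine mul_le_mul_of_nonneg_right (a2.trans a3) (by positivity)
    _ = ((fun x : ℝ => 36 * (Real.log x ^ (2 : ℝ) / x ^ (3 / 8 : ℝ))) ∘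
          fun H : ℕ => ((Rh H : ℕ) : ℝ)) H := by
        simp only [Function.comp]
        rw [Real.rpow_two]
        ring

end Pool.Agent.H514.GL
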