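import Pool.Agent.H514.GL.Sm
import Pool.Agent.H514.GL.Ex
import Pool.Agent.H514.GL.Par
import Pool.Agent.H514.GL.Defs2

/-! Project GL: the characteristic function on a residue class. -/

set_option autoImplicit false

open scoped Classical

namespace Pool.Agent.H514.GL

open Finset Filter Pool.Agent.H514.IS

/-- the hypotheses -/
structure Hy (C C0 c0 : ℝ) : Prop where
  hc : 0 < c0
  hC : 0 ≤ C
  hC0 : 0 ≤ C0
  up : ∀ R : ℕ, 1 ≤ R → ((Rg R).card : ℝ) ≤ C0 * R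
  low : ∀ R : ℕ, 3 ≤ R → c0 * R ≤ ((Rg R).card : ℝ)
  mnle : MnLe
  avg : Avg C
  avgabs : AvgAbs C C0
  ymod : ∀ {p : ℕ}, p.Prime → p ≠ 2 → ∀ {s t : ℕ × ℕ}, s.1 ≡ t.1 [MOD p] →
    s.2 ≡ t.2 [MOD p] → yv p s = yv p t
  yzero : ∀ {p : ℕ}, p.Prime → p ≠ 2 → ∀ {t : ℕ × ℕ}, ¬ p ∣ t.1 * t.2 * (t.1 + t.2) → yv p t = 0
  yabs : ∀ (p : ℕ) (t : ℕ × ℕ) (i : Fin 3), |yv p t i| ≤ 1
  ysum : ∀ {p : ℕ}, p.Prime → p ≠ 2 → ∀ (f : (Fin 3 → ℝ) → ℂ), f 0 = 0 →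
    ∑ s ∈ range p ×ˢ range p, f (yv p s) =
      (((p : ℂ) - 1) / 2) * ∑ i : Fin 3, (f (fun j => if j = i then 0 else 1) +
        f (fun j => if j = i then -1 else 1)) + f (fun _ => 1)
  plim : ∀ (θ : Fin 3 → ℝ) (w : ℕ) (z : ℕ → ℕ) (L : ℕ → ℝ), Tendsto L atTop atTop →
    (∀ᶠ H in atTop, 2 ≤ z H) →
    Tendsto (fun H => (Real.log (Real.log (z H)) - L H) / Real.sqrt (L H)) atTop (nhds 0) →
    Tendsto (fun H => (∏ p ∈ Pw w (z H), (1 + ml θ (1 / Real.sqrt (L H)) p)) *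
      Complex.exp (Complex.I * ((-(3 / 2 * (∑ i, θ i) * Real.sqrt (L H)) : ℝ) : ℂ))) atTop
      (nhds (Complex.exp ((-(5 / 4 * ∑ i, θ i ^ 2) : ℝ) : ℂ)))

lemma norm_expI (x : ℝ) : ‖Complex.exp (Complex.I * (x : ℂ))‖ = 1 := by
  rw [mul_comm, Complex.norm_exp_ofReal_mul_I]

lemma dt_absC (θ : Fin 3 → ℝ) {y : Fin 3 → ℝ} (hy : ∀ i, |y i| ≤ 1) : |dt θ y| ≤ ∑ i, |θ i| := by
  unfold dt
  refine (abs_sum_le_sum_abs _ _).trans (sum_le_sum fun i _ => ?_)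
  rw [abs_mul]
  exact mul_le_of_le_one_right (abs_nonneg _) (hy i)

lemma norm_expI_sub (x : ℝ) : ‖Complex.exp (Complex.I * (x : ℂ)) - 1‖ ≤ |x| := by
  have := Real.norm_exp_I_mul_ofReal_sub_one_le (x := x)
  simpa using this

/-- the bound `η` -/
noncomputable def et (θ : Fin 3 → ℝ) (H : ℕ) : ℝ := (1 / Real.sqrt (ll H)) * ∑ i, |θ i|

variable {C C0 c0 : ℝ}

lemma lf_fx (hy : Hy C C0 c0) (θ : Fin 3 → ℝ) (H : ℕ) {p : ℕ} (hp : p.Prime) (h2 : p ≠ 2) :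
    Lf p (fun t => fx θ (1 / Real.sqrt (ll H)) (yv p t)) (et θ H) where
  mod := fun s t h1 h3 => by
    rw [hy.ymod hp h2 h1 h3]
  zero := fun t ht => by
    rw [hy.yzero hp h2 ht]
    simp [fx, dt]
  bound := fun t => by
    unfold fx et
    refine (norm_expI_sub _).trans ?_
    rw [abs_mul, abs_of_nonneg (by positivity)]
    exact mul_le_mul_of_nonneg_left (dt_absC θ (hy.yabs p t)) (by positivity)

lemma mn_ml (hy : Hy C C0 c0) (θ : Fin 3 → ℝ) (x : ℝ) {p : ℕ} (hp : p.Prime) (h2 : p ≠ 2) :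
    mn p (fun t => fx θ x (yv p t)) = ml θ x p := by
  unfold mn ml
  rw [hy.ysum hp h2 (fun y => fx θ x y) (by simp [fx, dt])]

lemma prod_one_add (θ : Fin 3 → ℝ) (x : ℝ) (P : Finset ℕ) (t : ℕ × ℕ) :
    ∏ p ∈ P, (1 + fx θ x (yv p t)) =
      Complex.exp (Complex.I * ((x * ∑ p ∈ P, dt θ (yv p t) : ℝ) : ℂ)) := by
  unfold fx
  simp only [add_sub_cancel]
  rw [← Complex.exp_sum]
  congr 1
  push_cast
  rw [mul_sum, mul_sum]

/-- the sum `S` -/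
lemma sS (θ : Fin 3 → ℝ) (w : ℕ) : ∃ A : ℝ, ∀ᶠ H in atTop,
    0 ≤ ∑ p ∈ Pw w (zz H), 3 * et θ H / p ∧
      ∑ p ∈ Pw w (zz H), 3 * et θ H / p ≤ A * Real.sqrt (ll H) := by
  obtain ⟨C, hC0, hC⟩ := mert
  have h2 : ∀ᶠ H in atTop, 2 ≤ zz H := zz_tend.eventually_ge_atTop 2
  have h3 : ∀ᶠ H in atTop, (Real.log (Real.log (zz H)) - ll H) / Real.sqrt (ll H) < 1 :=
    zz_ll.eventually (gt_mem_nhds one_pos)
  have h4 : ∀ᶠ H in atTop, 1 ≤ ll H := ll_tend.eventually_ge_atTop 1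
  refine ⟨3 * (∑ i, |θ i|) * (2 + C), ?_⟩
  filter_upwards [h2, h3, h4] with H h2 h3 h4
  have h5 : 0 ≤ et θ H := by
    unfold et
    have : 0 ≤ ∑ i, |θ i| := sum_nonneg fun i _ => abs_nonneg _
    positivity
  refine ⟨sum_nonneg fun p _ => by positivity, ?_⟩
  have hs : 0 < Real.sqrt (ll H) := Real.sqrt_pos.2 (by linarith)
  have hs2 : Real.sqrt (ll H) * Real.sqrt (ll H) = ll H := Real.mul_self_sqrt (by linarith)
  have hs1 : 1 ≤ Real.sqrt (ll H) := by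
    rw [Real.one_le_sqrt]
    exact h4
  have h6 : Real.log (Real.log (zz H)) ≤ ll H + Real.sqrt (ll H) := by
    rw [div_lt_one hs] at h3
    linarith
  have h7 : ∑ p ∈ Pw w (zz H), 3 * et θ H / (p : ℝ) = 3 * et θ H * ∑ p ∈ Pw w (zz H), (1 : ℝ) / p := by
    rw [mul_sum]
    exact sum_congr rfl fun p _ => by ring
  rw [h7]
  have h8 := (sum_Pw hC (w := w) h2).2
  have h9 : ∑ p ∈ Pw w (zz H), (1 : ℝ) / p ≤ (2 + C) * ll H := by
    have : Real.sqrt (ll H) ≤ ll H := by nlinarith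
    nlinarith
  calc 3 * et θ H * ∑ p ∈ Pw w (zz H), (1 : ℝ) / p ≤ 3 * et θ H * ((2 + C) * ll H) :=
        mul_le_mul_of_nonneg_left h9 (by positivity)
    _ = 3 * (∑ i, |θ i|) * (2 + C) * Real.sqrt (ll H) := by
        unfold et
        have : (1 / Real.sqrt (ll H)) * ll H = Real.sqrt (ll H) := by
          rw [one_div, inv_mul_eq_div, div_eq_iff hs.ne', hs2]
        linear_combination 3 * (∑ i, |θ i|) * (2 + C) * this

lemma et_tend (θ : Fin 3 → ℝ) : Tendsto (et θ) atTop (nhds 0) := by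
  unfold et
  have h1 : Tendsto (fun H => 1 / Real.sqrt (ll H)) atTop (nhds 0) := by
    simp only [one_div]
    exact (Real.tendsto_sqrt_atTop.comp ll_tend).inv_tendsto_atTop
  simpa using h1.mul_const (∑ i, |θ i|)

lemma prod_le_zz {w H : ℕ} (hH : 1 ≤ Rh H) (hz : 1 ≤ zz H) {D : Finset ℕ} (hD : D ⊆ Pw w (zz H))
    (hk : D.card ≤ kk H + 1) : (∏ p ∈ D, (p : ℝ)) ≤ Real.sqrt (Rh H) := by
  have hz1 : (1 : ℝ) ≤ zz H := by exact_mod_cast hz
  have hR1 : (1 : ℝ) ≤ Rh H := by exact_mod_cast hH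
  calc (∏ p ∈ D, (p : ℝ)) ≤ ∏ p ∈ D, (zz H : ℝ) := by
        apply Finset.prod_le_prod
        · intro p _
          positivity
        · intro p hp
          have := (mem_Pw.1 (hD hp)).1.2
          exact_mod_cast this
    _ = (zz H : ℝ) ^ D.card := by rw [prod_const]
    _ ≤ (zz H : ℝ) ^ (kk H + 1) := pow_le_pow_right₀ hz1 hk
    _ ≤ ((Rh H : ℕ) : ℝ) ^ (1 / 8 : ℝ) := zz_pow H hH
    _ ≤ ((Rh H : ℕ) : ℝ) ^ (1 / 2 : ℝ) := Real.rpow_le_rpow_of_exponent_le hR1 (by norm_num)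
    _ = _ := by rw [Real.sqrt_eq_rpow]

lemma card_Pw_le (w z : ℕ) : (Pw w z).card ≤ z := by
  unfold Pw
  refine (card_filter_le _ _).trans ?_
  rw [Nat.card_Ioc]
  omega

theorem cls_lim (hy : Hy C C0 c0) (θ : Fin 3 → ℝ) {w W a b : ℕ} (hw : 2 ≤ w) (hW : 1 ≤ W)
    (hWp : ∀ p : ℕ, p.Prime → p ∣ W → p ≤ w) :
    Tendsto (fun H => (∑ t ∈ Rc (Rh H) W a b, Complex.exp (Complex.I *
      (((Vv w (zz H) θ t - 3 / 2 * (∑ i, θ i) * ll H) / Real.sqrt (ll H) : ℝ) : ℂ))) /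
        ((Rg (Rh H)).card : ℂ)) atTop
      (nhds (Complex.exp ((-(5 / 4 * ∑ i, θ i ^ 2) : ℝ) : ℂ) / (W : ℂ) ^ 2)) := by
  set P : ℕ → Finset ℕ := fun H => Pw w (zz H) with hP
  set x : ℕ → ℝ := fun H => 1 / Real.sqrt (ll H) with hx
  set u : ℕ → ℂ := fun H =>
    Complex.exp (Complex.I * ((-(3 / 2 * (∑ i, θ i) * Real.sqrt (ll H)) : ℝ) : ℂ)) with hu
  have hPp : ∀ H, ∀ p ∈ P H, p.Prime ∧ p ≠ 2 ∧ p.Coprime W := by
    intro H p hp
    obtain ⟨⟨h1, h2⟩, h3⟩ := mem_Pw.1 hp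
    refine ⟨h3, by omega, ?_⟩
    rw [h3.coprime_iff_not_dvd]
    intro h4
    have := hWp p h3 h4
    omega
  -- the main estimate
  have hmain : ∀ᶠ H in atTop,
      ‖(∑ t ∈ Rc (Rh H) W a b, ∏ p ∈ P H, (1 + fx θ (x H) (yv p t))) / ((Rg (Rh H)).card : ℂ) -
        (∏ p ∈ P H, (1 + ml θ (x H) p)) / (W : ℂ) ^ 2‖ ≤
      (2 * C0 + 2 * C) / c0 * ((∑ p ∈ P H, 3 * et θ H / p) ^ (kk H + 1) / (kk H + 1).factorial) +
        2 * C / c0 * ((3 : ℝ) ^ kk H * ((zz H : ℝ) + 1) ^ kk H / Real.sqrt ((Rh H : ℕ) : ℝ)) := by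
    have h1 : ∀ᶠ H in atTop, 3 ≤ Rh H := rh_tend.eventually_ge_atTop 3
    have h2 : ∀ᶠ H in atTop, 1 ≤ zz H := zz_tend.eventually_ge_atTop 1
    have h3 : ∀ᶠ H in atTop, et θ H ≤ 1 := ((et_tend θ).eventually (gt_mem_nhds one_pos)).mono
      fun H h => h.le
    filter_upwards [h1, h2, h3] with H h1 h2 h3
    have h0 : 0 ≤ et θ H := by
      unfold et
      have : 0 ≤ ∑ i, |θ i| := sum_nonneg fun i _ => abs_nonneg _
      positivity
    have hR1 : 1 ≤ Rh H := by omega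
    have hR0 : (0 : ℝ) < Rh H := by exact_mod_cast hR1
    have h4 := sum_main hy.hC hy.hC0 hy.up hy.mnle hy.avg hy.avgabs
      (fun P g h K => expand P g h K) (fun P x h k => esymm_le P x h k)
      (R := Rh H) (W := W) (a := a) (b := b) (K := kk H) hR1 hW (P := P H)
      (fun p hp => ⟨(hPp H p hp).1, (hPp H p hp).2.2⟩)
      (fun D hD hk => prod_le_zz hR1 h2 hD hk)
      (g := fun p t => fx θ (x H) (yv p t)) (η := et θ H) h0 h3
      (fun p hp => lf_fx hy θ H (hPp H p hp).1 (hPp H p hp).2.1)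
      (fun p hp t => by
        unfold fx
        rw [add_sub_cancel]
        exact (norm_expI _).le)
    have h5 : ∏ p ∈ P H, (1 + mn p (fun t => fx θ (x H) (yv p t))) =
        ∏ p ∈ P H, (1 + ml θ (x H) p) :=
      prod_congr rfl fun p hp => by rw [mn_ml hy θ (x H) (hPp H p hp).1 (hPp H p hp).2.1]
    rw [h5] at h4
    have hN : c0 * Rh H ≤ ((Rg (Rh H)).card : ℝ) := hy.low _ h1
    have hN0 : (0 : ℝ) < (Rg (Rh H)).card := lt_of_lt_of_le (mul_pos hy.hc hR0) hN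
    have hNc : ((Rg (Rh H)).card : ℂ) ≠ 0 := by
      have := hN0.ne'
      exact_mod_cast this
    have h6 : (∑ t ∈ Rc (Rh H) W a b, ∏ p ∈ P H, (1 + fx θ (x H) (yv p t))) /
          ((Rg (Rh H)).card : ℂ) - (∏ p ∈ P H, (1 + ml θ (x H) p)) / (W : ℂ) ^ 2 =
        (∑ t ∈ Rc (Rh H) W a b, ∏ p ∈ P H, (1 + fx θ (x H) (yv p t)) -
          ((Rg (Rh H)).card : ℂ) / (W : ℂ) ^ 2 * ∏ p ∈ P H, (1 + ml θ (x H) p)) /
          ((Rg (Rh H)).card : ℂ) := by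
      field_simp
    rw [h6, norm_div, Complex.norm_natCast, div_le_iff₀ hN0]
    refine h4.trans ?_
    set S := (∑ p ∈ P H, 3 * et θ H / (p : ℝ)) ^ (kk H + 1) / ((kk H + 1).factorial : ℝ) with hS
    have hS0 : 0 ≤ S := by
      rw [hS]
      have : 0 ≤ ∑ p ∈ P H, 3 * et θ H / (p : ℝ) := sum_nonneg fun p _ => by positivity
      positivity
    have hcard : ((P H).card : ℝ) ≤ zz H := by exact_mod_cast card_Pw_le w (zz H)
    have h7 : (3 : ℝ) ^ kk H * (((P H).card : ℝ) + 1) ^ kk H ≤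
        3 ^ kk H * ((zz H : ℝ) + 1) ^ kk H := by
      apply mul_le_mul_of_nonneg_left _ (by positivity)
      exact pow_le_pow_left₀ (by positivity) (by linarith) _
    have hsq : Real.sqrt (Rh H) * Real.sqrt (Rh H) = Rh H := Real.mul_self_sqrt hR0.le
    have hsq0 : 0 < Real.sqrt (Rh H) := Real.sqrt_pos.2 hR0
    set B := (3 : ℝ) ^ kk H * ((zz H : ℝ) + 1) ^ kk H with hB
    have hB0 : 0 ≤ B := by positivity
    have h8 : (3 : ℝ) ^ kk H * (((P H).card : ℝ) + 1) ^ kk H * Real.sqrt (Rh H) ≤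
        B / Real.sqrt (Rh H) * Rh H := by
      have : B / Real.sqrt (Rh H) * Rh H = B * Real.sqrt (Rh H) := by
        rw [div_mul_eq_mul_div, div_eq_iff hsq0.ne', mul_assoc B (Real.sqrt _), hsq]
      rw [this]
      exact mul_le_mul_of_nonneg_right h7 hsq0.le
    have hC := hy.hC
    have hC0 := hy.hC0
    have hc0 := hy.hc
    calc (2 * C0 + 2 * C) * (Rh H : ℝ) * S +
          2 * C * ((3 : ℝ) ^ kk H * (((P H).card : ℝ) + 1) ^ kk H * Real.sqrt (Rh H))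
        ≤ (2 * C0 + 2 * C) * (Rh H : ℝ) * S + 2 * C * (B / Real.sqrt (Rh H) * Rh H) := by
          have := mul_le_mul_of_nonneg_left h8 (by positivity : (0 : ℝ) ≤ 2 * C)
          linarith
      _ = ((2 * C0 + 2 * C) / c0 * S + 2 * C / c0 * (B / Real.sqrt (Rh H))) * (c0 * Rh H) := by
          field_simp
      _ ≤ _ := mul_le_mul_of_nonneg_left hN (by positivity)
  -- the errors tend to zero
  obtain ⟨A, hA⟩ := sS θ w
  have e1 := err1 (S := fun H => ∑ p ∈ P H, 3 * et θ H / p) (A := A) (hA.mono fun H h => h.1)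
    (hA.mono fun H h => h.2)
  have e2 := err2
  have e3 := (e1.const_mul ((2 * C0 + 2 * C) / c0)).add (e2.const_mul (2 * C / c0))
  simp only [mul_zero, add_zero] at e3
  have e4 := squeeze_zero_norm' hmain e3
  -- the main term
  have e5 := hy.plim θ w zz ll ll_tend (zz_tend.eventually_ge_atTop 2) zz_ll
  have e6 : Tendsto (fun H => u H * ((∑ t ∈ Rc (Rh H) W a b, ∏ p ∈ P H,
      (1 + fx θ (x H) (yv p t))) / ((Rg (Rh H)).card : ℂ) -
        (∏ p ∈ P H, (1 + ml θ (x H) p)) / (W : ℂ) ^ 2)) atTop (nhds 0) := by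
    rw [tendsto_zero_iff_norm_tendsto_zero] at e4 ⊢
    refine e4.congr fun H => ?_
    rw [norm_mul, hu, norm_expI, one_mul]
  have e7 := e6.add (e5.div_const ((W : ℂ) ^ 2))
  rw [zero_add] at e7
  have e8 : ∀ᶠ H in atTop, 0 < ll H := ll_tend.eventually_gt_atTop 0
  refine e7.congr' ?_
  filter_upwards [e8] with H hH
  have hs : 0 < Real.sqrt (ll H) := Real.sqrt_pos.2 hH
  have h9 : ∀ t : ℕ × ℕ, u H * ∏ p ∈ P H, (1 + fx θ (x H) (yv p t)) =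
      Complex.exp (Complex.I *
      (((Vv w (zz H) θ t - 3 / 2 * (∑ i, θ i) * ll H) / Real.sqrt (ll H) : ℝ) : ℂ)) := by
    intro t
    rw [prod_one_add, hu, ← Complex.exp_add, ← mul_add, ← Complex.ofReal_add]
    congr 3
    have : ll H / Real.sqrt (ll H) = Real.sqrt (ll H) := Real.div_sqrt
    rw [sub_div, mul_div_assoc, this]
    simp only [hx, Vv, hP]
    ring
  have h10 : u H * ∑ t ∈ Rc (Rh H) W a b, ∏ p ∈ P H, (1 + fx θ (x H) (yv p t)) =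
      ∑ t ∈ Rc (Rh H) W a b, Complex.exp (Complex.I *
        (((Vv w (zz H) θ t - 3 / 2 * (∑ i, θ i) * ll H) / Real.sqrt (ll H) : ℝ) : ℂ)) := by
    rw [mul_sum]
    exact sum_congr rfl fun t _ => h9 t
  rw [← h10, mul_sub]
  simp only [hP, hx, hu]
  ring

end Pool.Agent.H514.GL
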