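import Pool.Agent.H514.GL.Defs

/-!
GL-11. Comparison of `log₂ #Ш[2]` with the additive function, on the region.

PROOF. Let `T = TT H`, `y = yy H`, so `y ^ 4 ≤ T < (y + 1) ^ 4`, `y ≥ 1`. For `t ∈ Rg (Rh H)` and `i : Fin 3`, `s = sh i t` is in
`Box T` (`u, v ≤ √R`, `u + v ≤ 2 √R`), with `s.1 ≠ 0`, `s.2 ≠ 0`, `s.1 ≠ s.2` (`Nd s`). By `sha_cmp` (`H514/IS/Tu1.lean`)
`|lg (...) - ∑ ph p s| ≤ 19 + 2 xc 4 y s + 2 QS s.1 s.2`. The map `sh i` is injective, so the sum over `t` of the square is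
at most the sum over `s ∈ Box T`, `Nd s`, of `(19 + 2 xc + 2 QS)²`, which is `O(T²) = O(R)`: see the proof of
`box_turan` in `H514/IS/Tu3.lean` (facts `xc_sq`, `box_q` with `m = 2`, `LgK_two`, `box_card`, `hcardB`, `hx`, `hq`).
(`T² = 4 (√R + 1)² ≤ 16 R` for `R ≥ 1`.)
-/

set_option autoImplicit false

open scoped Classical

namespace Pool.Agent.H514.GL

open Finset Filter Pool.Agent.H514.IS

open Pool.Agent.W307.RT

namespace GL11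

/-- the fourth root -/
theorem yy_spec (H : ℕ) : 1 ≤ yy H ∧ TT H < (yy H + 1) ^ 4 := by
  have h1 := Nat.lt_succ_sqrt' (TT H)
  have h2 := Nat.lt_succ_sqrt' (Nat.sqrt (TT H))
  constructor
  · have h3 : 1 ≤ Nat.sqrt (TT H) := by
      rw [Nat.le_sqrt']
      unfold TT
      omega
    show 1 ≤ Nat.sqrt (Nat.sqrt (TT H))
    rw [Nat.le_sqrt']
    omega
  · show TT H < (Nat.sqrt (Nat.sqrt (TT H)) + 1) ^ 4
    have h3 : Nat.sqrt (TT H) + 1 ≤ (Nat.sqrt (Nat.sqrt (TT H)) + 1) ^ 2 := h2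
    calc TT H < (Nat.sqrt (TT H) + 1) ^ 2 := h1
      _ ≤ ((Nat.sqrt (Nat.sqrt (TT H)) + 1) ^ 2) ^ 2 := Nat.pow_le_pow_left h3 2
      _ = _ := by ring

theorem Rg_le {R : ℕ} {t : ℕ × ℕ} (ht : t ∈ Rg R) :
    1 ≤ t.1 ∧ 1 ≤ t.2 ∧ t.1 ≤ Nat.sqrt R ∧ t.2 ≤ Nat.sqrt R := by
  unfold Rg at ht
  rw [mem_filter, mem_product, mem_Icc, mem_Icc] at ht
  obtain ⟨⟨⟨h1, -⟩, h2, -⟩, h3⟩ := ht
  refine ⟨h1, h2, ?_, ?_⟩
  · rw [Nat.le_sqrt']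
    have := Nat.zero_le (t.1 * t.2 + t.2 ^ 2)
    omega
  · rw [Nat.le_sqrt']
    have := Nat.zero_le (t.1 ^ 2 + t.1 * t.2)
    omega

theorem sh_mem {H : ℕ} {t : ℕ × ℕ} (i : Fin 3) (ht : t ∈ Rg (Rh H)) :
    sh i t ∈ (Box (TT H)).filter Nd := by
  obtain ⟨h1, h2, h3, h4⟩ := Rg_le ht
  have h5 : TT H = 2 * (Nat.sqrt (Rh H) + 1) := rfl
  obtain ⟨T, hT⟩ : ∃ T, T = TT H := ⟨_, rfl⟩
  obtain ⟨q, hq⟩ : ∃ q, q = Nat.sqrt (Rh H) := ⟨_, rfl⟩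
  rw [← hT, ← hq] at h5
  rw [← hq] at h3 h4
  obtain ⟨u, v⟩ := t
  simp only at h1 h2 h3 h4
  rw [mem_filter, ← hT, mem_Box]
  unfold Nd sh
  fin_cases i
  · simp only [Fin.zero_eta, if_true]
    constructor
    · constructor <;> omega
    · refine ⟨?_, ?_, ?_⟩ <;> omega
  · simp only [Fin.mk_one, one_ne_zero, if_false, if_true]
    constructor
    · constructor <;> omega
    · refine ⟨?_, ?_, ?_⟩ <;> omega
  · have e0 : ¬ ((2 : Fin 3) = 0) := by decide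
    have e1 : ¬ ((2 : Fin 3) = 1) := by decide
    simp only [Fin.reduceFinMk, if_neg e0, if_neg e1]
    constructor
    · constructor <;> omega
    · refine ⟨?_, ?_, ?_⟩ <;> omega

theorem sh_inj (i : Fin 3) : Function.Injective (sh i) := by
  rintro ⟨u, v⟩ ⟨u', v'⟩ h
  unfold sh at h
  split_ifs at h
  all_goals
    rw [Prod.mk.injEq] at h
    simp only at h
    rw [Prod.mk.injEq]
    constructor <;> omega

end GL11

open GL11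

theorem cmp : ∃ C : ℝ, 0 ≤ C ∧ ∀ H : ℕ, 16 ≤ Rh H → ∀ i : Fin 3,
    ∑ t ∈ Rg (Rh H), (lg (D (2 * ((sh i t).1 + (sh i t).2)) (((sh i t).1 - (sh i t).2) ^ 2)) -
      ∑ p ∈ Pw 4 (yy H), ph p (sh i t)) ^ 2 ≤ C * Rh H := by
  obtain ⟨C1, hC10, hC1⟩ := Pool.Agent.H514.box_q Pool.Agent.H514.rbd_sel 2 le_rfl
  refine ⟨3 * (361 * 9 + 4 * 6 + 4 * C1) * 16, by positivity, fun H hH i => ?_⟩
  obtain ⟨hy, hTy⟩ := yy_spec H
  obtain ⟨T, hT⟩ : ∃ T, T = TT H := ⟨_, rfl⟩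
  obtain ⟨y, hyy⟩ : ∃ y, y = yy H := ⟨_, rfl⟩
  have hT1 : 1 ≤ T := by
    rw [hT]
    unfold TT
    omega
  have hT1r : (1 : ℝ) ≤ T := by exact_mod_cast hT1
  rw [← hyy] at hy hTy ⊢
  rw [← hT] at hTy
  -- the sums over the box
  have hcardB : (((Box T).filter Nd).card : ℝ) ≤ 9 * (T : ℝ) ^ 2 := by
    have h1 : (((Box T).filter Nd).card : ℝ) ≤ (Box T).card := by
      exact_mod_cast card_le_card (filter_subset _ _)
    rw [box_card] at h1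
    nlinarith
  have hx : ∑ t ∈ (Box T).filter Nd, (xc 4 y t : ℝ) ^ 2 ≤ 6 * (T : ℝ) ^ 2 := by
    refine (sum_le_sum_of_subset_of_nonneg ?_ fun t _ _ => sq_nonneg _).trans (xc_sq y T)
    intro t ht
    rw [mem_filter] at ht ⊢
    exact ⟨ht.1, ht.2.1, ht.2.2.1⟩
  have hq : ∑ t ∈ (Box T).filter Nd, (QS t.1 t.2 : ℝ) ^ 2 ≤ C1 * (T : ℝ) ^ 2 := by
    have h1 := hC1 T hT1
    rw [LgK_two, mul_one] at h1
    refine le_trans (le_of_eq (sum_congr ?_ fun _ _ => rfl)) h1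
    ext t
    simp only [mem_filter, Nd]
  -- the pointwise bound
  have hpt : ∀ t ∈ (Box T).filter Nd, (lg (D (2 * (t.1 + t.2)) ((t.1 - t.2) ^ 2)) -
      ∑ p ∈ Pw 4 y, ph p t) ^ 2 ≤
        3 * (361 + 4 * (xc 4 y t : ℝ) ^ 2 + 4 * (QS t.1 t.2 : ℝ) ^ 2) := by
    intro t ht
    rw [mem_filter] at ht
    obtain ⟨ht1, hA, hB, hAB⟩ := ht
    have h1 := sha_cmp hy hA hB hAB ht1 hTy
    have h2 : (lg (D (2 * (t.1 + t.2)) ((t.1 - t.2) ^ 2)) - ∑ p ∈ Pw 4 y, ph p t) ^ 2 ≤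
        (19 + 2 * xc 4 y t + 2 * QS t.1 t.2) ^ 2 := by
      rw [← sq_abs (lg _ - _)]
      exact pow_le_pow_left₀ (abs_nonneg _) h1 2
    have h3 := sq3 19 (2 * (xc 4 y t : ℝ)) (2 * (QS t.1 t.2 : ℝ))
    nlinarith
  -- the comparison
  have hsub : ∑ t ∈ Rg (Rh H), (lg (D (2 * ((sh i t).1 + (sh i t).2))
      (((sh i t).1 - (sh i t).2) ^ 2)) - ∑ p ∈ Pw 4 y, ph p (sh i t)) ^ 2 ≤
      ∑ s ∈ (Box T).filter Nd, (lg (D (2 * (s.1 + s.2)) ((s.1 - s.2) ^ 2)) -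
        ∑ p ∈ Pw 4 y, ph p s) ^ 2 := by
    rw [← sum_image (f := fun s : ℤ × ℤ => (lg (D (2 * (s.1 + s.2)) ((s.1 - s.2) ^ 2)) -
        ∑ p ∈ Pw 4 y, ph p s) ^ 2) (g := sh i) (s := Rg (Rh H)) (sh_inj i).injOn]
    refine sum_le_sum_of_subset_of_nonneg ?_ fun s _ _ => sq_nonneg _
    intro s hs
    obtain ⟨t, ht, rfl⟩ := mem_image.1 hs
    rw [hT]
    exact sh_mem i ht
  refine hsub.trans ((sum_le_sum hpt).trans ?_)
  have h7 : ∑ t ∈ (Box T).filter Nd,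
      3 * (361 + 4 * (xc 4 y t : ℝ) ^ 2 + 4 * (QS t.1 t.2 : ℝ) ^ 2) =
      3 * (((Box T).filter Nd).card * 361 +
          4 * (∑ t ∈ (Box T).filter Nd, (xc 4 y t : ℝ) ^ 2) +
          4 * (∑ t ∈ (Box T).filter Nd, (QS t.1 t.2 : ℝ) ^ 2)) := by
    rw [← mul_sum]
    simp only [sum_add_distrib, ← mul_sum, sum_const, nsmul_eq_mul]
  rw [h7]
  have hTR : (T : ℝ) ^ 2 ≤ 16 * Rh H := by
    have h8 : T ^ 2 ≤ 16 * Rh H := by
      obtain ⟨q, hq'⟩ : ∃ q, q = Nat.sqrt (Rh H) := ⟨_, rfl⟩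
      have h9 : T = 2 * (q + 1) := by rw [hT, hq']; rfl
      have h10 : q ^ 2 ≤ Rh H := by rw [hq']; exact Nat.sqrt_le' _
      have h11 : 1 ≤ q := by
        rw [hq', Nat.le_sqrt']
        omega
      rw [h9]
      nlinarith
    exact_mod_cast h8
  have h12 : 3 * (((Box T).filter Nd).card * 361 +
          4 * (∑ t ∈ (Box T).filter Nd, (xc 4 y t : ℝ) ^ 2) +
          4 * (∑ t ∈ (Box T).filter Nd, (QS t.1 t.2 : ℝ) ^ 2)) ≤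
      3 * (361 * 9 + 4 * 6 + 4 * C1) * (T : ℝ) ^ 2 := by nlinarith
  refine h12.trans ?_
  calc 3 * (361 * 9 + 4 * 6 + 4 * C1) * (T : ℝ) ^ 2 ≤
      3 * (361 * 9 + 4 * 6 + 4 * C1) * (16 * Rh H) := by gcongr
    _ = _ := by ring

end Pool.Agent.H514.GL
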