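import Pool.Agent.H514.GL.Defs

/-! GL-9. Cutting off the local conditions. -/

set_option autoImplicit false

open scoped Classical

namespace Pool.Agent.H514.GL

open Finset Filter

theorem mem_RgC {R : ℕ} {t : ℕ × ℕ} : t ∈ Rg R ↔ 1 ≤ t.1 ∧ 1 ≤ t.2 ∧
    t.1 ^ 2 + t.1 * t.2 + t.2 ^ 2 ≤ R := by
  unfold Rg
  simp only [mem_filter, mem_product, mem_Icc]
  constructor
  · rintro ⟨⟨⟨h1, -⟩, ⟨h2, -⟩⟩, h3⟩
    exact ⟨h1, h2, h3⟩
  · rintro ⟨h1, h2, h3⟩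
    have h4 : t.1 ≤ t.1 ^ 2 := by nlinarith
    have h5 : t.2 ≤ t.2 ^ 2 := by nlinarith
    refine ⟨⟨⟨h1, ?_⟩, ⟨h2, ?_⟩⟩, h3⟩
    · have := Nat.zero_le (t.1 * t.2); have := Nat.zero_le (t.2 ^ 2); omega
    · have := Nat.zero_le (t.1 * t.2); have := Nat.zero_le (t.1 ^ 2); omega

theorem lo_lw {w : ℕ} {t : ℕ × ℕ} (h : Lo t) : Lw w t :=
  ⟨h.1, h.2.1, fun p hp _ h3 => h.2.2 p hp h3⟩

theorem fu_sub (w H : ℕ) : Fu H ⊆ Fw w H := by
  intro t ht
  unfold Fu at ht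
  unfold Fw
  rw [mem_filter] at ht ⊢
  exact ⟨ht.1, lo_lw ht.2⟩

/-- the pairs of multiples of `n ^ 2` -/
theorem sub_union {w H : ℕ} : (Fw w H) \ (Fu H) ⊆ (Ioc w (Rh H)).biUnion (fun n =>
    ((Icc 1 (Nat.sqrt (Rh H / n ^ 4))) ×ˢ (Icc 1 (Nat.sqrt (Rh H / n ^ 4)))).image
      (fun ab : ℕ × ℕ => (n ^ 2 * ab.1, n ^ 2 * ab.2))) := by
  intro t ht
  unfold Fu Fw at ht
  simp only [Finset.mem_sdiff, mem_filter, not_and] at ht
  obtain ⟨⟨hR, hw1, hw2, hw3⟩, h4⟩ := ht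
  have h5 : ¬ Lo t := h4 hR
  have h6 : ∃ p : ℕ, p.Prime ∧ p ≠ 3 ∧ (p ^ 2 ∣ t.1 ∧ p ^ 2 ∣ t.2) := by
    by_contra hc
    push Not at hc
    refine h5 ⟨hw1, hw2, fun p hp h3 h => ?_⟩
    exact hc p hp h3 h.1 h.2
  obtain ⟨p, hp, hp3, hd⟩ := h6
  have hpw : w < p := by
    by_contra hc
    push Not at hc
    exact hw3 p hp hc hp3 hd
  obtain ⟨⟨a, ha⟩, ⟨b, hb⟩⟩ := hd
  rw [mem_RgC] at hR
  obtain ⟨h1, h2, h3⟩ := hR
  have ha1 : 1 ≤ a := by
    rcases Nat.eq_zero_or_pos a with h | h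
    · rw [h] at ha; omega
    · exact h
  have hb1 : 1 ≤ b := by
    rcases Nat.eq_zero_or_pos b with h | h
    · rw [h] at hb; omega
    · exact h
  have hp0 : 0 < p := hp.pos
  have e1 : a ^ 2 * p ^ 4 = t.1 ^ 2 := by rw [ha]; ring
  have e2 : b ^ 2 * p ^ 4 = t.2 ^ 2 := by rw [hb]; ring
  have ha2 : a ^ 2 * p ^ 4 ≤ Rh H := by
    rw [e1]
    have := Nat.zero_le (t.1 * t.2); have := Nat.zero_le (t.2 ^ 2); omega
  have hb2 : b ^ 2 * p ^ 4 ≤ Rh H := by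
    rw [e2]
    have := Nat.zero_le (t.1 * t.2); have := Nat.zero_le (t.1 ^ 2); omega
  have hp4 : 0 < p ^ 4 := by positivity
  rw [mem_biUnion]
  refine ⟨p, ?_, ?_⟩
  · rw [mem_Ioc]
    refine ⟨hpw, ?_⟩
    calc p ≤ p ^ 4 := Nat.le_self_pow (by norm_num) p
      _ ≤ a ^ 2 * p ^ 4 := Nat.le_mul_of_pos_left _ (by positivity)
      _ ≤ Rh H := ha2
  · rw [mem_image]
    refine ⟨(a, b), ?_, ?_⟩
    · rw [mem_product, mem_Icc, mem_Icc]
      refine ⟨⟨ha1, ?_⟩, ⟨hb1, ?_⟩⟩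
      · rw [Nat.le_sqrt', Nat.le_div_iff_mul_le hp4]
        exact ha2
      · rw [Nat.le_sqrt', Nat.le_div_iff_mul_le hp4]
        exact hb2
    · exact Prod.ext ha.symm hb.symm

theorem fw_diff {w H : ℕ} (hw : 3 ≤ w) : (((Fw w H) \ (Fu H)).card : ℝ) ≤ (Rh H : ℝ) / w := by
  set R := Rh H with hR
  have h1 : ((Fw w H) \ (Fu H)).card ≤ ∑ n ∈ Ioc w R, (R / n ^ 4) := by
    refine (card_le_card sub_union).trans (card_biUnion_le.trans ?_)
    refine sum_le_sum fun n _ => ?_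
    refine card_image_le.trans ?_
    rw [card_product, Nat.card_Icc]
    simp only [Nat.add_sub_cancel]
    exact Nat.sqrt_le (R / n ^ 4)
  have h2 : (((Fw w H) \ (Fu H)).card : ℝ) ≤ ∑ n ∈ Ioc w R, (R : ℝ) * ((n : ℝ) ^ 2)⁻¹ := by
    have h3 : (((Fw w H) \ (Fu H)).card : ℝ) ≤ ((∑ n ∈ Ioc w R, (R / n ^ 4) : ℕ) : ℝ) := by
      exact_mod_cast h1
    refine h3.trans ?_
    rw [Nat.cast_sum]
    refine sum_le_sum fun n hn => ?_
    rw [mem_Ioc] at hn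
    have hn1 : (1 : ℝ) ≤ n := by exact_mod_cast (by omega : 1 ≤ n)
    refine Nat.cast_div_le.trans ?_
    rw [div_eq_mul_inv]
    refine mul_le_mul_of_nonneg_left ?_ (Nat.cast_nonneg R)
    rw [Nat.cast_pow]
    refine inv_anti₀ (by positivity) ?_
    exact pow_le_pow_right₀ hn1 (by norm_num)
  refine h2.trans ?_
  rw [← mul_sum, div_eq_mul_inv]
  refine mul_le_mul_of_nonneg_left ?_ (Nat.cast_nonneg R)
  rcases le_or_gt w R with h | h
  · have h4 := sum_Ioc_inv_sq_le_sub (α := ℝ) (k := w) (n := R) (by omega) h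
    have h5 : (0 : ℝ) ≤ (R : ℝ)⁻¹ := by positivity
    linarith
  · rw [Ioc_eq_empty (by omega), sum_empty]
    positivity

/-- the numbers `i < M` with `n ^ 2 ∣ 6 i + 1` -/
def Sn (M n : ℕ) : Finset ℕ := (range M).filter (fun i => n ^ 2 ∣ 6 * i + 1)

theorem card_Sn {M n : ℕ} (hn : 1 ≤ n) : ((Sn M n).card : ℝ) ≤ 7 * M * ((n : ℝ) ^ 2)⁻¹ := by
  rcases (Sn M n).eq_empty_or_nonempty with h0 | ⟨i0, hi0⟩
  · rw [h0, card_empty, Nat.cast_zero]
    positivity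
  · have hi0' := hi0
    unfold Sn at hi0'
    rw [mem_filter, mem_range] at hi0'
    obtain ⟨hM, hd⟩ := hi0'
    have hcop : Nat.Coprime (n ^ 2) 6 := by
      have h1 : Nat.Coprime (6 * i0 + 1) 6 := by
        rw [Nat.coprime_comm]
        simp
      exact Nat.Coprime.coprime_dvd_left hd h1
    have hle : n ^ 2 ≤ 6 * M := by
      have := Nat.le_of_dvd (by omega) hd
      omega
    have hn2 : 0 < n ^ 2 := by positivity
    have hcard : (Sn M n).card ≤ M / n ^ 2 + 1 := by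
      rw [← card_range (M / n ^ 2 + 1)]
      refine card_le_card_of_injOn (fun i => i / n ^ 2) ?_ ?_
      · intro i hi
        have hi' := mem_coe.1 hi
        unfold Sn at hi'
        rw [mem_filter, mem_range] at hi'
        rw [mem_coe, mem_range]
        have h9 : i / n ^ 2 ≤ M / n ^ 2 := Nat.div_le_div_right hi'.1.le
        exact Nat.lt_succ_of_le h9
      · intro i hi j hj hij
        have hi' := mem_coe.1 hi
        have hj' := mem_coe.1 hj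
        unfold Sn at hi' hj'
        rw [mem_filter, mem_range] at hi' hj'
        have h1 : i ≡ j [MOD n ^ 2] := by
          have h2 : 6 * i + 1 ≡ 6 * j + 1 [MOD n ^ 2] :=
            ((Nat.modEq_zero_iff_dvd.2 hi'.2).trans (Nat.modEq_zero_iff_dvd.2 hj'.2).symm)
          have h3 : 6 * i ≡ 6 * j [MOD n ^ 2] := Nat.ModEq.add_right_cancel' 1 h2
          exact Nat.ModEq.cancel_left_of_coprime hcop h3
        have h4 : i % n ^ 2 = j % n ^ 2 := h1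
        have h5 : i / n ^ 2 = j / n ^ 2 := hij
        rw [← Nat.div_add_mod i (n ^ 2), ← Nat.div_add_mod j (n ^ 2), h4, h5]
    have h1 : ((Sn M n).card : ℝ) ≤ (M : ℝ) / (n : ℝ) ^ 2 + 1 := by
      have h2 : ((Sn M n).card : ℝ) ≤ ((M / n ^ 2 + 1 : ℕ) : ℝ) := by exact_mod_cast hcard
      refine h2.trans ?_
      rw [Nat.cast_add, Nat.cast_one]
      have h3 : ((M / n ^ 2 : ℕ) : ℝ) ≤ (M : ℝ) / ((n ^ 2 : ℕ) : ℝ) := Nat.cast_div_le
      rw [Nat.cast_pow] at h3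
      linarith
    have hn2' : (0 : ℝ) < (n : ℝ) ^ 2 := by
      have : (0 : ℝ) < n := by exact_mod_cast hn
      positivity
    have h4 : (1 : ℝ) ≤ 6 * M * ((n : ℝ) ^ 2)⁻¹ := by
      rw [← div_eq_mul_inv, le_div_iff₀ hn2', one_mul]
      exact_mod_cast hle
    have h5 : (M : ℝ) / (n : ℝ) ^ 2 = M * ((n : ℝ) ^ 2)⁻¹ := div_eq_mul_inv _ _
    rw [h5] at h1
    linarith

/-- the bad pairs -/
noncomputable def Bd (M : ℕ) : Finset (ℕ × ℕ) := (range M ×ˢ range M).filter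
  (fun t => ∃ p : ℕ, p.Prime ∧ p ≠ 3 ∧ p ^ 2 ∣ 6 * t.1 + 1 ∧ p ^ 2 ∣ 6 * t.2 + 1)

theorem card_Bd (M : ℕ) : ((Bd M).card : ℝ) ≤ 49 / 100 * (M : ℝ) ^ 2 := by
  have h1 : Bd M ⊆ (Ioc 4 (6 * M + 4)).biUnion (fun n => Sn M n ×ˢ Sn M n) := by
    intro t ht
    unfold Bd at ht
    rw [mem_filter, mem_product, mem_range, mem_range] at ht
    obtain ⟨⟨h1, h2⟩, p, hp, hp3, h4, h5⟩ := ht
    have hp2 : p ≠ 2 := by
      rintro rfl
      omega
    have hp4 : p ≠ 4 := by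
      rintro rfl
      exact absurd hp (by norm_num)
    have hp5 : 4 < p := by
      have := hp.two_le
      omega
    rw [mem_biUnion]
    refine ⟨p, ?_, ?_⟩
    · rw [mem_Ioc]
      refine ⟨hp5, ?_⟩
      have h6 : p ^ 2 ≤ 6 * t.1 + 1 := Nat.le_of_dvd (by omega) h4
      have h7 : p ≤ p ^ 2 := Nat.le_self_pow (by norm_num) p
      omega
    · rw [mem_product]
      unfold Sn
      rw [mem_filter, mem_filter, mem_range, mem_range]
      exact ⟨⟨h1, h4⟩, ⟨h2, h5⟩⟩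
  have h2 : ((Bd M).card : ℝ) ≤ ∑ n ∈ Ioc 4 (6 * M + 4), (((Sn M n).card : ℝ) * (Sn M n).card) := by
    have h3 := (card_le_card h1).trans card_biUnion_le
    have h4 : ((Bd M).card : ℝ) ≤ ((∑ n ∈ Ioc 4 (6 * M + 4), (Sn M n ×ˢ Sn M n).card : ℕ) : ℝ) := by
      exact_mod_cast h3
    refine h4.trans (le_of_eq ?_)
    rw [Nat.cast_sum]
    refine sum_congr rfl fun n _ => ?_
    rw [card_product, Nat.cast_mul]
  have h3 : ∑ n ∈ Ioc 4 (6 * M + 4), (((Sn M n).card : ℝ) * (Sn M n).card) ≤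
      ∑ n ∈ Ioc 4 (6 * M + 4), (49 / 25 * (M : ℝ) ^ 2) * ((n : ℝ) ^ 2)⁻¹ := by
    refine sum_le_sum fun n hn => ?_
    rw [mem_Ioc] at hn
    have h4 := card_Sn (M := M) (n := n) (by omega)
    have h5 : (0 : ℝ) ≤ ((Sn M n).card : ℝ) := Nat.cast_nonneg _
    have h6 : (5 : ℝ) ≤ n := by exact_mod_cast (by omega : 5 ≤ n)
    have h7 : (0 : ℝ) < ((n : ℝ) ^ 2)⁻¹ := by positivity
    have h8 : ((n : ℝ) ^ 2)⁻¹ ≤ 1 / 25 := by
      rw [inv_eq_one_div]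
      refine one_div_le_one_div_of_le (by norm_num) ?_
      nlinarith
    calc ((Sn M n).card : ℝ) * (Sn M n).card ≤ (7 * M * ((n : ℝ) ^ 2)⁻¹) * (7 * M * ((n : ℝ) ^ 2)⁻¹) :=
          mul_le_mul h4 h4 h5 (by positivity)
      _ = (49 * (M : ℝ) ^ 2 * ((n : ℝ) ^ 2)⁻¹) * ((n : ℝ) ^ 2)⁻¹ := by ring
      _ ≤ (49 * (M : ℝ) ^ 2 * ((n : ℝ) ^ 2)⁻¹) * (1 / 25) :=
          mul_le_mul_of_nonneg_left h8 (by positivity)
      _ = (49 / 25 * (M : ℝ) ^ 2) * ((n : ℝ) ^ 2)⁻¹ := by ring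
  refine h2.trans (h3.trans ?_)
  rw [← mul_sum]
  have h4 := sum_Ioc_inv_sq_le_sub (α := ℝ) (k := 4) (n := 6 * M + 4) (by norm_num) (by omega)
  have h5 : (0 : ℝ) ≤ (((6 * M + 4 : ℕ) : ℝ))⁻¹ := by positivity
  have h6 : ∑ i ∈ Ioc 4 (6 * M + 4), ((i : ℝ) ^ 2)⁻¹ ≤ 1 / 4 := by
    refine h4.trans ?_
    rw [Nat.cast_ofNat]
    norm_num
    linarith
  calc (49 / 25 * (M : ℝ) ^ 2) * ∑ i ∈ Ioc 4 (6 * M + 4), ((i : ℝ) ^ 2)⁻¹
      ≤ (49 / 25 * (M : ℝ) ^ 2) * (1 / 4) := mul_le_mul_of_nonneg_left h6 (by positivity)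
    _ = 49 / 100 * (M : ℝ) ^ 2 := by ring

theorem fu_low (hr : Tendsto Rh atTop atTop) : ∃ c : ℝ, 0 < c ∧ ∀ᶠ H in atTop,
    c * (Rh H : ℝ) ≤ (Fu H).card := by
  refine ⟨1 / 1000, by norm_num, ?_⟩
  filter_upwards [hr.eventually_ge_atTop 108] with H hH
  set R := Rh H with hR
  set M := Nat.sqrt (R / 108) with hM
  have hM1 : 1 ≤ M := by
    rw [hM, Nat.le_sqrt', Nat.le_div_iff_mul_le (by norm_num)]
    omega
  have hM2 : M ^ 2 * 108 ≤ R := by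
    rw [← Nat.le_div_iff_mul_le (by norm_num)]
    exact Nat.sqrt_le' (R / 108)
  have hM3 : R < (M + 1) ^ 2 * 108 := by
    have h1 : R / 108 < (M + 1) ^ 2 := Nat.lt_succ_sqrt' (R / 108)
    omega
  have hM4 : (R : ℝ) ≤ 432 * (M : ℝ) ^ 2 := by
    have h1 : (R : ℝ) ≤ ((M : ℝ) + 1) ^ 2 * 108 := by exact_mod_cast hM3.le
    have h2 : (1 : ℝ) ≤ M := by exact_mod_cast hM1
    nlinarith
  have hsub : ((range M ×ˢ range M) \ Bd M).image (fun t : ℕ × ℕ => (6 * t.1 + 1, 6 * t.2 + 1)) ⊆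
      Fu H := by
    intro s hs
    rw [mem_image] at hs
    obtain ⟨t, ht, rfl⟩ := hs
    rw [Finset.mem_sdiff, mem_product, mem_range, mem_range] at ht
    obtain ⟨⟨h1, h2⟩, h3⟩ := ht
    unfold Fu
    rw [mem_filter, mem_RgC]
    refine ⟨⟨by simp, by simp, ?_⟩, ?_, ?_, ?_⟩
    · have h4 : 6 * t.1 + 1 ≤ 6 * M := by omega
      have h5 : 6 * t.2 + 1 ≤ 6 * M := by omega
      show (6 * t.1 + 1) ^ 2 + (6 * t.1 + 1) * (6 * t.2 + 1) + (6 * t.2 + 1) ^ 2 ≤ R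
      calc (6 * t.1 + 1) ^ 2 + (6 * t.1 + 1) * (6 * t.2 + 1) + (6 * t.2 + 1) ^ 2
          ≤ (6 * M) ^ 2 + (6 * M) * (6 * M) + (6 * M) ^ 2 := by gcongr
        _ = M ^ 2 * 108 := by ring
        _ ≤ R := hM2
    · show 6 * t.1 + 1 ≡ 6 * t.2 + 1 [MOD 3]
      unfold Nat.ModEq
      omega
    · show ¬ (27 ∣ 2 * (6 * t.1 + 1) + (6 * t.2 + 1) ∧ 9 ∣ 6 * t.1 + 1)
      omega
    · intro p hp hp3 hd
      refine h3 ?_
      unfold Bd
      rw [mem_filter, mem_product, mem_range, mem_range]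
      exact ⟨⟨h1, h2⟩, p, hp, hp3, hd.1, hd.2⟩
  have hinj : Function.Injective (fun t : ℕ × ℕ => (6 * t.1 + 1, 6 * t.2 + 1)) := by
    intro t s h
    have h1 := congrArg Prod.fst h
    have h2 := congrArg Prod.snd h
    simp only at h1 h2
    exact Prod.ext (by omega) (by omega)
  have hcard := card_le_card hsub
  rw [card_image_of_injective _ hinj] at hcard
  have hsub2 : Bd M ⊆ range M ×ˢ range M := filter_subset _ _
  rw [card_sdiff_of_subset hsub2, card_product, card_range] at hcard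
  have h1 : (M : ℝ) * M - (Bd M).card ≤ (Fu H).card := by
    have h2 : M * M ≤ (Fu H).card + (Bd M).card := by omega
    have h3 : (M : ℝ) * M ≤ ((Fu H).card : ℝ) + (Bd M).card := by exact_mod_cast h2
    linarith
  have h2 := card_Bd M
  nlinarith

/-- `Fw w H` is a union of residue classes -/
theorem fw_classes (w : ℕ) : ∃ W : ℕ, 1 ≤ W ∧ (∀ p : ℕ, p.Prime → p ∣ W → p ≤ max w 3) ∧
    ∃ S : Finset (ℕ × ℕ), (S : Set (ℕ × ℕ)) ⊆ {s | s.1 < W ∧ s.2 < W} ∧ ∀ (H : ℕ) (f : ℕ × ℕ → ℂ),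
      ∑ t ∈ Fw w H, f t = ∑ s ∈ S, ∑ t ∈ Rc (Rh H) W s.1 s.2, f t := by
  set W : ℕ := 27 * (w.factorial) ^ 2 with hW
  have hW0 : 0 < W := by
    have := Nat.factorial_pos w
    positivity
  have hp2 : ∀ p : ℕ, p.Prime → p ≤ w → p ^ 2 ∣ W := fun p hp hpw =>
    (pow_dvd_pow_of_dvd (Nat.dvd_factorial hp.pos hpw) 2).trans (Dvd.intro_left _ rfl)
  have h27 : 27 ∣ W := Dvd.intro _ rfl
  have key : ∀ t s : ℕ × ℕ, t.1 ≡ s.1 [MOD W] → t.2 ≡ s.2 [MOD W] → Lw w t → Lw w s := by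
    rintro t s h1 h2 ⟨a1, a2, a3⟩
    have b1 := h1.of_dvd h27
    have b2 := h2.of_dvd h27
    refine ⟨?_, ?_, ?_⟩
    · have c1 := b1.of_dvd (by norm_num : 3 ∣ 27)
      have c2 := b2.of_dvd (by norm_num : 3 ∣ 27)
      exact c1.symm.trans (a1.trans c2)
    · rintro ⟨c1, c2⟩
      refine a2 ⟨?_, ?_⟩
      · have c3 : 2 * t.1 + t.2 ≡ 2 * s.1 + s.2 [MOD 27] := (b1.mul_left 2).add b2
        exact (c3.dvd_iff (dvd_refl 27)).2 c1
      · exact ((b1.of_dvd (by norm_num : 9 ∣ 27)).dvd_iff (dvd_refl 9)).2 c2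
    · rintro p hp hpw hp3 ⟨c1, c2⟩
      refine a3 p hp hpw hp3 ⟨?_, ?_⟩
      · exact (h1.dvd_iff (hp2 p hp hpw)).2 c1
      · exact (h2.dvd_iff (hp2 p hp hpw)).2 c2
  refine ⟨W, hW0, ?_, (range W ×ˢ range W).filter (Lw w), ?_, ?_⟩
  · intro p hp hd
    rw [hW, hp.dvd_mul] at hd
    rcases hd with h | h
    · have h3 : p ∣ 3 := by
        have : p ∣ 3 ^ 3 := by
          have e : (3 : ℕ) ^ 3 = 27 := by norm_num
          rw [e]; exact h
        exact hp.dvd_of_dvd_pow this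
      exact (Nat.le_of_dvd (by norm_num) h3).trans (le_max_right _ _)
    · exact ((hp.dvd_factorial).1 (hp.dvd_of_dvd_pow h)).trans (le_max_left _ _)
  · intro s hs
    rw [mem_coe, mem_filter, mem_product, mem_range, mem_range] at hs
    exact hs.1
  · intro H f
    have hmaps : ∀ t ∈ Fw w H, (t.1 % W, t.2 % W) ∈ (range W ×ˢ range W).filter (Lw w) := by
      intro t ht
      unfold Fw at ht
      rw [mem_filter] at ht
      rw [mem_filter, mem_product, mem_range, mem_range]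
      refine ⟨⟨Nat.mod_lt _ hW0, Nat.mod_lt _ hW0⟩, ?_⟩
      exact key t (t.1 % W, t.2 % W) (Nat.mod_modEq _ _).symm (Nat.mod_modEq _ _).symm ht.2
    rw [← sum_fiberwise_of_maps_to hmaps]
    refine sum_congr rfl fun s hs => ?_
    rw [mem_filter, mem_product, mem_range, mem_range] at hs
    obtain ⟨⟨h1, h2⟩, h3⟩ := hs
    have hset : (Fw w H).filter (fun t => (t.1 % W, t.2 % W) = s) = Rc (Rh H) W s.1 s.2 := by
      ext t
      unfold Fw Rc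
      rw [mem_filter, mem_filter, mem_filter]
      constructor
      · rintro ⟨⟨a1, a2⟩, a3⟩
        have a4 : t.1 % W = s.1 := congrArg Prod.fst a3
        have a5 : t.2 % W = s.2 := congrArg Prod.snd a3
        refine ⟨a1, ?_, ?_⟩
        · rw [← a4]; exact (Nat.mod_modEq _ _).symm
        · rw [← a5]; exact (Nat.mod_modEq _ _).symm
      · rintro ⟨a1, a2, a3⟩
        refine ⟨⟨a1, key s t a2.symm a3.symm h3⟩, ?_⟩
        refine Prod.ext ?_ ?_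
        · have : t.1 % W = s.1 % W := a2
          rw [Nat.mod_eq_of_lt h1] at this
          exact this
        · have : t.2 % W = s.2 % W := a3
          rw [Nat.mod_eq_of_lt h2] at this
          exact this
    rw [hset]

end Pool.Agent.H514.GL
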