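import Pool.Agent.H514.IS.Tu4

/-! Project GL: the joint law of the groups `Ш(E / ⟨Tᵢ⟩)[2]`: definitions. -/

set_option autoImplicit false

open scoped Classical

namespace Pool.Agent.H514.GL

open Finset Filter Pool.Agent.H514.IS

/-- the region: pairs `(u, v)` of positive integers with `u² + u v + v² ≤ R` -/
def Rg (R : ℕ) : Finset (ℕ × ℕ) :=
  ((Icc 1 R) ×ˢ (Icc 1 R)).filter (fun t => t.1 ^ 2 + t.1 * t.2 + t.2 ^ 2 ≤ R)

/-- the part of the region in a residue class modulo `m` -/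
def Rc (R m a b : ℕ) : Finset (ℕ × ℕ) :=
  (Rg R).filter (fun t => t.1 ≡ a [MOD m] ∧ t.2 ≡ b [MOD m])

/-- the largest `n` with `4 n³ ≤ 27 H` -/
def Rh (H : ℕ) : ℕ := Nat.findGreatest (fun n => 4 * n ^ 3 ≤ 27 * H) (27 * H)

/-- the differences of the other roots with the root `i`, for the roots `e₀ < e₁ < e₂` with
`e₁ - e₀ = u`, `e₂ - e₁ = v` -/
def sh (i : Fin 3) (t : ℕ × ℕ) : ℤ × ℤ :=
  if i = 0 then ((t.1 : ℤ), (t.1 : ℤ) + t.2) else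
    if i = 1 then (-(t.1 : ℤ), (t.2 : ℤ)) else (-((t.1 : ℤ) + t.2), -(t.2 : ℤ))

/-- the vector of the contributions of the prime `p` -/
noncomputable def yv (p : ℕ) (t : ℕ × ℕ) : Fin 3 → ℝ := fun i => ph p (sh i t)

/-- the scalar product -/
noncomputable def dt (θ x : Fin 3 → ℝ) : ℝ := ∑ i, θ i * x i

/-- the additive function -/
noncomputable def Vv (w z : ℕ) (θ : Fin 3 → ℝ) (t : ℕ × ℕ) : ℝ := ∑ p ∈ Pw w z, dt θ (yv p t)

/-- the double logarithm -/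
noncomputable def ll (H : ℕ) : ℝ := Real.log (Real.log H)

/-- the number of the prime factors in the expansion -/
noncomputable def kk (H : ℕ) : ℕ := ⌊ll H⌋₊

/-- the bound of the primes -/
noncomputable def zz (H : ℕ) : ℕ := ⌊((Rh H : ℕ) : ℝ) ^ (1 / (8 * ((kk H : ℝ) + 1)))⌋₊

/-- the size of the parameters: `|(sh i t).1|, |(sh i t).2| ≤ TT H` for `t ∈ Rg (Rh H)` -/
def TT (H : ℕ) : ℕ := 2 * (Nat.sqrt (Rh H) + 1)

/-- the fourth root of `TT H`: `yy ^ 4 ≤ TT < (yy + 1) ^ 4` -/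
def yy (H : ℕ) : ℕ := Nat.sqrt (Nat.sqrt (TT H))

/-- the conditions at `3` and at the primes at most `w` -/
def Lw (w : ℕ) (t : ℕ × ℕ) : Prop :=
  t.1 ≡ t.2 [MOD 3] ∧ ¬ (27 ∣ 2 * t.1 + t.2 ∧ 9 ∣ t.1) ∧
    ∀ p : ℕ, p.Prime → p ≤ w → p ≠ 3 → ¬ (p ^ 2 ∣ t.1 ∧ p ^ 2 ∣ t.2)

/-- the local conditions -/
def Lo (t : ℕ × ℕ) : Prop :=
  t.1 ≡ t.2 [MOD 3] ∧ ¬ (27 ∣ 2 * t.1 + t.2 ∧ 9 ∣ t.1) ∧
    ∀ p : ℕ, p.Prime → p ≠ 3 → ¬ (p ^ 2 ∣ t.1 ∧ p ^ 2 ∣ t.2)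

/-- the family in the coordinates `(u, v)` -/
noncomputable def Fu (H : ℕ) : Finset (ℕ × ℕ) := (Rg (Rh H)).filter Lo

/-- the family with the conditions at the primes at most `w` -/
noncomputable def Fw (w H : ℕ) : Finset (ℕ × ℕ) := (Rg (Rh H)).filter (Lw w)

end Pool.Agent.H514.GL
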