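import Pool.Agent.H514.GL.Lim2
import Pool.Agent.H514.GL.Bij

/-! Project GL: the joint law over the curves ordered by height. -/

set_option autoImplicit false

open scoped Classical

namespace Pool.Agent.H514.GL

open Finset Filter Pool.Agent.H514.IS Pool.Agent.W307.RT Pool.Agent.H514 MeasureTheory
  ProbabilityTheory

variable {C C0 c0 : ℝ}

lemma rts_sum {c : ℤ × ℤ} {e : Fin 3 → ℤ} (h : Rts3 c e) : e 0 + e 1 + e 2 = 0 := by
  obtain ⟨h1, h2, h3⟩ := h
  have a0 := h3 0
  have a1 := h3 1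
  have a2 := h3 2
  have h01 : e 1 - e 0 ≠ 0 := by omega
  have h12 : e 2 - e 1 ≠ 0 := by omega
  have h02 : e 2 - e 0 ≠ 0 := by omega
  have b1 : (e 1) ^ 2 + e 1 * e 0 + (e 0) ^ 2 + c.1 = 0 := by
    apply mul_left_cancel₀ h01
    linear_combination a1 - a0
  have b2 : (e 2) ^ 2 + e 2 * e 1 + (e 1) ^ 2 + c.1 = 0 := by
    apply mul_left_cancel₀ h12
    linear_combination a2 - a1
  apply mul_left_cancel₀ h02
  linear_combination b2 - b1

lemma rts_uniq {c : ℤ × ℤ} {e f : Fin 3 → ℤ} (h : Rts3 c e) (h' : Rts3 c f) : e = f := by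
  have s1 := rts_sum h
  have s2 := rts_sum h'
  obtain ⟨h1, h2, h3⟩ := h
  obtain ⟨g1, g2, g3⟩ := h'
  have key : ∀ i, f i = e 0 ∨ f i = e 1 ∨ f i = e 2 := by
    intro i
    have a0 := h3 0
    have a1 := h3 1
    have a2 := h3 2
    have ai := g3 i
    have h01 : e 1 - e 0 ≠ 0 := by omega
    have b1 : (e 1) ^ 2 + e 1 * e 0 + (e 0) ^ 2 + c.1 = 0 := by
      apply mul_left_cancel₀ h01
      linear_combination a1 - a0
    have h4 : (f i - e 0) * ((f i - e 1) * (f i - e 2)) = 0 := by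
      have e2 : e 2 = - e 0 - e 1 := by linarith
      rw [e2]
      linear_combination ai - a0 - (f i - e 0) * b1
    rcases mul_eq_zero.1 h4 with h | h
    · exact Or.inl (sub_eq_zero.1 h)
    rcases mul_eq_zero.1 h with h | h
    · exact Or.inr (Or.inl (sub_eq_zero.1 h))
    · exact Or.inr (Or.inr (sub_eq_zero.1 h))
  have k0 := key 0
  have k1 := key 1
  have k2 := key 2
  funext i
  fin_cases i <;> simp only [Fin.zero_eta, Fin.mk_one, Fin.reduceFinMk] <;> omega

lemma quo_sh {c : ℤ × ℤ} {e : Fin 3 → ℤ} {t : ℕ × ℕ} (h : Rts3 c e)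
    (h1 : e 1 - e 0 = (t.1 : ℤ)) (h2 : e 2 - e 1 = (t.2 : ℤ)) (i : Fin 3) :
    lg (Quo c.1 (e i)) = lq t i := by
  have hs := rts_sum h
  obtain ⟨g1, g2, g3⟩ := h
  have a0 := g3 0
  have a1 := g3 1
  have a2 := g3 2
  have h01 : e 1 - e 0 ≠ 0 := by omega
  have b1 : (e 1) ^ 2 + e 1 * e 0 + (e 0) ^ 2 + c.1 = 0 := by
    apply mul_left_cancel₀ h01
    linear_combination a1 - a0
  have e2 : e 2 = - e 0 - e 1 := by linarith
  unfold lq
  fin_cases i
  · have r : Rel2 c (e 1 - e 0, -2 * e 0 - e 1) := by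
      refine ⟨e 0, e 1, rfl, by omega, by omega, by omega, ?_, ?_⟩
      · linear_combination b1
      · linear_combination a0 - e 0 * b1
    have q := quo_eq r
    have x1 : e 1 - e 0 = ((sh 0 t).1 : ℤ) := h1
    have x2 : -2 * e 0 - e 1 = ((sh 0 t).2 : ℤ) := by
      show -2 * e 0 - e 1 = (t.1 : ℤ) + t.2
      rw [← h1, ← h2, e2]
      ring
    rw [x1, x2] at q
    simp only [Fin.zero_eta]
    rw [q]
  · have r : Rel2 c (e 0 - e 1, -2 * e 1 - e 0) := by
      refine ⟨e 1, e 0, rfl, by omega, by omega, by omega, ?_, ?_⟩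
      · linear_combination b1
      · linear_combination a0 - e 0 * b1
    have q := quo_eq r
    have x1 : e 0 - e 1 = ((sh 1 t).1 : ℤ) := by
      show e 0 - e 1 = -(t.1 : ℤ)
      rw [← h1]
      ring
    have x2 : -2 * e 1 - e 0 = ((sh 1 t).2 : ℤ) := by
      show -2 * e 1 - e 0 = (t.2 : ℤ)
      rw [← h2, e2]
      ring
    rw [x1, x2] at q
    simp only [Fin.mk_one]
    rw [q]
  · have r : Rel2 c (e 0 - e 2, -2 * e 2 - e 0) := by
      refine ⟨e 2, e 0, rfl, by omega, by omega, by omega, ?_, ?_⟩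
      · rw [e2]
        linear_combination b1
      · rw [e2]
        linear_combination a0 - e 0 * b1
    have q := quo_eq r
    have x1 : e 0 - e 2 = ((sh 2 t).1 : ℤ) := by
      show e 0 - e 2 = -((t.1 : ℤ) + t.2)
      rw [← h1, ← h2]
      ring
    have x2 : -2 * e 2 - e 0 = ((sh 2 t).2 : ℤ) := by
      show -2 * e 2 - e 0 = -(t.2 : ℤ)
      rw [← h2, e2]
      ring
    rw [x1, x2] at q
    simp only [Fin.reduceFinMk]
    rw [q]

/-- the joint law -/
theorem fin_law (hy : Hy C C0 c0) (hdiff : ∀ (θ : Fin 3 → ℝ) {w : ℕ}, 4 ≤ w →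
    Tendsto (fun H => (∑ t ∈ Rg (Rh H), |Vv 4 (yy H) θ t - Vv w (zz H) θ t|) /
      (Real.sqrt (ll H) * Rh H)) atTop (nhds 0))
    (e : ℤ × ℤ → Fin 3 → ℤ) (he : ∀ H, ∀ c ∈ Cv 2 H, Rts3 c (e c)) (x : Fin 3 → ℝ) :
    Tendsto (fun H : ℕ => (((Cv 2 H).filter (fun c => ∀ i,
      lg (Quo c.1 (e c i)) ≤ 3 / 2 * Real.log (Real.log H) +
        x i * Real.sqrt (5 / 2 * Real.log (Real.log H)))).card : ℝ) / (Cv 2 H).card) atTop
      (nhds (∏ i, (gaussianReal 0 1 (Set.Iic (x i))).toReal)) := by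
  obtain ⟨G, hG⟩ := bij
  have hG2 : ∀ H, ∀ c ∈ Cv 2 H, (e c) 1 - (e c) 0 = ((G c).1 : ℤ) ∧
      (e c) 2 - (e c) 1 = ((G c).2 : ℤ) := by
    intro H c hc
    obtain ⟨f, h1, h2, h3⟩ := (hG H).2 c hc
    rw [rts_uniq (he H c hc) h1]
    exact ⟨h2, h3⟩
  set Y : ℕ → ℤ × ℤ → Fin 3 → ℝ := fun H c i =>
    (lg (Quo c.1 (e c i)) - 3 / 2 * ll H) / Real.sqrt (5 / 2 * ll H) with hY
  have hcard : ∀ H, (Cv 2 H).card = (Fu H).card := by
    intro H
    apply card_bij (fun c _ => G c)
    · intro c hc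
      exact (hG H).1.mapsTo hc
    · intro c hc d hd h
      exact (hG H).1.injOn hc hd h
    · intro t ht
      obtain ⟨c, hc, h⟩ := (hG H).1.surjOn ht
      exact ⟨c, hc, h⟩
  have hne : ∀ᶠ H in atTop, (Cv 2 H).Nonempty := by
    obtain ⟨c, hc, hlow⟩ := fu_low rh_tend
    filter_upwards [hlow, rh_tend.eventually_ge_atTop 1] with H h1 h2
    rw [← card_pos, hcard]
    have h3 : (0 : ℝ) < Rh H := by exact_mod_cast h2
    have h4 : (0 : ℝ) < (Fu H).card := lt_of_lt_of_le (by positivity) h1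
    exact_mod_cast h4
  have hprob := prob (fun H => Cv 2 H) Y hne (fun θ => ?_) x
  · refine hprob.congr' ?_
    filter_upwards [ll_tend.eventually_gt_atTop 0] with H hH
    congr 2
    congr 1
    apply filter_congr
    intro c _
    refine forall_congr' fun i => ?_
    have hs : 0 < Real.sqrt (5 / 2 * ll H) := Real.sqrt_pos.2 (by positivity)
    rw [hY]
    simp only
    rw [div_le_iff₀ hs]
    unfold ll
    constructor
    · intro h
      linarith
    · intro h
      linarith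
  · -- the characteristic functions
    set s : ℝ := Real.sqrt (5 / 2) with hs
    have hs0 : 0 < s := Real.sqrt_pos.2 (by norm_num)
    have hs2 : s * s = 5 / 2 := Real.mul_self_sqrt (by norm_num)
    have h1 := fu_lim hy hdiff (fun i => θ i / s)
    have h2 : gg (fun i => θ i / s) = Complex.exp ((-(∑ i, θ i ^ 2) / 2 : ℝ) : ℂ) := by
      unfold gg
      congr 2
      have h3 : ∀ i, (θ i / s) ^ 2 = θ i ^ 2 / (5 / 2) := by
        intro i
        rw [div_pow, ← hs2, sq s]
      simp only [h3]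
      rw [← sum_div]
      ring
    rw [h2] at h1
    refine h1.congr fun H => ?_
    have h5 : ∑ t ∈ Fu H, Complex.exp (Complex.I * (Zz (fun i => θ i / s) H t : ℂ)) =
        ∑ c ∈ Cv 2 H, Complex.exp (Complex.I * ((∑ i, θ i * Y H c i : ℝ) : ℂ)) := by
      symm
      apply sum_bij (fun c _ => G c)
      · intro c hc
        exact (hG H).1.mapsTo hc
      · intro c hc d hd h
        exact (hG H).1.injOn hc hd h
      · intro t ht
        obtain ⟨c, hc, h⟩ := (hG H).1.surjOn ht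
        exact ⟨c, hc, h⟩
      · intro c hc
        congr 3
        obtain ⟨g1, g2⟩ := hG2 H c hc
        have g3 : ∀ i, lg (Quo c.1 (e c i)) = lq (G c) i :=
          fun i => quo_sh (he H c hc) g1 g2 i
        rw [hY]
        simp only [g3]
        unfold Zz dt
        rw [Real.sqrt_mul (by norm_num : (0 : ℝ) ≤ 5 / 2), ← hs]
        rw [mul_sum, sum_mul, ← sum_sub_distrib, sum_div]
        refine sum_congr rfl fun i _ => ?_
        field_simp
    rw [h5, hcard]

end Pool.Agent.H514.GL
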