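import Mathlib

/-!
GL-12. From characteristic functions to distribution functions (three dimensions, finite probability
spaces).

PROOF. For `H` with `F H` nonempty let `μ H` be the law of `Y H` under the uniform measure on `F H`, a probability measure on
`EuclideanSpace ℝ (Fin 3)` (a finite sum of Dirac measures with weight `1 / #F H`); its characteristic function
`MeasureTheory.charFun` at `θ` is `(∑_{c ∈ F H} exp(i θ·Y H c)) / #F H`. The standard Gaussian `γ` on
`EuclideanSpace ℝ (Fin 3)` (the image of the product measure `Measure.pi (fun _ => gaussianReal 0 1)`, or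
`stdGaussian`) has the characteristic function `exp(-|θ|² / 2)`. By Lévy's theorem
(`MeasureTheory.ProbabilityMeasure.tendsto_iff_tendsto_charFun`, file
`Mathlib/MeasureTheory/Measure/LevyConvergence.lean`; look at `Mathlib/Probability/CentralLimitTheorem.lean` for
an example), `μ H → γ` weakly. The set `{y : ∀ i, y i ≤ x i}` has a `γ`-null boundary (it is contained in the
union of the hyperplanes `y i = x i`), so `μ H {y ≤ x} → γ {y ≤ x} = ∏ i, gaussianReal 0 1 (Iic (x i))`
(`ProbabilityMeasure.tendsto_measure_of_null_frontier_of_tendsto`, `Measure.pi_pi`). (For the finitely many... the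
theorem is about sequences; replace `μ H` by a fixed measure when `F H` is empty.)
-/

set_option autoImplicit false

open scoped Classical

namespace Pool.Agent.H514.GL

open Finset Filter MeasureTheory ProbabilityTheory

abbrev E3 : Type := EuclideanSpace ℝ (Fin 3)

noncomputable def M {ι : Type} (F : Finset ι) (y : ι → E3) : Measure E3 :=
  ((F.card : ENNReal)⁻¹) • ∑ c ∈ F, Measure.dirac (y c)

theorem M_prob {ι : Type} {F : Finset ι} (hF : F.Nonempty) (y : ι → E3) :
    IsProbabilityMeasure (M F y) := by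
  constructor
  have hc : (F.card : ENNReal) ≠ 0 := by
    simpa using hF.card_pos.ne'
  unfold M
  rw [Measure.smul_apply, Measure.finsetSum_apply]
  simp only [measure_univ, Finset.sum_const, nsmul_eq_mul, mul_one, smul_eq_mul]
  exact ENNReal.inv_mul_cancel hc (ENNReal.natCast_ne_top _)

theorem M_apply {ι : Type} (F : Finset ι) (y : ι → E3) (S : Set E3) (hS : MeasurableSet S)
    (p : ι → Prop) [DecidablePred p] (hp : ∀ c, y c ∈ S ↔ p c) :
    (M F y S).toReal = ((F.filter p).card : ℝ) / F.card := by
  have h1 : ∑ c ∈ F, (Measure.dirac (y c)) S = ((F.filter p).card : ENNReal) := by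
    rw [Finset.card_filter, Nat.cast_sum]
    refine Finset.sum_congr rfl fun c _ => ?_
    rw [Measure.dirac_apply' _ hS]
    by_cases h : p c
    · rw [Set.indicator_of_mem ((hp c).2 h)]
      simp [h]
    · rw [Set.indicator_of_notMem (fun h' => h ((hp c).1 h'))]
      simp [h]
  unfold M
  rw [Measure.smul_apply, Measure.finsetSum_apply, h1, smul_eq_mul, ENNReal.toReal_mul,
    ENNReal.toReal_inv, ENNReal.toReal_natCast, ENNReal.toReal_natCast]
  rw [div_eq_inv_mul]

theorem M_charFun {ι : Type} (F : Finset ι) (y : ι → E3) (t : E3) :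
    charFun (M F y) t = (∑ c ∈ F, Complex.exp (Complex.I * ((∑ i, t i * y c i : ℝ) : ℂ))) /
      (F.card : ℂ) := by
  rw [charFun_apply]
  unfold M
  rw [integral_smul_measure, integral_finsetSum_measure]
  · simp only [integral_dirac]
    rw [ENNReal.toReal_inv, ENNReal.toReal_natCast, Complex.real_smul, div_eq_inv_mul]
    congr 1
    · push_cast
      rfl
    · refine Finset.sum_congr rfl fun c _ => ?_
      rw [mul_comm Complex.I]
      have : inner ℝ (y c) t = ∑ i, t i * y c i := by
        rw [PiLp.inner_apply]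
        refine Finset.sum_congr rfl fun i _ => ?_
        simp
      rw [this]
  · intro c _
    exact integrable_dirac (by simp)

theorem front (x : Fin 3 → ℝ) :
    stdGaussian E3 (frontier {y : E3 | ∀ i, y i ≤ x i}) = 0 := by
  have hcl : IsClosed {y : E3 | ∀ i, y i ≤ x i} := by
    have : {y : E3 | ∀ i, y i ≤ x i} = ⋂ i, {y : E3 | y i ≤ x i} := by
      ext y
      simp
    rw [this]
    exact isClosed_iInter fun i => isClosed_le (by fun_prop) continuous_const
  have hop : IsOpen {y : E3 | ∀ i, y i < x i} := by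
    have : {y : E3 | ∀ i, y i < x i} = ⋂ i, {y : E3 | y i < x i} := by
      ext y
      simp
    rw [this]
    exact isOpen_iInter_of_finite fun i => isOpen_lt (by fun_prop) continuous_const
  have hsub : frontier {y : E3 | ∀ i, y i ≤ x i} ⊆ ⋃ i, {y : E3 | y i = x i} := by
    intro y hy
    rw [hcl.frontier_eq] at hy
    by_contra hne
    simp only [Set.mem_iUnion, Set.mem_ofPred_eq, not_exists] at hne
    refine hy.2 (mem_interior.2 ⟨_, fun z hz i => (hz i).le, hop, fun i => ?_⟩)
    exact lt_of_le_of_ne (hy.1 i) (hne i)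
  refine measure_mono_null hsub ?_
  rw [measure_iUnion_null_iff]
  intro i
  have hm : MeasurableSet {y : E3 | y i = x i} :=
    measurableSet_eq_fun (by fun_prop) measurable_const
  rw [← map_pi_eq_stdGaussian, Measure.map_apply (by fun_prop) hm]
  have : NullSingletonClass (gaussianReal 0 1) := nullSingletonClass_gaussianReal one_ne_zero
  exact Measure.pi_hyperplane (fun _ : Fin 3 => gaussianReal 0 1) i (x i)

theorem gval (x : Fin 3 → ℝ) :
    (stdGaussian E3 {y : E3 | ∀ i, y i ≤ x i}).toReal =
      ∏ i, (gaussianReal 0 1 (Set.Iic (x i))).toReal := by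
  have hm : MeasurableSet {y : E3 | ∀ i, y i ≤ x i} := by
    have : {y : E3 | ∀ i, y i ≤ x i} = ⋂ i, {y : E3 | y i ≤ x i} := by
      ext y
      simp
    rw [this]
    exact MeasurableSet.iInter fun i => measurableSet_le (by fun_prop) measurable_const
  rw [← map_pi_eq_stdGaussian, Measure.map_apply (by fun_prop) hm]
  have : (WithLp.toLp 2 ⁻¹' {y : E3 | ∀ i, y i ≤ x i} : Set (Fin 3 → ℝ)) =
      Set.univ.pi fun i => Set.Iic (x i) := by
    ext z
    simp [Pi.le_def]
  rw [this, Measure.pi_pi, ENNReal.toReal_prod]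

theorem prob {ι : Type} (F : ℕ → Finset ι) (Y : ℕ → ι → Fin 3 → ℝ)
    (hF : ∀ᶠ H in atTop, (F H).Nonempty)
    (h : ∀ θ : Fin 3 → ℝ, Tendsto (fun H => (∑ c ∈ F H,
      Complex.exp (Complex.I * ((∑ i, θ i * Y H c i : ℝ) : ℂ))) / ((F H).card : ℂ)) atTop
        (nhds (Complex.exp ((-(∑ i, θ i ^ 2) / 2 : ℝ) : ℂ)))) (x : Fin 3 → ℝ) :
    Tendsto (fun H => (((F H).filter (fun c => ∀ i, Y H c i ≤ x i)).card : ℝ) / (F H).card) atTop
      (nhds (∏ i, (gaussianReal 0 1 (Set.Iic (x i))).toReal)) := by
  set P : ℕ → ProbabilityMeasure E3 := fun H =>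
    if h : (F H).Nonempty then ⟨M (F H) (fun c => WithLp.toLp 2 (Y H c)), M_prob h _⟩
    else ⟨Measure.dirac 0, inferInstance⟩ with hP
  set G : ProbabilityMeasure E3 := ⟨stdGaussian E3, inferInstance⟩ with hG
  have hPG : Tendsto P atTop (nhds G) := by
    refine ProbabilityMeasure.tendsto_of_tendsto_charFun fun t => ?_
    have h0 := h (fun i => t i)
    have e1 : charFun (G : Measure E3) t = Complex.exp ((-(∑ i, t i ^ 2) / 2 : ℝ) : ℂ) := by
      change charFun (stdGaussian E3) t = _
      rw [charFun_stdGaussian]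
      have : ‖t‖ ^ 2 = ∑ i, t i ^ 2 := EuclideanSpace.real_norm_sq_eq t
      rw [← Complex.ofReal_pow, this]
      push_cast
      rfl
    rw [e1]
    refine h0.congr' ?_
    filter_upwards [hF] with H hH
    have e2 : (P H : Measure E3) = M (F H) (fun c => WithLp.toLp 2 (Y H c)) := by
      rw [hP]
      simp only [hH, dif_pos]
      rfl
    rw [e2, M_charFun]
  have hS : MeasurableSet {y : E3 | ∀ i, y i ≤ x i} := by
    have : {y : E3 | ∀ i, y i ≤ x i} = ⋂ i, {y : E3 | y i ≤ x i} := by
      ext y
      simp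
    rw [this]
    exact MeasurableSet.iInter fun i => measurableSet_le (by fun_prop) measurable_const
  have hlim := ProbabilityMeasure.tendsto_measure_of_null_frontier_of_tendsto' hPG
    (E := {y : E3 | ∀ i, y i ≤ x i}) (front x)
  have hlim2 := (ENNReal.tendsto_toReal (measure_ne_top (G : Measure E3) _)).comp hlim
  have hg : ((G : Measure E3) {y : E3 | ∀ i, y i ≤ x i}).toReal =
      ∏ i, (gaussianReal 0 1 (Set.Iic (x i))).toReal := gval x
  rw [hg] at hlim2
  refine hlim2.congr' ?_
  filter_upwards [hF] with H hH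
  have e2 : (P H : Measure E3) = M (F H) (fun c => WithLp.toLp 2 (Y H c)) := by
    rw [hP]
    simp only [hH, dif_pos]
    rfl
  rw [Function.comp_apply, e2, M_apply _ _ _ hS (fun c => ∀ i, Y H c i ≤ x i)
    (fun c => Iff.rfl)]

/-- perturbation -/
theorem pert {ι : Type} (F : ℕ → Finset ι) (X Y : ℕ → ι → ℝ) (l : ℂ)
    (hF : ∀ᶠ H in atTop, (F H).Nonempty)
    (hX : Tendsto (fun H => (∑ c ∈ F H, Complex.exp (Complex.I * (X H c : ℂ))) /
      ((F H).card : ℂ)) atTop (nhds l))
    (hXY : Tendsto (fun H => (∑ c ∈ F H, |X H c - Y H c|) / ((F H).card : ℝ)) atTop (nhds 0)) :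
    Tendsto (fun H => (∑ c ∈ F H, Complex.exp (Complex.I * (Y H c : ℂ))) /
      ((F H).card : ℂ)) atTop (nhds l) := by
  have hcb : ∀ a b : ℝ, ‖Complex.exp (Complex.I * (a : ℂ)) - Complex.exp (Complex.I * (b : ℂ))‖ ≤
      |a - b| := by
    intro a b
    have e1 : Complex.exp (Complex.I * (a : ℂ)) - Complex.exp (Complex.I * (b : ℂ)) =
        Complex.exp (Complex.I * (b : ℂ)) * (Complex.exp (Complex.I * ((a - b : ℝ) : ℂ)) - 1) := by
      rw [mul_sub, ← Complex.exp_add, mul_one]
      congr 2
      push_cast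
      ring
    rw [e1, norm_mul, mul_comm Complex.I (b : ℂ), Complex.norm_exp_ofReal_mul_I, one_mul]
    have := Real.norm_exp_I_mul_ofReal_sub_one_le (x := a - b)
    simpa using this
  have hd : Tendsto (fun H => (∑ c ∈ F H, Complex.exp (Complex.I * (X H c : ℂ))) /
      ((F H).card : ℂ) - (∑ c ∈ F H, Complex.exp (Complex.I * (Y H c : ℂ))) /
      ((F H).card : ℂ)) atTop (nhds 0) := by
    refine squeeze_zero_norm (fun H => ?_) hXY
    rw [← sub_div, ← Finset.sum_sub_distrib, norm_div, Complex.norm_natCast]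
    refine div_le_div_of_nonneg_right ?_ (Nat.cast_nonneg _)
    exact (norm_sum_le _ _).trans (Finset.sum_le_sum fun c _ => hcb _ _)
  have h2 := hX.sub hd
  simpa using h2

end Pool.Agent.H514.GL
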