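import Pool.Agent.H514.GL.Cls
import Pool.Agent.H514.GL.Cut
import Pool.Agent.H514.GL.Lev

/-! Project GL: the characteristic function on the family. -/

set_option autoImplicit false

open scoped Classical

namespace Pool.Agent.H514.GL

open Finset Filter Pool.Agent.H514.IS

variable {C C0 c0 : ℝ}

/-- the limit of the characteristic functions -/
noncomputable def gg (θ : Fin 3 → ℝ) : ℂ := Complex.exp ((-(5 / 4 * ∑ i, θ i ^ 2) : ℝ) : ℂ)

lemma gg_norm (θ : Fin 3 → ℝ) : ‖gg θ‖ ≤ 1 := by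
  unfold gg
  rw [Complex.norm_exp, Complex.ofReal_re, Real.exp_le_one_iff]
  have : 0 ≤ ∑ i, θ i ^ 2 := sum_nonneg fun i _ => sq_nonneg _
  linarith

lemma gg_zero : gg 0 = 1 := by
  unfold gg
  simp

/-- the normalised additive function -/
noncomputable def Xw (w : ℕ) (θ : Fin 3 → ℝ) (H : ℕ) (t : ℕ × ℕ) : ℝ :=
  (Vv w (zz H) θ t - 3 / 2 * (∑ i, θ i) * ll H) / Real.sqrt (ll H)

/-- the limit on the family with the conditions at the primes at most `w` -/
theorem fw_lim (hy : Hy C C0 c0) (θ : Fin 3 → ℝ) {w : ℕ} (hw : 3 ≤ w) :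
    Tendsto (fun H => (∑ t ∈ Fw w H, Complex.exp (Complex.I * (Xw w θ H t : ℂ)) -
      ((Fw w H).card : ℂ) * gg θ) / ((Rg (Rh H)).card : ℂ)) atTop (nhds 0) := by
  obtain ⟨W, hW, hWp, S, hS, hsum⟩ := fw_classes w
  have hWp' : ∀ p : ℕ, p.Prime → p ∣ W → p ≤ w := by
    intro p hp hd
    have := hWp p hp hd
    omega
  have h1 : ∀ θ' : Fin 3 → ℝ, Tendsto (fun H => (∑ t ∈ Fw w H, Complex.exp (Complex.I *
      (Xw w θ' H t : ℂ))) / ((Rg (Rh H)).card : ℂ)) atTop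
        (nhds ((S.card : ℂ) * (gg θ' / (W : ℂ) ^ 2))) := by
    intro θ'
    have h2 : Tendsto (fun H => ∑ s ∈ S, (∑ t ∈ Rc (Rh H) W s.1 s.2,
        Complex.exp (Complex.I * (Xw w θ' H t : ℂ))) / ((Rg (Rh H)).card : ℂ)) atTop
          (nhds (∑ s ∈ S, gg θ' / (W : ℂ) ^ 2)) :=
      tendsto_finsetSum _ fun s _ => cls_lim hy θ' (by omega) hW hWp'
    rw [sum_const, nsmul_eq_mul] at h2
    refine h2.congr fun H => ?_
    rw [hsum H, sum_div]
  have h3 := h1 0
  have h4 : ∀ H t, Xw w 0 H t = 0 := by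
    intro H t
    simp [Xw, Vv, dt]
  simp only [h4, Complex.ofReal_zero, mul_zero, Complex.exp_zero, sum_const, nsmul_eq_mul,
    mul_one, gg_zero] at h3
  have h5 := (h1 θ).sub (h3.mul_const (gg θ))
  have h6 : (S.card : ℂ) * (gg θ / (W : ℂ) ^ 2) - (S.card : ℂ) * (1 / (W : ℂ) ^ 2) * gg θ = 0 := by
    ring
  rw [h6] at h5
  refine h5.congr fun H => ?_
  ring

end Pool.Agent.H514.GL
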