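import Pool.Agent.H514.GL.Lim
import Pool.Agent.H514.GL.Cmp

/-! Project GL: the characteristic function on the family, for the logarithm of `#Ш[2]`. -/

set_option autoImplicit false

open scoped Classical

namespace Pool.Agent.H514.GL

open Finset Filter Pool.Agent.H514.IS

variable {C C0 c0 : ℝ}

/-- the logarithm of `#Ш[2]` -/
noncomputable def lq (t : ℕ × ℕ) (i : Fin 3) : ℝ :=
  lg (D (2 * ((sh i t).1 + (sh i t).2)) (((sh i t).1 - (sh i t).2) ^ 2))

/-- the normalised vector -/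
noncomputable def Zz (θ : Fin 3 → ℝ) (H : ℕ) (t : ℕ × ℕ) : ℝ :=
  (dt θ (lq t) - 3 / 2 * (∑ i, θ i) * ll H) / Real.sqrt (ll H)

lemma exp_sub_le (x y : ℝ) : ‖Complex.exp (Complex.I * (x : ℂ)) -
    Complex.exp (Complex.I * (y : ℂ))‖ ≤ |x - y| := by
  have h1 : Complex.exp (Complex.I * (x : ℂ)) - Complex.exp (Complex.I * (y : ℂ)) =
      Complex.exp (Complex.I * (y : ℂ)) * (Complex.exp (Complex.I * ((x - y : ℝ) : ℂ)) - 1) := by
    rw [mul_sub, ← Complex.exp_add, mul_one]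
    congr 2
    push_cast
    ring
  rw [h1, norm_mul, norm_expI, one_mul]
  exact norm_expI_sub _

/-- the comparison in the mean -/
lemma cmp_mean (θ : Fin 3 → ℝ) {C0 : ℝ} (hup : ∀ R : ℕ, 1 ≤ R → ((Rg R).card : ℝ) ≤ C0 * R) :
    ∃ B : ℝ, 0 ≤ B ∧ ∀ H : ℕ, 16 ≤ Rh H →
      ∑ t ∈ Rg (Rh H), |dt θ (lq t) - Vv 4 (yy H) θ t| ≤ B * Rh H := by
  obtain ⟨C, hC, h⟩ := cmp
  have hA : 0 ≤ ∑ i, |θ i| := sum_nonneg fun i _ => abs_nonneg _
  refine ⟨(∑ i, |θ i|) * (|C0| + C), by positivity, fun H hH => ?_⟩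
  have h1 : ∀ t ∈ Rg (Rh H), |dt θ (lq t) - Vv 4 (yy H) θ t| ≤
      ∑ i, |θ i| * (1 + (lq t i - ∑ p ∈ Pw 4 (yy H), ph p (sh i t)) ^ 2) := by
    intro t _
    have h2 : dt θ (lq t) - Vv 4 (yy H) θ t =
        ∑ i, θ i * (lq t i - ∑ p ∈ Pw 4 (yy H), ph p (sh i t)) := by
      unfold dt Vv dt yv
      rw [sum_comm, ← sum_sub_distrib]
      refine sum_congr rfl fun i _ => ?_
      rw [mul_sub, mul_sum]
    rw [h2]
    refine (abs_sum_le_sum_abs _ _).trans (sum_le_sum fun i _ => ?_)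
    rw [abs_mul]
    apply mul_le_mul_of_nonneg_left _ (abs_nonneg _)
    set x := lq t i - ∑ p ∈ Pw 4 (yy H), ph p (sh i t)
    rw [← sq_abs x]
    nlinarith [sq_nonneg (|x| - 1), abs_nonneg x]
  calc ∑ t ∈ Rg (Rh H), |dt θ (lq t) - Vv 4 (yy H) θ t|
      ≤ ∑ t ∈ Rg (Rh H), ∑ i, |θ i| * (1 + (lq t i - ∑ p ∈ Pw 4 (yy H), ph p (sh i t)) ^ 2) :=
        sum_le_sum h1
    _ = ∑ i, |θ i| * (((Rg (Rh H)).card : ℝ) +
        ∑ t ∈ Rg (Rh H), (lq t i - ∑ p ∈ Pw 4 (yy H), ph p (sh i t)) ^ 2) := by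
        rw [sum_comm]
        refine sum_congr rfl fun i _ => ?_
        rw [← mul_sum, sum_add_distrib, sum_const, nsmul_eq_mul, mul_one]
    _ ≤ ∑ i, |θ i| * ((|C0| + C) * Rh H) := by
        refine sum_le_sum fun i _ => mul_le_mul_of_nonneg_left ?_ (abs_nonneg _)
        have h3 := hup (Rh H) (by omega)
        have h4 : C0 * (Rh H : ℝ) ≤ |C0| * Rh H :=
          mul_le_mul_of_nonneg_right (le_abs_self _) (Nat.cast_nonneg _)
        have h5 := h H hH i
        unfold lq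
        linarith
    _ = _ := by rw [← sum_mul, mul_assoc]

theorem fu_lim (hy : Hy C C0 c0) (hdiff : ∀ (θ : Fin 3 → ℝ) {w : ℕ}, 4 ≤ w →
    Tendsto (fun H => (∑ t ∈ Rg (Rh H), |Vv 4 (yy H) θ t - Vv w (zz H) θ t|) /
      (Real.sqrt (ll H) * Rh H)) atTop (nhds 0)) (θ : Fin 3 → ℝ) :
    Tendsto (fun H => (∑ t ∈ Fu H, Complex.exp (Complex.I * (Zz θ H t : ℂ))) /
      ((Fu H).card : ℂ)) atTop (nhds (gg θ)) := by
  obtain ⟨c, hc, hlow⟩ := fu_low rh_tend
  obtain ⟨B, hB, hBm⟩ := cmp_mean θ hy.up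
  rw [Metric.tendsto_atTop']
  intro ε hε
  -- the choice of `w`
  obtain ⟨w0, hw0⟩ := exists_nat_gt (6 / (ε * c))
  set w : ℕ := max w0 4 with hw
  have hw4 : 4 ≤ w := le_max_right _ _
  have hwr : (w0 : ℝ) ≤ w := by exact_mod_cast le_max_left _ _
  have hwpos : (0 : ℝ) < w := by
    have : (4 : ℝ) ≤ w := by exact_mod_cast hw4
    linarith
  have hwε : 2 / (w : ℝ) ≤ ε * c / 3 := by
    have h1 : 6 / (ε * c) < w := lt_of_lt_of_le hw0 hwr
    rw [div_lt_iff₀ (by positivity)] at h1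
    rw [div_le_iff₀ hwpos]
    linarith
  -- the limits
  have l1 := (fw_lim hy θ (w := w) (by omega)).norm
  rw [norm_zero] at l1
  have hε6 : 0 < ε * c / 6 := by positivity
  have l1' := (l1.mul_const (|C0| : ℝ)).eventually_lt_const (u := ε * c / 6)
    (by rw [zero_mul]; exact hε6)
  have l2 := (hdiff θ hw4).eventually_lt_const (u := ε * c / 6) hε6
  have l3 : Tendsto (fun H => B / Real.sqrt (ll H)) atTop (nhds 0) :=
    (Real.tendsto_sqrt_atTop.comp ll_tend).const_div_atTop B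
  have l3' := l3.eventually_lt_const (u := ε * c / 6) hε6
  have e1 : ∀ᶠ H in atTop, 16 ≤ Rh H := rh_tend.eventually_ge_atTop 16
  have e2 : ∀ᶠ H in atTop, 0 < ll H := ll_tend.eventually_gt_atTop 0
  have hall : ∀ᶠ H in atTop, dist ((∑ t ∈ Fu H, Complex.exp (Complex.I * (Zz θ H t : ℂ))) /
      ((Fu H).card : ℂ)) (gg θ) < ε := by
    filter_upwards [hlow, l1', l2, l3', e1, e2] with H hlow l1 l2 l3 e1 e2
    have hR0 : (0 : ℝ) < Rh H := by
      have : (16 : ℝ) ≤ Rh H := by exact_mod_cast e1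
      linarith
    have hF0 : (0 : ℝ) < (Fu H).card := lt_of_lt_of_le (by positivity) hlow
    have hFc : ((Fu H).card : ℂ) ≠ 0 := by
      have := hF0.ne'
      exact_mod_cast this
    have hs : 0 < Real.sqrt (ll H) := Real.sqrt_pos.2 e2
    have hN := hy.up (Rh H) (by omega)
    have hN' := hy.low (Rh H) (by omega)
    have hN0 : (0 : ℝ) < (Rg (Rh H)).card := lt_of_lt_of_le (mul_pos hy.hc hR0) hN'
    -- the main inequality
    have h1 : ‖∑ t ∈ Fu H, Complex.exp (Complex.I * (Zz θ H t : ℂ)) - ((Fu H).card : ℂ) * gg θ‖ ≤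
        ‖∑ t ∈ Fw w H, Complex.exp (Complex.I * (Xw w θ H t : ℂ)) - ((Fw w H).card : ℂ) * gg θ‖ +
          2 * (((Fw w H) \ (Fu H)).card : ℝ) + ∑ t ∈ Fu H, |Zz θ H t - Xw w θ H t| := by
      have h2 : ∑ t ∈ Fw w H, Complex.exp (Complex.I * (Xw w θ H t : ℂ)) =
          ∑ t ∈ (Fw w H) \ (Fu H), Complex.exp (Complex.I * (Xw w θ H t : ℂ)) +
            ∑ t ∈ Fu H, Complex.exp (Complex.I * (Xw w θ H t : ℂ)) :=
        (sum_sdiff (fu_sub w H)).symm
      have h3 : ((Fw w H).card : ℂ) = (((Fw w H) \ (Fu H)).card : ℂ) + ((Fu H).card : ℂ) := by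
        have := card_sdiff_add_card_eq_card (fu_sub w H)
        exact_mod_cast this.symm
      have h4 : ∑ t ∈ Fu H, Complex.exp (Complex.I * (Zz θ H t : ℂ)) - ((Fu H).card : ℂ) * gg θ =
          (∑ t ∈ Fw w H, Complex.exp (Complex.I * (Xw w θ H t : ℂ)) - ((Fw w H).card : ℂ) * gg θ)
          - ∑ t ∈ (Fw w H) \ (Fu H), Complex.exp (Complex.I * (Xw w θ H t : ℂ))
          + (((Fw w H) \ (Fu H)).card : ℂ) * gg θ
          + ∑ t ∈ Fu H, (Complex.exp (Complex.I * (Zz θ H t : ℂ)) -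
            Complex.exp (Complex.I * (Xw w θ H t : ℂ))) := by
        rw [h2, h3, sum_sub_distrib]
        ring
      rw [h4]
      have h5 : ‖∑ t ∈ (Fw w H) \ (Fu H), Complex.exp (Complex.I * (Xw w θ H t : ℂ))‖ ≤
          (((Fw w H) \ (Fu H)).card : ℝ) := by
        refine (norm_sum_le _ _).trans ?_
        simp only [norm_expI, sum_const, nsmul_eq_mul, mul_one]
        exact le_rfl
      have h6 : ‖(((Fw w H) \ (Fu H)).card : ℂ) * gg θ‖ ≤ (((Fw w H) \ (Fu H)).card : ℝ) := by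
        rw [norm_mul, Complex.norm_natCast]
        exact mul_le_of_le_one_right (Nat.cast_nonneg _) (gg_norm θ)
      have h7 : ‖∑ t ∈ Fu H, (Complex.exp (Complex.I * (Zz θ H t : ℂ)) -
            Complex.exp (Complex.I * (Xw w θ H t : ℂ)))‖ ≤ ∑ t ∈ Fu H, |Zz θ H t - Xw w θ H t| :=
        (norm_sum_le _ _).trans (sum_le_sum fun t _ => exp_sub_le _ _)
      refine (norm_add_le _ _).trans ?_
      refine (add_le_add_left (norm_add_le _ _) _).trans ?_
      refine (add_le_add_left (add_le_add_left (norm_sub_le _ _) _) _).trans ?_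
      linarith
    -- the three terms
    have t2 : (((Fw w H) \ (Fu H)).card : ℝ) ≤ (Rh H : ℝ) / w := fw_diff (by omega)
    have t3 : ∑ t ∈ Fu H, |Zz θ H t - Xw w θ H t| ≤ (ε * c / 6 + ε * c / 6) * Rh H := by
      have g1 : ∀ t : ℕ × ℕ, |Zz θ H t - Xw w θ H t| ≤ (|dt θ (lq t) - Vv 4 (yy H) θ t| +
          |Vv 4 (yy H) θ t - Vv w (zz H) θ t|) / Real.sqrt (ll H) := by
        intro t
        have : Zz θ H t - Xw w θ H t = ((dt θ (lq t) - Vv 4 (yy H) θ t) +
          (Vv 4 (yy H) θ t - Vv w (zz H) θ t)) / Real.sqrt (ll H) := by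
          unfold Zz Xw
          ring
        rw [this, abs_div, abs_of_pos hs]
        exact div_le_div_of_nonneg_right (abs_add_le _ _) hs.le
      have g2 : ∑ t ∈ Fu H, |Zz θ H t - Xw w θ H t| ≤ ∑ t ∈ Rg (Rh H),
          (|dt θ (lq t) - Vv 4 (yy H) θ t| + |Vv 4 (yy H) θ t - Vv w (zz H) θ t|) /
            Real.sqrt (ll H) := by
        refine (sum_le_sum fun t _ => g1 t).trans ?_
        apply sum_le_sum_of_subset_of_nonneg (filter_subset _ _)
        intro t _ _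
        positivity
      rw [← sum_div, sum_add_distrib, add_div] at g2
      refine g2.trans ?_
      have g3 := hBm H e1
      have g4 : (∑ t ∈ Rg (Rh H), |dt θ (lq t) - Vv 4 (yy H) θ t|) / Real.sqrt (ll H) ≤
          ε * c / 6 * Rh H := by
        calc _ ≤ B * Rh H / Real.sqrt (ll H) := div_le_div_of_nonneg_right g3 hs.le
          _ = B / Real.sqrt (ll H) * Rh H := by ring
          _ ≤ _ := mul_le_mul_of_nonneg_right l3.le hR0.le
      have g5 : (∑ t ∈ Rg (Rh H), |Vv 4 (yy H) θ t - Vv w (zz H) θ t|) / Real.sqrt (ll H) ≤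
          ε * c / 6 * Rh H := by
        have g6 := mul_le_mul_of_nonneg_right l2.le hR0.le
        refine le_trans (le_of_eq ?_) g6
        field_simp
      linarith
    have t1 : ‖∑ t ∈ Fw w H, Complex.exp (Complex.I * (Xw w θ H t : ℂ)) -
        ((Fw w H).card : ℂ) * gg θ‖ ≤ ε * c / 6 * Rh H := by
      rw [norm_div, Complex.norm_natCast] at l1
      set n := ‖∑ t ∈ Fw w H, Complex.exp (Complex.I * (Xw w θ H t : ℂ)) -
        ((Fw w H).card : ℂ) * gg θ‖ with hn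
      have hn0 : 0 ≤ n := norm_nonneg _
      have g1 : n / (Rg (Rh H)).card * |C0| ≤ ε * c / 6 := l1.le
      have g2 : ((Rg (Rh H)).card : ℝ) ≤ |C0| * Rh H :=
        hN.trans (mul_le_mul_of_nonneg_right (le_abs_self _) hR0.le)
      calc n = n / (Rg (Rh H)).card * (Rg (Rh H)).card := by
            rw [div_mul_cancel₀ _ hN0.ne']
        _ ≤ n / (Rg (Rh H)).card * (|C0| * Rh H) :=
            mul_le_mul_of_nonneg_left g2 (by positivity)
        _ = n / (Rg (Rh H)).card * |C0| * Rh H := by ring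
        _ ≤ _ := mul_le_mul_of_nonneg_right g1 hR0.le
    have h8 : ‖∑ t ∈ Fu H, Complex.exp (Complex.I * (Zz θ H t : ℂ)) - ((Fu H).card : ℂ) * gg θ‖ ≤
        (5 / 6 * ε) * (c * Rh H) := by
      have h9 : 2 * (((Fw w H) \ (Fu H)).card : ℝ) ≤ ε * c / 3 * Rh H := by
        calc 2 * (((Fw w H) \ (Fu H)).card : ℝ) ≤ 2 * ((Rh H : ℝ) / w) := by linarith
          _ = 2 / (w : ℝ) * Rh H := by ring
          _ ≤ _ := mul_le_mul_of_nonneg_right hwε hR0.le
      calc _ ≤ _ := h1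
        _ ≤ ε * c / 6 * Rh H + ε * c / 3 * Rh H + (ε * c / 6 + ε * c / 6) * Rh H := by linarith
        _ = _ := by ring
    rw [dist_eq_norm]
    have h10 : (∑ t ∈ Fu H, Complex.exp (Complex.I * (Zz θ H t : ℂ))) / ((Fu H).card : ℂ) - gg θ =
        (∑ t ∈ Fu H, Complex.exp (Complex.I * (Zz θ H t : ℂ)) - ((Fu H).card : ℂ) * gg θ) /
          ((Fu H).card : ℂ) := by
      field_simp
    rw [h10, norm_div, Complex.norm_natCast, div_lt_iff₀ hF0]
    calc _ ≤ (5 / 6 * ε) * (c * Rh H) := h8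
      _ < ε * (c * Rh H) := by
          apply mul_lt_mul_of_pos_right _ (by positivity)
          linarith
      _ ≤ _ := mul_le_mul_of_nonneg_left hlow hε.le
  obtain ⟨N, hN⟩ := eventually_atTop.1 hall
  exact ⟨N, fun n hn => hN n hn.le⟩

end Pool.Agent.H514.GL
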