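import Pool.Agent.H514.GL.Defs2

/-!
GL-5. The mean value of a product over many primes.

`Lat`, `Lf`, `mn` are as in GL-4; `Avg`, `AvgAbs`, `Expand`, `Esymm` are the statements of GL-4 and GL-2 (other
subtasks), used as hypotheses.

PROOF. Let `N = #Rg R ≤ C0 R`, `S = ∑_{p ∈ P} 3 η / p`.
(1) By `Expand` for every `t`: `∏_{P} (1 + g p t) = ∑_{|D| ≤ K} ∏_{D} g p t + E(t)`,
`‖E(t)‖ ≤ ∑_{|D| = K + 1} ∏_{D} ‖g p t‖`, and by `AvgAbs` and `Esymm`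
`∑_t ‖E(t)‖ ≤ (C0 + 2 C) R ∑_{|D| = K + 1} ∏_{D} (3 η / p) ≤ (C0 + 2 C) R S ^ (K + 1) / (K + 1)!`.
(2) By `Avg`: `∑_t ∑_{|D| ≤ K} ∏_{D} g p t = N / W² ∑_{|D| ≤ K} ∏_{D} mn p + E'`,
`‖E'‖ ≤ ∑_{|D| ≤ K} C (3 η) ^ |D| (√R + ∏_{D} p) ≤ #{D} * C * 3 ^ K * 2 √R` (as `0 ≤ η ≤ 1`, `∏_D p ≤ √R`), and the number of
the `D ⊆ P` with at most `K` elements is at most `(#P + 1) ^ K` (an injection of these `D` into the maps
`Fin K → Option P`, or `∑_{k ≤ K} C(n, k) ≤ (n + 1) ^ K` by induction).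
(3) `‖1 + mn p (g p)‖ ≤ 1`, because it is the mean value of `1 + g p s` over the `p²` pairs `s`; so by
`Expand` for the numbers `mn p (g p)`, with `‖mn p (g p)‖ ≤ 3 η / p`, and `Esymm`:
`‖∏ (1 + mn p) - ∑_{|D| ≤ K} ∏ mn p‖ ≤ S ^ (K + 1) / (K + 1)!`; multiply by `N / W² ≤ C0 R`.
-/

set_option autoImplicit false

open scoped Classical

namespace Pool.Agent.H514.GL

open Finset

def MnLe : Prop := ∀ {p : ℕ} (_ : p.Prime) {g : ℕ × ℕ → ℂ} {η : ℝ} (_ : Lf p g η),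
    ‖mn p g‖ ≤ 3 * η / p

def Avg (C : ℝ) : Prop := ∀ {R W a b : ℕ} (_ : 1 ≤ R) (_ : 1 ≤ W) {D : Finset ℕ}
    (_ : ∀ p ∈ D, p.Prime ∧ p.Coprime W) {g : ℕ → ℕ × ℕ → ℂ} {η : ℝ}
    (_ : ∀ p ∈ D, Lf p (g p) η),
    ‖∑ t ∈ Rc R W a b, ∏ p ∈ D, g p t - ((Rg R).card : ℂ) / (W : ℂ) ^ 2 * ∏ p ∈ D, mn p (g p)‖ ≤
      C * (3 * η) ^ D.card * (Real.sqrt R + ∏ p ∈ D, (p : ℝ))

def AvgAbs (C C0 : ℝ) : Prop := ∀ {R W a b : ℕ} (_ : 1 ≤ R) (_ : 1 ≤ W) {D : Finset ℕ}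
    (_ : ∀ p ∈ D, p.Prime ∧ p.Coprime W) (_ : (∏ p ∈ D, (p : ℝ)) ≤ Real.sqrt R)
    {g : ℕ → ℕ × ℕ → ℂ} {η : ℝ} (_ : ∀ p ∈ D, Lf p (g p) η),
    ∑ t ∈ Rc R W a b, ∏ p ∈ D, ‖g p t‖ ≤ (C0 + 2 * C) * R * ∏ p ∈ D, (3 * η / p)

def Expand : Prop := ∀ (P : Finset ℕ) (g : ℕ → ℂ) (_ : ∀ p ∈ P, ‖1 + g p‖ ≤ 1) (K : ℕ),
    ‖∏ p ∈ P, (1 + g p) - ∑ D ∈ P.powerset.filter (fun D => D.card ≤ K), ∏ p ∈ D, g p‖ ≤
      ∑ D ∈ P.powersetCard (K + 1), ∏ p ∈ D, ‖g p‖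

def Esymm : Prop := ∀ (P : Finset ℕ) (x : ℕ → ℝ) (_ : ∀ p ∈ P, 0 ≤ x p) (k : ℕ),
    ∑ D ∈ P.powersetCard k, ∏ p ∈ D, x p ≤ (∑ p ∈ P, x p) ^ k / k.factorial

theorem GL5_card (P : Finset ℕ) (K : ℕ) :
    ((P.powerset.filter (fun D => D.card ≤ K)).card : ℝ) ≤ ((P.card : ℝ) + 1) ^ K := by
  have h : (P.powerset.filter (fun D => D.card ≤ K)).card ≤ (P.card + 1) ^ K := by
    induction K with
    | zero =>
      rw [pow_zero]
      refine Finset.card_le_one.2 fun D hD D' hD' => ?_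
      have h1 := Finset.card_eq_zero.1 (Nat.le_zero.1 (Finset.mem_filter.1 hD).2)
      have h2 := Finset.card_eq_zero.1 (Nat.le_zero.1 (Finset.mem_filter.1 hD').2)
      rw [h1, h2]
    | succ K ih =>
      have hsub : P.powerset.filter (fun D => D.card ≤ K + 1) ⊆
          P.powerset.filter (fun D => D.card ≤ K) ∪ P.powersetCard (K + 1) := by
        intro D hD
        obtain ⟨h1, h2⟩ := Finset.mem_filter.1 hD
        rw [Finset.mem_union, Finset.mem_filter, Finset.mem_powersetCard]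
        rcases Nat.lt_or_ge D.card (K + 1) with h3 | h3
        · exact Or.inl ⟨h1, Nat.lt_succ_iff.1 h3⟩
        · exact Or.inr ⟨Finset.mem_powerset.1 h1, le_antisymm h2 h3⟩
      refine (Finset.card_le_card hsub).trans ((Finset.card_union_le _ _).trans ?_)
      rw [Finset.card_powersetCard]
      have h3 : P.card.choose (K + 1) ≤ P.card ^ (K + 1) := Nat.choose_le_pow _ _
      have h4 : P.card ^ (K + 1) ≤ P.card * (P.card + 1) ^ K := by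
        rw [pow_succ']
        exact Nat.mul_le_mul_left _ (Nat.pow_le_pow_left (Nat.le_succ _) _)
      calc _ ≤ (P.card + 1) ^ K + P.card * (P.card + 1) ^ K := Nat.add_le_add ih (h3.trans h4)
        _ = (P.card + 1) ^ (K + 1) := by ring
  exact_mod_cast h

theorem GL5_mn {p : ℕ} (hp : p.Prime) {g : ℕ × ℕ → ℂ} (h : ∀ t, ‖1 + g t‖ ≤ 1) :
    ‖1 + mn p g‖ ≤ 1 := by
  have hp0 : (0 : ℝ) < p := by exact_mod_cast hp.pos
  have hpc : (p : ℂ) ≠ 0 := by exact_mod_cast hp.ne_zero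
  have e : 1 + mn p g = (∑ s ∈ range p ×ˢ range p, (1 + g s)) / (p : ℂ) ^ 2 := by
    unfold mn
    rw [Finset.sum_add_distrib, Finset.sum_const, Finset.card_product, Finset.card_range,
      nsmul_eq_mul, mul_one, add_div]
    congr 1
    push_cast
    field_simp
  rw [e, norm_div, norm_pow, Complex.norm_natCast, div_le_one (by positivity)]
  refine (norm_sum_le _ _).trans ((Finset.sum_le_sum fun s _ => h s).trans (le_of_eq ?_))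
  rw [Finset.sum_const, Finset.card_product, Finset.card_range, nsmul_eq_mul, mul_one]
  push_cast
  ring

theorem sum_main {C C0 : ℝ} (hC : 0 ≤ C) (hC0 : 0 ≤ C0)
    (hN : ∀ R : ℕ, 1 ≤ R → ((Rg R).card : ℝ) ≤ C0 * R) (h1 : MnLe) (h2 : Avg C)
    (h3 : AvgAbs C C0) (h4 : Expand) (h5 : Esymm)
    {R W a b K : ℕ} (hR : 1 ≤ R) (hW : 1 ≤ W) {P : Finset ℕ}
    (hP : ∀ p ∈ P, p.Prime ∧ p.Coprime W)
    (hPR : ∀ D ⊆ P, D.card ≤ K + 1 → (∏ p ∈ D, (p : ℝ)) ≤ Real.sqrt R)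
    {g : ℕ → ℕ × ℕ → ℂ} {η : ℝ} (hη0 : 0 ≤ η) (hη : η ≤ 1) (hg : ∀ p ∈ P, Lf p (g p) η)
    (hg1 : ∀ p ∈ P, ∀ t, ‖1 + g p t‖ ≤ 1) :
    ‖∑ t ∈ Rc R W a b, ∏ p ∈ P, (1 + g p t) -
        ((Rg R).card : ℂ) / (W : ℂ) ^ 2 * ∏ p ∈ P, (1 + mn p (g p))‖ ≤
      (2 * C0 + 2 * C) * R * ((∑ p ∈ P, 3 * η / p) ^ (K + 1) / (K + 1).factorial) +
        2 * C * (3 ^ K * ((P.card : ℝ) + 1) ^ K * Real.sqrt R) := by
  obtain ⟨X, hX⟩ : ∃ X, X = (∑ p ∈ P, 3 * η / (p : ℝ)) ^ (K + 1) / (K + 1).factorial := ⟨_, rfl⟩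
  have hX1 : ∑ D ∈ P.powersetCard (K + 1), ∏ p ∈ D, (3 * η / (p : ℝ)) ≤ X := by
    rw [hX]
    exact h5 P (fun p => 3 * η / (p : ℝ)) (fun p _ => by positivity) (K + 1)
  have hR0 : (0 : ℝ) ≤ R := Nat.cast_nonneg _
  have hsub : ∀ D ∈ P.powersetCard (K + 1), D ⊆ P ∧ D.card = K + 1 := fun D hD =>
    Finset.mem_powersetCard.1 hD
  have hsub2 : ∀ D ∈ P.powerset.filter (fun D => D.card ≤ K), D ⊆ P ∧ D.card ≤ K := fun D hD =>
    ⟨Finset.mem_powerset.1 (Finset.mem_filter.1 hD).1, (Finset.mem_filter.1 hD).2⟩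
  -- step 1
  have s1 : ‖∑ t ∈ Rc R W a b, ∏ p ∈ P, (1 + g p t) -
      ∑ t ∈ Rc R W a b, ∑ D ∈ P.powerset.filter (fun D => D.card ≤ K), ∏ p ∈ D, g p t‖ ≤
      (C0 + 2 * C) * R * X := by
    rw [← Finset.sum_sub_distrib]
    refine (norm_sum_le _ _).trans ?_
    refine (Finset.sum_le_sum fun t _ => h4 P (fun p => g p t) (fun p hp => hg1 p hp t) K).trans ?_
    rw [Finset.sum_comm]
    refine (Finset.sum_le_sum fun D hD => h3 hR hW (fun p hp => hP p ((hsub D hD).1 hp))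
      (hPR D (hsub D hD).1 (hsub D hD).2.le) (η := η)
      (fun p hp => hg p ((hsub D hD).1 hp))).trans ?_
    rw [← Finset.mul_sum]
    exact mul_le_mul_of_nonneg_left hX1 (by positivity)
  -- step 2
  have s2 : ‖∑ t ∈ Rc R W a b, ∑ D ∈ P.powerset.filter (fun D => D.card ≤ K), ∏ p ∈ D, g p t -
      ((Rg R).card : ℂ) / (W : ℂ) ^ 2 *
        ∑ D ∈ P.powerset.filter (fun D => D.card ≤ K), ∏ p ∈ D, mn p (g p)‖ ≤
      2 * C * (3 ^ K * ((P.card : ℝ) + 1) ^ K * Real.sqrt R) := by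
    rw [Finset.sum_comm, Finset.mul_sum, ← Finset.sum_sub_distrib]
    refine (norm_sum_le _ _).trans ?_
    have hb : ∀ D ∈ P.powerset.filter (fun D => D.card ≤ K),
        ‖∑ t ∈ Rc R W a b, ∏ p ∈ D, g p t -
          ((Rg R).card : ℂ) / (W : ℂ) ^ 2 * ∏ p ∈ D, mn p (g p)‖ ≤
        2 * C * (3 ^ K * Real.sqrt R) := by
      intro D hD
      obtain ⟨hD1, hD2⟩ := hsub2 D hD
      refine (h2 hR hW (fun p hp => hP p (hD1 hp)) (η := η) (fun p hp => hg p (hD1 hp))).trans ?_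
      have q1 : (3 * η) ^ D.card ≤ 3 ^ K := by
        refine (pow_le_pow_left₀ (by positivity) (by linarith : 3 * η ≤ 3) _).trans ?_
        exact pow_le_pow_right₀ (by norm_num) hD2
      have q2 : (∏ p ∈ D, (p : ℝ)) ≤ Real.sqrt R := hPR D hD1 (by omega)
      have q3 : (0 : ℝ) ≤ ∏ p ∈ D, (p : ℝ) := Finset.prod_nonneg fun p _ => Nat.cast_nonneg _
      have q4 : 0 ≤ Real.sqrt (R : ℝ) := Real.sqrt_nonneg _
      calc C * (3 * η) ^ D.card * (Real.sqrt R + ∏ p ∈ D, (p : ℝ))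
          ≤ C * 3 ^ K * (Real.sqrt R + Real.sqrt R) := by gcongr
        _ = 2 * C * (3 ^ K * Real.sqrt R) := by ring
    refine (Finset.sum_le_sum hb).trans ?_
    rw [Finset.sum_const, nsmul_eq_mul]
    have hc := GL5_card P K
    calc ((P.powerset.filter (fun D => D.card ≤ K)).card : ℝ) * (2 * C * (3 ^ K * Real.sqrt R))
        ≤ ((P.card : ℝ) + 1) ^ K * (2 * C * (3 ^ K * Real.sqrt R)) :=
          mul_le_mul_of_nonneg_right hc (by positivity)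
      _ = _ := by ring
  -- step 3
  have s3 : ‖((Rg R).card : ℂ) / (W : ℂ) ^ 2 *
        ∑ D ∈ P.powerset.filter (fun D => D.card ≤ K), ∏ p ∈ D, mn p (g p) -
      ((Rg R).card : ℂ) / (W : ℂ) ^ 2 * ∏ p ∈ P, (1 + mn p (g p))‖ ≤ C0 * R * X := by
    rw [← mul_sub, norm_mul, norm_sub_rev]
    have q1 : ‖((Rg R).card : ℂ) / (W : ℂ) ^ 2‖ ≤ C0 * R := by
      rw [norm_div, norm_pow, Complex.norm_natCast, Complex.norm_natCast]
      refine (div_le_self (Nat.cast_nonneg _) ?_).trans (hN R hR)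
      have : (1 : ℝ) ≤ W := by exact_mod_cast hW
      exact one_le_pow₀ this
    have q2 := h4 P (fun p => mn p (g p)) (fun p hp => GL5_mn (hP p hp).1 (hg1 p hp)) K
    have q3 : ∑ D ∈ P.powersetCard (K + 1), ∏ p ∈ D, ‖mn p (g p)‖ ≤ X := by
      refine le_trans (Finset.sum_le_sum fun D hD => ?_) hX1
      exact Finset.prod_le_prod (fun p _ => norm_nonneg _) fun p hp =>
        h1 (hP p ((hsub D hD).1 hp)).1 (hg p ((hsub D hD).1 hp))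
    exact mul_le_mul q1 (q2.trans q3) (norm_nonneg _) (by positivity)
  rw [← hX]
  have e : ∑ t ∈ Rc R W a b, ∏ p ∈ P, (1 + g p t) -
      ((Rg R).card : ℂ) / (W : ℂ) ^ 2 * ∏ p ∈ P, (1 + mn p (g p)) =
      (∑ t ∈ Rc R W a b, ∏ p ∈ P, (1 + g p t) -
      ∑ t ∈ Rc R W a b, ∑ D ∈ P.powerset.filter (fun D => D.card ≤ K), ∏ p ∈ D, g p t) +
      (∑ t ∈ Rc R W a b, ∑ D ∈ P.powerset.filter (fun D => D.card ≤ K), ∏ p ∈ D, g p t -
      ((Rg R).card : ℂ) / (W : ℂ) ^ 2 *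
        ∑ D ∈ P.powerset.filter (fun D => D.card ≤ K), ∏ p ∈ D, mn p (g p)) +
      (((Rg R).card : ℂ) / (W : ℂ) ^ 2 *
        ∑ D ∈ P.powerset.filter (fun D => D.card ≤ K), ∏ p ∈ D, mn p (g p) -
      ((Rg R).card : ℂ) / (W : ℂ) ^ 2 * ∏ p ∈ P, (1 + mn p (g p))) := by ring
  rw [e]
  refine (norm_add₃_le).trans ?_
  refine (add_le_add (add_le_add s1 s2) s3).trans (le_of_eq ?_)
  ring

end Pool.Agent.H514.GL
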